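import Pool.Agent.MK.CubeAdd

/-! Module MK/Expand. Elementary expansions of cubical complexes do not change the boundary of
the thickening (up to flips).

(F) In a closed set X: if q ∈ X and q' is such that for every k, q' k = q k or (q k is odd and
 |q' k - q k| = 1), then q' ∈ X (change the coordinates one after the other; the other coordinates
 and their parities are not affected).
Let c = b + ε e_i, C = odd coordinates of b other than i = odd coordinates of c (c i is even).
`b ∉ X`, since otherwise c ∈ X (hX). Closed (X ∪ {b, c}): faces of b: hf or c; the faces c ± e_j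
(j ∈ C) of c are faces of b ± e_j ∈ X (hf): (b ± e_j) i = b i is odd.
First cube: `cube_add` for q = b, C, i, ε, X:
 h1: q' ≠ b, q' j = b j for j ∉ C ∪ {i}, |q' j - b j| ≤ 1, ε (q' i - b i) ≤ 0. Choose j with
  q' j ≠ b j, δ = q' j - b j; (j, δ) ≠ (i, ε), b j is odd; b + δ e_j ∈ X, and q' ∈ X by (F).
 h2: q' ∈ X, |q' j - b j| ≤ 1. If ε (q' i - b i) ≥ 0 and q' j = b j for all j ∈ C, then c is obtained
  from q' as in (F): i: q' i = b i odd, c i = b i + ε; or q' i = b i + ε = c i; j ∈ C: equal; other k: b k is
  even, c k = b k, and q' k = b k or q' k = b k ± 1 is odd. So c ∈ X, contradiction.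
Second cube: `cube_add` for q = c, C, i, ε, insert b X:
 h1: q' ≠ c, q' j = c j for j ∉ C ∪ {i}, ε (q' i - c i) ≤ 0, so q' i = c i or q' i = c i - ε = b i. If q' i = b i:
  q' = b, or q' ≠ b and q' ∈ X as before. If q' i = c i: some j ∈ C has q' j ≠ c j = b j; b + δ e_j ∈ X with
  δ = q' j - b j, and q' ∈ X by (F) ((b + δ e_j) i = b i odd, q' i = b i + ε).
 h2: q' = b: ε (b i - c i) = -1 < 0. q' ∈ X: if ε (q' i - c i) ≥ 0 and q' j = c j on C then
  q' i = c i or q' i = c i + ε is odd, other k as before: c ∈ X by (F), contradiction.
Compose the two equivalences (`Relation.EqvGen.trans`); X ∪ {b, c} = insert c (insert b X).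
The condition S₀ ⊆ K (insert b X) follows from `bd_between` (TS is monotone).
-/

namespace Pool.Agent.MK

open Pool.Agent.DT70

private theorem sm_app10 (δ : ℤ) (j k : Fin 5) : (δ • e j) k = if k = j then δ else 0 := by
  simp [e]

private theorem face_step10 {X : Set P} (hX : Closed X) {q : P} (hq : q ∈ X) {k : Fin 5} {δ : ℤ}
    (hk : Odd (q k)) (hδ : δ = 1 ∨ δ = -1) : q + δ • e k ∈ X := by
  rcases hδ with rfl | rfl
  · rw [one_smul]; exact (hX q hq k hk).1
  · rw [neg_smul, one_smul, ← sub_eq_add_neg]; exact (hX q hq k hk).2

theorem closed_face {X : Set P} (hX : Closed X) {q q' : P} (hq : q ∈ X)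
    (h : ∀ k, q' k = q k ∨ (Odd (q k) ∧ |q' k - q k| = 1)) : q' ∈ X := by
  have key : ∀ s : Finset (Fin 5), (fun k => if k ∈ s then q' k else q k) ∈ X := by
    intro s
    induction s using Finset.induction_on with
    | empty => simpa using hq
    | insert a s ha ih =>
      rcases h a with h1 | ⟨h1, h2⟩
      · have : (fun k => if k ∈ insert a s then q' k else q k)
            = (fun k => if k ∈ s then q' k else q k) := by
          funext k
          by_cases hk : k = a
          · subst hk
            simp [ha, h1]
          · simp [hk]
        rw [this]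
        exact ih
      · have h3 : q' a - q a = 1 ∨ q' a - q a = -1 := by
          rcases abs_eq (by norm_num : (0 : ℤ) ≤ 1) |>.1 h2 with h3 | h3
          · exact Or.inl h3
          · exact Or.inr h3
        have h4 := face_step10 hX ih (k := a) (δ := q' a - q a) (by simpa [ha] using h1) h3
        have : (fun k => if k ∈ insert a s then q' k else q k)
            = (fun k => if k ∈ s then q' k else q k) + (q' a - q a) • e a := by
          funext k
          rw [Pi.add_apply, sm_app10]
          by_cases hk : k = a
          · subst hk
            simp [ha]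
          · simp [hk]
        rw [this]
        exact h4
  have h1 := key Finset.univ
  simpa using h1

theorem TS_mono {X X' : Set P} (h : X ⊆ X') : TS X ⊆ TS X' := by
  rintro F ⟨hF, q, hq, hqF, hm⟩
  exact ⟨hF, q, h hq, hqF, hm⟩

private theorem even_add_unit10 {a ε : ℤ} (ha : Odd a) (hε : ε = 1 ∨ ε = -1) : ¬ Odd (a + ε) := by
  rw [Int.not_odd_iff_even]
  rcases hε with rfl | rfl
  · exact ha.add_odd odd_one
  · exact ha.add_odd (by decide)

theorem expand_closed {X : Set P} (hX : Closed X) {b : P} {i : Fin 5} {ε : ℤ}
    (hε : ε = 1 ∨ ε = -1) (hb : Odd (b i))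
    (hf : ∀ j, Odd (b j) → ∀ δ : ℤ, (δ = 1 ∨ δ = -1) → (j ≠ i ∨ δ ≠ ε) → b + δ • e j ∈ X) :
    Closed (X ∪ {b, b + ε • e i}) := by
  have main : ∀ q ∈ X ∪ {b, b + ε • e i}, ∀ j, Odd (q j) → ∀ δ : ℤ, (δ = 1 ∨ δ = -1) →
      q + δ • e j ∈ X ∪ {b, b + ε • e i} := by
    intro q hq j hj δ hδ
    rcases hq with hq | hq
    · exact Or.inl (face_step10 hX hq hj hδ)
    · rcases hq with rfl | hq
      · by_cases h : j ≠ i ∨ δ ≠ ε
        · exact Or.inl (hf j hj δ hδ h)
        · push Not at h
          obtain ⟨rfl, rfl⟩ := h
          exact Or.inr (Or.inr rfl)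
      · rw [Set.mem_singleton_iff] at hq
        subst hq
        have hji : j ≠ i := by
          rintro rfl
          rw [Pi.add_apply, sm_app10, if_pos rfl] at hj
          exact even_add_unit10 hb hε hj
        have hbj : Odd (b j) := by
          rw [Pi.add_apply, sm_app10, if_neg hji, add_zero] at hj
          exact hj
        have h1 := hf j hbj δ hδ (Or.inl hji)
        have h2 : Odd ((b + δ • e j) i) := by
          rw [Pi.add_apply, sm_app10, if_neg (Ne.symm hji), add_zero]
          exact hb
        have h3 := face_step10 hX h1 h2 hε
        left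
        rw [add_right_comm]
        exact h3
  intro q hq j hj
  refine ⟨?_, ?_⟩
  · have := main q hq j hj 1 (Or.inl rfl)
    rwa [one_smul] at this
  · have := main q hq j hj (-1) (Or.inr rfl)
    rwa [neg_smul, one_smul, ← sub_eq_add_neg] at this

theorem expand {X : Set P} (hX : Closed X) {b : P} {i : Fin 5} {ε : ℤ}
    (hε : ε = 1 ∨ ε = -1) (hb : Odd (b i)) (hc : b + ε • e i ∉ X)
    (hf : ∀ j, Odd (b j) → ∀ δ : ℤ, (δ = 1 ∨ δ = -1) → (j ≠ i ∨ δ ≠ ε) → b + δ • e j ∈ X)
    {S₀ : Set (Finset P)} (h0 : S₀ ⊆ K X) (h0' : S₀ ⊆ K (X ∪ {b, b + ε • e i})) :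
    FE S₀ (K X) (K (X ∪ {b, b + ε • e i})) := by
  classical
  obtain ⟨c, hcdef⟩ : ∃ c, c = b + ε • e i := ⟨_, rfl⟩
  rw [← hcdef] at hc h0' ⊢
  have hci : c i = b i + ε := by rw [hcdef, Pi.add_apply, sm_app10, if_pos rfl]
  have hcj : ∀ j, j ≠ i → c j = b j := by
    intro j hj
    rw [hcdef, Pi.add_apply, sm_app10, if_neg hj, add_zero]
  have hε1 : |ε| = 1 := by rcases hε with rfl | rfl <;> norm_num
  have hεε : ε * ε = 1 := by rcases hε with rfl | rfl <;> norm_num
  have hbX : b ∉ X := fun h => hc (hcdef ▸ face_step10 hX h hb hε)
  have hU : X ∪ {b, c} = insert c (insert b X) := by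
    ext q
    simp only [Set.mem_union, Set.mem_insert_iff, Set.mem_singleton_iff]
    tauto
  have hS1 : S₀ ⊆ K (insert b X) := by
    refine bd_between (T := TS X) (T'' := TS (X ∪ {b, c})) (TS_mono (Set.subset_insert b X))
      (TS_mono ?_) h0 h0'
    rw [hU]
    exact Set.subset_insert c _
  obtain ⟨C, hC⟩ : ∃ C : Finset (Fin 5), ∀ j, j ∈ C ↔ (Odd (b j) ∧ j ≠ i) :=
    ⟨Finset.univ.filter (fun j => Odd (b j) ∧ j ≠ i), fun j => by simp⟩
  have hiC : i ∉ C := fun h => ((hC i).1 h).2 rfl
  have unit : ∀ x y : ℤ, |x - y| ≤ 1 → x ≠ y → (x - y = 1 ∨ x - y = -1) := by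
    intro x y h hn
    rw [abs_le] at h
    omega
  -- first cube
  have h1 : ∀ q' : P, q' ≠ b → (∀ j, j ∉ C → j ≠ i → q' j = b j) → (∀ j, |q' j - b j| ≤ 1) →
      ε * (q' i - b i) ≤ 0 → q' ∈ X := by
    intro q' hne hC' habs hle
    obtain ⟨j, hj⟩ : ∃ j, q' j ≠ b j := by
      by_contra h
      push Not at h
      exact hne (funext h)
    have hbj : Odd (b j) := by
      by_cases hji : j = i
      · rw [hji]; exact hb
      · by_cases hjC : j ∈ C
        · exact ((hC j).1 hjC).1
        · exact absurd (hC' j hjC hji) hj
    have hδ := unit _ _ (habs j) hj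
    have hx : b + (q' j - b j) • e j ∈ X := by
      refine hf j hbj _ hδ ?_
      by_cases hji : j = i
      · right
        subst hji
        intro h
        rw [h, hεε] at hle
        norm_num at hle
      · exact Or.inl hji
    refine closed_face hX hx ?_
    intro k
    rw [Pi.add_apply, sm_app10]
    by_cases hk : k = j
    · subst hk
      left
      simp
    · rw [if_neg hk, add_zero]
      by_cases hqk : q' k = b k
      · exact Or.inl hqk
      · right
        refine ⟨?_, ?_⟩
        · by_cases hki : k = i
          · rw [hki]; exact hb
          · by_cases hkC : k ∈ C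
            · exact ((hC k).1 hkC).1
            · exact absurd (hC' k hkC hki) hqk
        · rcases unit _ _ (habs k) hqk with h | h <;> rw [h] <;> norm_num
  have back : ∀ q' ∈ X, (∀ j, j ≠ i → |q' j - b j| ≤ 1) → (∀ j ∈ C, q' j = b j) →
      (q' i = b i ∨ q' i = b i + ε ∨ q' i = b i + ε + ε) → False := by
    intro q' hq' habs hCe hi
    refine hc (closed_face hX hq' ?_)
    intro k
    by_cases hki : k = i
    · subst hki
      rw [hci]
      rcases hi with h | h | h
      · right
        rw [h]
        refine ⟨hb, ?_⟩
        rw [add_sub_cancel_left]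
        exact hε1
      · left
        exact h.symm
      · right
        rw [h]
        refine ⟨?_, ?_⟩
        · rcases hε with rfl | rfl
          · rw [add_assoc]; exact hb.add_even (by decide)
          · rw [add_assoc]; exact hb.add_even (by decide)
        · rw [sub_add_cancel_left, abs_neg]
          exact hε1
    · rw [hcj k hki]
      by_cases hkC : k ∈ C
      · left
        exact (hCe k hkC).symm
      · have hev : Even (b k) := by
          rw [← Int.not_odd_iff_even]
          exact fun h => hkC ((hC k).2 ⟨h, hki⟩)
        by_cases hqk : q' k = b k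
        · exact Or.inl hqk.symm
        · right
          have hu := unit _ _ (habs k hki) hqk
          refine ⟨?_, ?_⟩
          · rcases hu with h | h
            · have : q' k = b k + 1 := by omega
              rw [this]
              exact hev.add_odd odd_one
            · have : q' k = b k + (-1) := by omega
              rw [this]
              exact hev.add_odd (by decide)
          · rw [abs_sub_comm]
            rcases hu with h | h <;> rw [h] <;> norm_num
  have FE1 : FE S₀ (K X) (K (insert b X)) := by
    refine cube_add hiC hε hbX h1 ?_ h0 hS1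
    intro q' hq' habs
    by_contra hcon
    push Not at hcon
    obtain ⟨hn, hCe⟩ := hcon
    refine back q' hq' (fun j _ => habs j) hCe ?_
    have ha := habs i
    rw [abs_le] at ha
    rcases hε with rfl | rfl
    · have : q' i = b i ∨ q' i = b i + 1 := by omega
      rcases this with h | h
      · exact Or.inl h
      · exact Or.inr (Or.inl h)
    · have : q' i = b i ∨ q' i = b i + (-1) := by omega
      rcases this with h | h
      · exact Or.inl h
      · exact Or.inr (Or.inl h)
  have hcb : c ≠ b := by
    intro h
    have := congrFun h i
    rw [hci] at this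
    rcases hε with rfl | rfl <;> omega
  have FE2 : FE S₀ (K (insert b X)) (K (insert c (insert b X))) := by
    refine cube_add hiC hε (X := insert b X) (q := c) ?_ ?_ ?_ hS1 (hU ▸ h0')
    · rintro (h | h)
      · exact hcb h
      · exact hc h
    · intro q' hne hC' habs hle
      have hai := habs i
      rw [abs_le] at hai
      have hqi : q' i = c i ∨ q' i = b i := by
        rw [hci] at hai hle ⊢
        rcases hε with rfl | rfl <;> omega
      by_cases hqc : q' i = c i
      · obtain ⟨j, hj⟩ : ∃ j, q' j ≠ c j := by
          by_contra h
          push Not at h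
          exact hne (funext h)
        have hji : j ≠ i := by rintro rfl; exact hj hqc
        have hjC : j ∈ C := by
          by_contra h
          exact hj (hC' j h hji)
        have hbj := ((hC j).1 hjC).1
        have hj' : q' j ≠ b j := by rw [← hcj j hji]; exact hj
        have habsj : |q' j - b j| ≤ 1 := by rw [← hcj j hji]; exact habs j
        have hx := hf j hbj _ (unit _ _ habsj hj') (Or.inl hji)
        refine Set.mem_insert_of_mem _ (closed_face hX hx ?_)
        intro k
        rw [Pi.add_apply, sm_app10]
        by_cases hk : k = j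
        · subst hk
          left
          simp
        · rw [if_neg hk, add_zero]
          by_cases hki : k = i
          · subst hki
            right
            refine ⟨hb, ?_⟩
            rw [hqc, hci, add_sub_cancel_left]
            exact hε1
          · by_cases hqk : q' k = b k
            · exact Or.inl hqk
            · right
              have habsk : |q' k - b k| ≤ 1 := by rw [← hcj k hki]; exact habs k
              refine ⟨?_, ?_⟩
              · by_contra hno
                have hkC : k ∉ C := fun h => hno ((hC k).1 h).1
                exact hqk (by rw [hC' k hkC hki, hcj k hki])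
              · rcases unit _ _ habsk hqk with h | h <;> rw [h] <;> norm_num
      · have hqb : q' i = b i := by
          rcases hqi with h | h
          · exact absurd h hqc
          · exact h
        by_cases hb' : q' = b
        · exact Or.inl hb'
        · refine Or.inr (h1 q' hb' ?_ ?_ ?_)
          · intro j hj hji
            rw [hC' j hj hji, hcj j hji]
          · intro j
            by_cases hji : j = i
            · subst hji
              rw [hqb]
              simp
            · rw [← hcj j hji]
              exact habs j
          · rw [hqb]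
            simp
    · intro q' hq' habs
      by_contra hcon
      push Not at hcon
      obtain ⟨hn, hCe⟩ := hcon
      rcases hq' with rfl | hq'
      · rw [hci] at hn
        rcases hε with rfl | rfl <;> omega
      · refine back q' hq' ?_ ?_ ?_
        · intro j hji
          rw [← hcj j hji]
          exact habs j
        · intro j hj
          rw [hCe j hj, hcj j ((hC j).1 hj).2]
        · have ha := habs i
          rw [abs_le] at ha
          rw [hci] at ha hn
          right
          rcases hε with rfl | rfl
          · have : q' i = b i + 1 ∨ q' i = b i + 1 + 1 := by omega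
            exact this
          · have : q' i = b i + (-1) ∨ q' i = b i + (-1) + (-1) := by omega
            exact this
  rw [hU]
  exact Relation.EqvGen.trans _ _ _ FE1 FE2

end Pool.Agent.MK
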