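import Pool.Agent.MK.Defs

/-! Module MK/Lab (definitions only). Edge labellings of cubical complexes. An edge is a cell with
exactly one odd coordinate `i`; its ends are `q - e i` and `q + e i`; its label `Λ q` belongs to
the direction from `q - e i` to `q + e i`. -/

namespace Pool.Agent.MK

/-- The label product around every square of `X` is trivial. -/
def Flat (X : Set P) {Γ : Type} [Group Γ] (Λ : P → Γ) : Prop :=
  ∀ q ∈ X, ∀ i j, i < j → dirs q = {i, j} → Λ (q - e j) * Λ (q + e i) = Λ (q - e i) * Λ (q + e j)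

/-- The labelling comes from a function on the vertices. -/
def Cob (X : Set P) {Γ : Type} [Group Γ] (Λ : P → Γ) : Prop :=
  ∃ φ : P → Γ, ∀ q ∈ X, ∀ i, dirs q = {i} → Λ q = (φ (q - e i))⁻¹ * φ (q + e i)

/-- The 1-skeleton of `X` is connected, and `v₀` is a vertex. -/
def GConn (X : Set P) (v₀ : P) : Prop :=
  v₀ ∈ X ∧ dirs v₀ = ∅ ∧ ∀ v ∈ X, dirs v = ∅ → Relation.ReflTransGen
    (fun x y => ∃ q ∈ X, ∃ i, dirs q = {i} ∧ ((x = q - e i ∧ y = q + e i) ∨
      (x = q + e i ∧ y = q - e i))) v₀ v

/-- The marked cube. -/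
def Marks (X : Set P) (q₀ : P) : Prop := q₀ ∈ X ∧ q₀ - e 4 ∉ X

/-- The marked facet: the face of the first simplex of the cube of `q₀` opposite to its last
vertex. -/
def F₀ (q₀ : P) : Finset P := (Finset.range 5).image (vtx q₀ 1)

end Pool.Agent.MK
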