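import Pool.Agent.MK.KIff
import Pool.Agent.MK.Lab

/-! Module MK/Skel. The 2-skeleton of the cubes of a 2-dimensional complex lies on the boundary.

`skel`: all x ∈ G agree in the coordinates k ∈ D, |D| ≥ 3 (G nonempty: take x₀ ∈ G). Let q* be defined
 by: q* k = q k for k ∉ D; for k ∈ D, q* k = the odd one of the numbers x₀ k - 1, x₀ k. Then q* has at
 least three odd coordinates, so q* ∉ X, and every cube q' with q' k ∈ {q k, q* k} for all k
 contains G: q' ≤ x ≤ q' + 1 for x ∈ G (for k ∈ D: q k, q* k ∈ {x₀ k - 1, x₀ k}). Go from q ∈ X to q* ∉ X changing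
 one coordinate (in D) after the other: there is a step from q' ∈ X to q'' ∉ X which changes the
 coordinate k ∈ D, q'' = q' + e k or q'' = q' - e k. In the first case (q'' = q' + e k, both contain G):
 q' + e k ≤ x ≤ q' + 1 for x ∈ G; `ext_low` gives π with π 0 = k, G ⊆ (sig q' π)∖q', which is in K X by
 `K_iff`. In the second case x ≤ q' + 1 - e k and q' ≤ x: `ext_high`, `K_iff`.
 (Induction on the number of coordinates where q and q* differ.)
`edge_K`, `tri_K`, `tri_K'`: special cases G = {x, x + e i}, {x, x + e i, x + e i + e j}; the cube of q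
 contains G; G is constant in the coordinates ≠ i (resp. ≠ i, j).
`F0_mem`: F₀ q₀ = (sig q₀ 1)∖(q₀ + 1) (vtx q₀ 1 5 = q₀ + 1), and (1 : Equiv.Perm (Fin 5)) 4 = 4.
-/

namespace Pool.Agent.MK

open Pool.Agent.DT70

private theorem e_self (k : Fin 5) : e k k = 1 := by simp [e]

private theorem e_ne {k j : Fin 5} (h : j ≠ k) : e k j = 0 := by simp [e, h]

private theorem e_nonneg (k j : Fin 5) : 0 ≤ e k j := by
  unfold e; split_ifs <;> norm_num

private theorem e_le_one (k j : Fin 5) : e k j ≤ 1 := by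
  unfold e; split_ifs <;> norm_num

private theorem skel_aux {X : Set P} (hd : ∀ q ∈ X, (dirs q).card ≤ 2) {G : Finset P} (hG : Simp G)
    {x₀ : P} (hx₀ : x₀ ∈ G) {D : Finset (Fin 5)}
    (hD : 3 ≤ D.card) (hc : ∀ k ∈ D, ∀ x ∈ G, ∀ y ∈ G, x k = y k) :
    ∀ n : ℕ, ∀ q ∈ X, (∀ x ∈ G, q ≤ x ∧ x ≤ q + 1) →
      (D.filter (fun k => ¬ Odd (q k))).card = n → ∃ s ∈ K X, G ⊆ s := by
  intro n
  induction n with
  | zero =>
    intro q hq h h0
    exfalso
    rw [Finset.card_eq_zero, Finset.filter_eq_empty_iff] at h0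
    have hsub : D ⊆ dirs q := by
      intro k hk
      have := h0 hk
      simp only [not_not] at this
      simp [dirs, this]
    have := Finset.card_le_card hsub
    have := hd q hq
    omega
  | succ n ih =>
    intro q hq h h1
    have hne : (D.filter (fun k => ¬ Odd (q k))).Nonempty := by
      rw [← Finset.card_pos, h1]; omega
    obtain ⟨k, hk⟩ := hne
    obtain ⟨hkD, hkE⟩ := Finset.mem_filter.1 hk
    have hE : Even (q k) := by rwa [Int.not_odd_iff_even] at hkE
    have hlo : q k ≤ x₀ k := (h x₀ hx₀).1 k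
    have hhi : x₀ k ≤ (q + 1) k := (h x₀ hx₀).2 k
    simp only [Pi.add_apply, Pi.one_apply] at hhi
    have hcard : ∀ q' : P, (∀ j, j ≠ k → q' j = q j) → Odd (q' k) →
        (D.filter (fun j => ¬ Odd (q' j))).card = n := by
      intro q' hq' hodd
      have : D.filter (fun j => ¬ Odd (q' j)) = (D.filter (fun j => ¬ Odd (q j))).erase k := by
        ext j
        simp only [Finset.mem_filter, Finset.mem_erase]
        by_cases hj : j = k
        · subst hj; simp [hodd]
        · rw [hq' j hj]; tauto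
      rw [this, Finset.card_erase_of_mem hk, h1]; rfl
    rcases (show x₀ k = q k ∨ x₀ k = q k + 1 by omega) with h0 | h0
    · -- q - e k
      have hxk : ∀ x ∈ G, x k = q k := fun x hx => by rw [hc k hkD x hx x₀ hx₀, h0]
      by_cases hX : q - e k ∈ X
      · apply ih (q - e k) hX
        · intro x hx
          refine ⟨fun j => ?_, fun j => ?_⟩
          · have := (h x hx).1 j
            have := e_nonneg k j
            simp only [Pi.sub_apply]; linarith
          · have := (h x hx).2 j
            simp only [Pi.add_apply, Pi.sub_apply, Pi.one_apply] at *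
            by_cases hj : j = k
            · subst hj; rw [e_self, hxk x hx]; linarith
            · rw [e_ne hj]; linarith
        · apply hcard
          · intro j hj; simp [e_ne hj]
          · simp only [Pi.sub_apply, e_self]
            exact hE.sub_odd odd_one
      · obtain ⟨π, hπ, hsub⟩ := ext_high (k := k) hG (q := q) (fun x hx => ⟨(h x hx).1, fun j => by
          have := (h x hx).2 j
          simp only [Pi.add_apply, Pi.sub_apply, Pi.one_apply] at *
          by_cases hj : j = k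
          · subst hj; rw [e_self, hxk x hx]; linarith
          · rw [e_ne hj]; linarith⟩)
        exact ⟨_, K_iff.2 ⟨q, hq, π, Or.inr ⟨by rw [hπ]; exact hX, rfl⟩⟩, hsub⟩
    · have hxk : ∀ x ∈ G, x k = q k + 1 := fun x hx => by rw [hc k hkD x hx x₀ hx₀, h0]
      have hlow : ∀ x ∈ G, q + e k ≤ x := fun x hx j => by
        have := (h x hx).1 j
        simp only [Pi.add_apply]
        by_cases hj : j = k
        · subst hj; rw [e_self, hxk x hx]
        · rw [e_ne hj]; linarith
      by_cases hX : q + e k ∈ X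
      · apply ih (q + e k) hX
        · intro x hx
          refine ⟨hlow x hx, fun j => ?_⟩
          have := (h x hx).2 j
          have := e_nonneg k j
          simp only [Pi.add_apply, Pi.one_apply] at *
          linarith
        · apply hcard
          · intro j hj; simp [e_ne hj]
          · simp only [Pi.add_apply, e_self]
            exact hE.add_odd odd_one
      · obtain ⟨π, hπ, hsub⟩ := ext_low (k := k) hG (q := q) (fun x hx => ⟨hlow x hx, (h x hx).2⟩)
        exact ⟨_, K_iff.2 ⟨q, hq, π, Or.inl ⟨by rw [hπ]; exact hX, rfl⟩⟩, hsub⟩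

theorem skel {X : Set P} (hd : ∀ q ∈ X, (dirs q).card ≤ 2) {G : Finset P} (hG : Simp G)
    (hne : G.Nonempty) {q : P} (hq : q ∈ X) (h : ∀ x ∈ G, q ≤ x ∧ x ≤ q + 1) {D : Finset (Fin 5)}
    (hD : 3 ≤ D.card) (hc : ∀ k ∈ D, ∀ x ∈ G, ∀ y ∈ G, x k = y k) : ∃ s ∈ K X, G ⊆ s := by
  obtain ⟨x₀, hx₀⟩ := hne
  exact skel_aux hd hG hx₀ hD hc _ q hq h rfl

private theorem le_add_e (x : P) (i : Fin 5) : x ≤ x + e i := fun j => by
  have := e_nonneg i j
  simp only [Pi.add_apply]; linarith

private theorem add_e_le (x : P) (i : Fin 5) : x + e i ≤ x + 1 := fun j => by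
  have := e_le_one i j
  simp only [Pi.add_apply, Pi.one_apply]; linarith

private theorem le_add_one (x : P) : x ≤ x + 1 := fun j => by
  simp only [Pi.add_apply, Pi.one_apply]; linarith

theorem edge_K {X : Set P} (hd : ∀ q ∈ X, (dirs q).card ≤ 2) {q : P} (hq : q ∈ X) {x : P}
    {i : Fin 5} (h : q ≤ x) (h' : x + e i ≤ q + 1) : ∃ s ∈ K X, x ∈ s ∧ x + e i ∈ s := by
  have hG : Simp {x, x + e i} := by
    intro a ha b hb
    simp only [Finset.mem_insert, Finset.mem_singleton] at ha hb
    rcases ha with rfl | rfl <;> rcases hb with rfl | rfl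
    · exact Or.inl ⟨le_rfl, le_add_one _⟩
    · exact Or.inl ⟨le_add_e _ _, add_e_le _ _⟩
    · exact Or.inr ⟨le_add_e _ _, add_e_le _ _⟩
    · exact Or.inl ⟨le_rfl, le_add_one _⟩
  obtain ⟨s, hs, hsub⟩ := skel hd hG ⟨x, by simp⟩ hq (D := Finset.univ.erase i) (by
    intro a ha
    simp only [Finset.mem_insert, Finset.mem_singleton] at ha
    rcases ha with rfl | rfl
    · exact ⟨h, (le_add_e _ _).trans h'⟩
    · exact ⟨h.trans (le_add_e _ _), h'⟩) (by
    rw [Finset.card_erase_of_mem (Finset.mem_univ _)]; simp) (by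
    intro k hk a ha b hb
    have hki : k ≠ i := (Finset.mem_erase.1 hk).1
    simp only [Finset.mem_insert, Finset.mem_singleton] at ha hb
    rcases ha with rfl | rfl <;> rcases hb with rfl | rfl <;> simp [e_ne hki])
  exact ⟨s, hs, hsub (by simp), hsub (by simp)⟩

theorem tri_K {X : Set P} (hd : ∀ q ∈ X, (dirs q).card ≤ 2) {q : P} (hq : q ∈ X) {x : P}
    {i j : Fin 5} (hij : i ≠ j) (h : q ≤ x) (h' : x + e i + e j ≤ q + 1) :
    ∃ s ∈ K X, x ∈ s ∧ x + e i ∈ s ∧ x + e i + e j ∈ s := by
  have h2 : x + e i + e j ≤ x + 1 := fun k => by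
    simp only [Pi.add_apply, Pi.one_apply]
    by_cases hk : k = i
    · subst hk; rw [e_self, e_ne hij]; linarith
    · rw [e_ne hk]; have := e_le_one j k; linarith
  have h3 : x + e i + e j ≤ x + e i + 1 := add_e_le _ _
  have h4 : x ≤ x + e i + e j := (le_add_e _ _).trans (le_add_e _ _)
  have hG : Simp {x, x + e i, x + e i + e j} := by
    intro a ha b hb
    simp only [Finset.mem_insert, Finset.mem_singleton] at ha hb
    rcases ha with rfl | rfl | rfl <;> rcases hb with rfl | rfl | rfl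
    · exact Or.inl ⟨le_rfl, le_add_one _⟩
    · exact Or.inl ⟨le_add_e _ _, add_e_le _ _⟩
    · exact Or.inl ⟨h4, h2⟩
    · exact Or.inr ⟨le_add_e _ _, add_e_le _ _⟩
    · exact Or.inl ⟨le_rfl, le_add_one _⟩
    · exact Or.inl ⟨le_add_e _ _, h3⟩
    · exact Or.inr ⟨h4, h2⟩
    · exact Or.inr ⟨le_add_e _ _, h3⟩
    · exact Or.inl ⟨le_rfl, le_add_one _⟩
  obtain ⟨s, hs, hsub⟩ := skel hd hG ⟨x, by simp⟩ hq (D := (Finset.univ.erase i).erase j) (by
    intro a ha
    simp only [Finset.mem_insert, Finset.mem_singleton] at ha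
    rcases ha with rfl | rfl | rfl
    · exact ⟨h, h4.trans h'⟩
    · exact ⟨h.trans (le_add_e _ _), (le_add_e _ _).trans h'⟩
    · exact ⟨h.trans h4, h'⟩) (by
    rw [Finset.card_erase_of_mem (by simp [hij.symm]),
      Finset.card_erase_of_mem (Finset.mem_univ _)]; simp) (by
    intro k hk a ha b hb
    have hkj : k ≠ j := (Finset.mem_erase.1 hk).1
    have hki : k ≠ i := (Finset.mem_erase.1 (Finset.mem_erase.1 hk).2).1
    simp only [Finset.mem_insert, Finset.mem_singleton] at ha hb
    rcases ha with rfl | rfl | rfl <;> rcases hb with rfl | rfl | rfl <;>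
      simp [e_ne hki, e_ne hkj])
  exact ⟨s, hs, hsub (by simp), hsub (by simp), hsub (by simp)⟩

theorem K_subset {X : Set P} {s : Finset P} (hs : s ∈ K X) :
    ∃ q ∈ X, Simp s ∧ s.card = 5 ∧ ∀ x ∈ s, q ≤ x ∧ x ≤ q + 1 := by
  obtain ⟨F, ⟨⟨hF, hcard⟩, q, hq, hqF, hmin⟩, ⟨y, hy, rfl⟩, -⟩ := hs
  refine ⟨q, hq, fun a ha b hb => hF a (Finset.mem_of_mem_erase ha) b (Finset.mem_of_mem_erase hb),
    ?_, ?_⟩
  · rw [Finset.card_erase_of_mem hy, hcard]
  · intro x hx
    have hxF := Finset.mem_of_mem_erase hx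
    refine ⟨hmin x hxF, ?_⟩
    rcases hF q hqF x hxF with h | h
    · exact h.2
    · exact h.1.trans (le_add_one _)

theorem F0_mem {X : Set P} {q₀ : P} (h : Marks X q₀) : F₀ q₀ ∈ K X := by
  refine K_iff.2 ⟨q₀, h.1, 1, Or.inr ⟨by simpa using h.2, ?_⟩⟩
  have h5 : vtx q₀ 1 5 = q₀ + 1 := by
    funext i
    have : ((Equiv.symm (1 : Equiv.Perm (Fin 5))) i : ℕ) < 5 := Fin.is_lt _
    simp [vtx]
  have hrange : Finset.range 6 = insert 5 (Finset.range 5) := by decide
  unfold F₀ sig
  rw [hrange, Finset.image_insert, h5, Finset.erase_insert]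
  intro hmem
  obtain ⟨k, hk, hk'⟩ := Finset.mem_image.1 hmem
  have hk5 : k < 5 := Finset.mem_range.1 hk
  have := congrFun hk' ⟨k, hk5⟩
  simp only [vtx, Pi.add_apply, Pi.one_apply] at this
  have h1 : ((Equiv.symm (1 : Equiv.Perm (Fin 5))) ⟨k, hk5⟩ : ℕ) = k := rfl
  rw [h1] at this
  simp at this

theorem K_finite {X : Set P} (h : X.Finite) : (K X).Finite := by
  apply Set.Finite.subset (h.biUnion (t := fun q => ((Finset.Icc q (q + 1)).powerset : Set (Finset P)))
    (fun q _ => Finset.finite_toSet _))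
  intro s hs
  obtain ⟨q, hq, -, -, hb⟩ := K_subset hs
  simp only [Set.mem_iUnion]
  exact ⟨q, hq, Finset.mem_coe.2 (Finset.mem_powerset.2 (fun x hx => Finset.mem_Icc.2 (hb x hx)))⟩

end Pool.Agent.MK
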