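import Pool.Agent.MK.Skel

/-! Module MK/ConnK. The boundary of the thickening of a connected 2-dimensional complex is
connected.

`conn_of_edges`: the sets sx s (s ∈ Z, s nonempty) are connected (`convex_sx`, `sx_nonempty`,
 `Convex.isPreconnected`), Rz Z is their union; two faces with a common vertex meet in Pi.single v 1
 (`single_mem`); conclude with `IsConnected.biUnion_of_reflTransGen` (or
 `IsPreconnected.biUnion_of_reflTransGen`): a chain of vertices u = u_0, u_1, .., u_n = w with u_k, u_{k+1} in a
 common face s_k gives a chain of faces.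
`ev x`: the even point below x. For a cell q and q ≤ x ≤ q + 1: ev x is a vertex of q
 (`ev x k = q k` if q k even, `|ev x k - q k| = 1` if odd): by `closed_face` ev x ∈ X.
`conn_K`: vertices of im (K X) are nu x, x ∈ s ∈ K X, so q ≤ x ≤ q + 1 for some q ∈ X (`K_subset`).
 (a) nu x is joined to nu (ev x): v = ev x ∈ X, v ≤ x ≤ v + 1; subtract unit vectors e i with
  x i odd one after the other; each step is an edge {y, y + e i} in the cube of v, which is in a
  face of K X by `edge_K`.
 (b) for an edge cell q ∈ X, dirs q = {i}: q - e i (in the cube of q - e i ∈ X: its points are q - e i and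
  q), then q and q + e i in the cube of q: two edges by `edge_K`. So GConn joins v₀ to every even
  vertex. im (K X) is nonempty: v₀ ∈ X and `edge_K`.
-/

namespace Pool.Agent.MK

open Pool.Agent.DT70

/-- The even point below `x`. -/
def ev (x : P) : P := fun k => 2 * (x k / 2)

theorem ev_face {q x : P} (h : q ≤ x ∧ x ≤ q + 1) (k : Fin 5) :
    ev x k = q k ∨ (Odd (q k) ∧ |ev x k - q k| = 1) := by
  have h1 : q k ≤ x k := h.1 k
  have h2 : x k ≤ q k + 1 := h.2 k
  unfold ev
  rw [Int.odd_iff]
  rcases Int.emod_two_eq_zero_or_one (q k) with h3 | h3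
  · left
    show 2 * (x k / 2) = q k
    omega
  · right
    refine ⟨h3, ?_⟩
    show |2 * (x k / 2) - q k| = 1
    rcases abs_choice (2 * (x k / 2) - q k) with h4 | h4 <;> rw [abs_eq (by norm_num)] <;> omega

private theorem ck_closed_face {X : Set P} (hX : Closed X) {q' : P} :
    ∀ n : ℕ, ∀ q ∈ X, (∀ k, q' k = q k ∨ (Odd (q k) ∧ |q' k - q k| = 1)) →
      (Finset.univ.filter (fun k => q' k ≠ q k)).card = n → q' ∈ X := by
  intro n
  induction n with
  | zero =>
    intro q hq _ hn
    rw [Finset.card_eq_zero, Finset.filter_eq_empty_iff] at hn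
    have : q' = q := by
      funext k
      by_contra hk
      exact hn (Finset.mem_univ k) hk
    rw [this]
    exact hq
  | succ n ih =>
    intro q hq hk hn
    have hne : (Finset.univ.filter (fun k => q' k ≠ q k)).Nonempty := by
      rw [← Finset.card_pos]
      omega
    obtain ⟨i, hi⟩ := hne
    rw [Finset.mem_filter] at hi
    have hi' := hi.2
    rcases hk i with h1 | ⟨hodd, habs⟩
    · exact absurd h1 hi'
    · have key : ∀ q₁ : P, q₁ ∈ X → q₁ i = q' i → (∀ k, k ≠ i → q₁ k = q k) → q' ∈ X := by
        intro q₁ hq₁ h2 h3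
        refine ih q₁ hq₁ ?_ ?_
        · intro k
          by_cases hki : k = i
          · left; rw [hki, h2]
          · rw [h3 k hki]; exact hk k
        · have h4 : (Finset.univ.filter (fun k => q' k ≠ q₁ k)) =
              (Finset.univ.filter (fun k => q' k ≠ q k)).erase i := by
            ext k
            simp only [Finset.mem_filter, Finset.mem_univ, true_and, Finset.mem_erase]
            by_cases hki : k = i
            · simp [hki, h2]
            · simp [hki, h3 k hki]
          rw [h4, Finset.card_erase_of_mem (by rw [Finset.mem_filter]; exact hi), hn]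
          rfl
      obtain ⟨hp, hm⟩ := hX q hq i hodd
      rcases (abs_eq (by norm_num)).mp habs with h5 | h5
      · refine key _ hp ?_ ?_
        · show q i + e i i = q' i
          simp only [e, if_true]
          omega
        · intro k hki
          show q k + e i k = q k
          simp [e, hki]
      · refine key _ hm ?_ ?_
        · show q i - e i i = q' i
          simp only [e, if_true]
          omega
        · intro k hki
          show q k - e i k = q k
          simp [e, hki]

theorem conn_of_edges {Z : Set (Finset ℕ)} (hne : Z.Nonempty) (hs : ∀ s ∈ Z, s.Nonempty)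
    (h : ∀ u ∈ verts Z, ∀ w ∈ verts Z,
      Relation.ReflTransGen (fun a b => ∃ s ∈ Z, a ∈ s ∧ b ∈ s) u w) : IsConnected (Rz Z) := by
  have h1 : Rz Z = ⋃ s ∈ Z, sx s := by
    ext x
    simp only [Rz, Set.mem_ofPred_eq, Set.mem_iUnion, exists_prop]
  have key : ∀ u w, Relation.ReflTransGen (fun a b => ∃ s ∈ Z, a ∈ s ∧ b ∈ s) u w →
      ∀ s ∈ Z, u ∈ s → ∀ s' ∈ Z, w ∈ s' →
      Relation.ReflTransGen (fun i j : Finset ℕ => (sx i ∩ sx j).Nonempty ∧ i ∈ Z) s s' := by
    intro u w huw
    induction huw with
    | refl =>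
      intro s hsZ hu s' _ hw
      exact Relation.ReflTransGen.single ⟨⟨Pi.single u 1, single_mem hu, single_mem hw⟩, hsZ⟩
    | @tail b c _ hbc ih =>
      intro s hsZ hu s' _ hw
      obtain ⟨s'', hs'', hb, hc⟩ := hbc
      exact (ih s hsZ hu s'' hs'' hb).tail
        ⟨⟨Pi.single c 1, single_mem hc, single_mem hw⟩, hs''⟩
  rw [h1]
  refine IsConnected.biUnion_of_reflTransGen hne ?_ ?_
  · intro s hsZ
    exact ⟨sx_nonempty (hs s hsZ), (convex_sx s).isPreconnected⟩
  · intro s hsZ s' hs'Z
    obtain ⟨u, hu⟩ := hs s hsZ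
    obtain ⟨w, hw⟩ := hs s' hs'Z
    exact key u w (h u ⟨s, hsZ, hu⟩ w ⟨s', hs'Z, hw⟩) s hsZ hu s' hs'Z hw

private theorem ck_le_self (q : P) : q ≤ q := le_refl q

private theorem ck_add_e_le (q : P) (i : Fin 5) : q + e i ≤ q + 1 := by
  intro k
  show q k + e i k ≤ q k + 1
  simp only [e]
  split_ifs <;> omega

/-- The relation on vertices: lying in a common face. -/
private def CkR (X : Set P) (a b : ℕ) : Prop := ∃ s ∈ im (K X), a ∈ s ∧ b ∈ s

private theorem ck_edge {X : Set P} (hd : ∀ q ∈ X, (dirs q).card ≤ 2) {q : P} (hq : q ∈ X) {x : P}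
    {i : Fin 5} (h : q ≤ x) (h' : x + e i ≤ q + 1) : CkR X (nu x) (nu (x + e i)) := by
  obtain ⟨s, hs, h1, h2⟩ := edge_K hd hq h h'
  exact ⟨s.image nu, ⟨s, hs, rfl⟩, Finset.mem_image_of_mem _ h1, Finset.mem_image_of_mem _ h2⟩

private theorem ck_symm {X : Set P} {a b : ℕ} (h : Relation.ReflTransGen (CkR X) a b) :
    Relation.ReflTransGen (CkR X) b a := by
  induction h with
  | refl => exact Relation.ReflTransGen.refl
  | tail _ hbc ih =>
    obtain ⟨s, hs, h1, h2⟩ := hbc
    exact Relation.ReflTransGen.head ⟨s, hs, h2, h1⟩ ih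

private theorem ck_up {X : Set P} (hd : ∀ q ∈ X, (dirs q).card ≤ 2) {v : P} (hv : v ∈ X) :
    ∀ n : ℕ, ∀ x : P, v ≤ x → x ≤ v + 1 → (Finset.univ.filter (fun k => x k ≠ v k)).card = n →
      Relation.ReflTransGen (CkR X) (nu v) (nu x) := by
  intro n
  induction n with
  | zero =>
    intro x _ _ hn
    rw [Finset.card_eq_zero, Finset.filter_eq_empty_iff] at hn
    have : x = v := by
      funext k
      by_contra hk
      exact hn (Finset.mem_univ k) hk
    rw [this]
  | succ n ih =>
    intro x h1 h2 hn
    have hne : (Finset.univ.filter (fun k => x k ≠ v k)).Nonempty := by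
      rw [← Finset.card_pos]
      omega
    obtain ⟨i, hi⟩ := hne
    rw [Finset.mem_filter] at hi
    have hi' := hi.2
    have hxi : x i = v i + 1 := by
      have h3 : v i ≤ x i := h1 i
      have h4 : x i ≤ v i + 1 := h2 i
      omega
    have hx1 : v ≤ x - e i := by
      intro k
      show v k ≤ x k - e i k
      simp only [e]
      split_ifs with hk
      · rw [hk]; omega
      · have h4 : v k ≤ x k := h1 k
        omega
    have hx2 : x - e i ≤ v + 1 := by
      intro k
      show x k - e i k ≤ v k + 1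
      have h4 : x k ≤ v k + 1 := h2 k
      simp only [e]
      split_ifs <;> omega
    have hx3 : x - e i + e i = x := by simp
    have h5 := ih (x - e i) hx1 hx2 (by
      have h4 : (Finset.univ.filter (fun k => (x - e i) k ≠ v k)) =
          (Finset.univ.filter (fun k => x k ≠ v k)).erase i := by
        ext k
        simp only [Finset.mem_filter, Finset.mem_univ, true_and, Finset.mem_erase, Pi.sub_apply, e]
        by_cases hki : k = i
        · subst hki
          simp [hxi]
        · simp [hki]
      rw [h4, Finset.card_erase_of_mem (by rw [Finset.mem_filter]; exact hi), hn]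
      rfl)
    refine h5.tail ?_
    have h6 := ck_edge (X := X) hd hv (x := x - e i) (i := i) hx1 (by rw [hx3]; exact h2)
    rwa [hx3] at h6

private theorem ck_ev {x : P} : ev x ≤ x ∧ x ≤ ev x + 1 := by
  constructor
  · intro k
    show 2 * (x k / 2) ≤ x k
    omega
  · intro k
    show x k ≤ 2 * (x k / 2) + 1
    omega

private theorem ck_dirs_ev (x : P) : dirs (ev x) = ∅ := by
  unfold dirs
  rw [Finset.filter_eq_empty_iff]
  intro k _
  rw [Int.odd_iff]
  show ¬ (2 * (x k / 2)) % 2 = 1
  omega

private theorem ck_cell {X : Set P} (hc : Closed X) (hd : ∀ q ∈ X, (dirs q).card ≤ 2) {q : P}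
    (hq : q ∈ X) {i : Fin 5} (hi : dirs q = {i}) :
    Relation.ReflTransGen (CkR X) (nu (q - e i)) (nu (q + e i)) := by
  have hodd : Odd (q i) := by
    have : i ∈ dirs q := by rw [hi]; exact Finset.mem_singleton_self i
    exact (Finset.mem_filter.mp this).2
  have h1 := ck_edge (X := X) hd (hc q hq i hodd).2 (x := q - e i) (i := i) (le_refl _)
    (ck_add_e_le _ _)
  rw [show q - e i + e i = q by simp] at h1
  have h2 := ck_edge (X := X) hd hq (x := q) (i := i) (le_refl _) (ck_add_e_le _ _)
  exact (Relation.ReflTransGen.single h1).tail h2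

theorem conn_K {X : Set P} (hc : Closed X) (hd : ∀ q ∈ X, (dirs q).card ≤ 2) {v₀ : P}
    (hg : GConn X v₀) : IsConnected (Rz (im (K X))) := by
  obtain ⟨hv₀, -, hconn⟩ := hg
  have hall : ∀ u ∈ verts (im (K X)), Relation.ReflTransGen (CkR X) (nu v₀) u := by
    rintro u ⟨s, ⟨t, ht, rfl⟩, hu⟩
    obtain ⟨x, hx, rfl⟩ := Finset.mem_image.mp hu
    obtain ⟨q, hq, -, -, hqx⟩ := K_subset ht
    have hev : ev x ∈ X := ck_closed_face hc _ q hq (ev_face (hqx x hx)) rfl
    have h1 : Relation.ReflTransGen (CkR X) (nu (ev x)) (nu x) :=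
      ck_up hd hev _ x ck_ev.1 ck_ev.2 rfl
    have h2 := hconn (ev x) hev (ck_dirs_ev x)
    refine Relation.ReflTransGen.trans ?_ h1
    clear h1
    generalize ev x = y at h2
    induction h2 with
    | refl => exact Relation.ReflTransGen.refl
    | tail _ hbc ih =>
      refine ih.trans ?_
      obtain ⟨q', hq', i, hi, h3 | h3⟩ := hbc
      · rw [h3.1, h3.2]
        exact ck_cell hc hd hq' hi
      · rw [h3.1, h3.2]
        exact ck_symm (ck_cell hc hd hq' hi)
  refine conn_of_edges ?_ ?_ ?_
  · obtain ⟨s, hs, -, -⟩ := edge_K hd hv₀ (x := v₀) (i := 0) (le_refl _) (ck_add_e_le _ _)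
    exact ⟨s.image nu, s, hs, rfl⟩
  · rintro s ⟨t, ht, rfl⟩
    obtain ⟨q, hq, -, h5, -⟩ := K_subset ht
    have : t.Nonempty := by rw [← Finset.card_pos, h5]; norm_num
    exact this.image nu
  · intro u hu w hw
    exact (ck_symm (hall u hu)).trans (hall w hw)

theorem v0_vert {X : Set P} (hd : ∀ q ∈ X, (dirs q).card ≤ 2) {v₀ : P}
    (hg : GConn X v₀) : nu v₀ ∈ verts (im (K X)) := by
  obtain ⟨s, hs, h1, -⟩ := edge_K hd hg.1 (x := v₀) (i := 0) (le_refl _) (ck_add_e_le _ _)
  exact ⟨s.image nu, ⟨s, hs, rfl⟩, Finset.mem_image_of_mem _ h1⟩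

end Pool.Agent.MK
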