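import Pool.Agent.MK.Base
import Pool.Agent.MK.Expand

/-! Module MK/StarC. The boundary of the thickening of a 2-dimensional cubical complex is a
combinatorial 4-manifold.

`star_fe`. Let v have even coordinates, X' finite and closed, v ∈ X', at most 2 odd
coordinates for each cell, and suppose every cell of X' is a face of a cell of X' which contains v, i.e. (*) for
q ∈ X' there is q' ∈ X' with |q' k - v k| ≤ 1 for all k and q k = q' k or (q' k odd, |q k - q' k| = 1) for
all k. Then FE ∅ (K {v}) (K X'). Induction on the number of cells of X'. Call the cells q' with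
|q' k - v k| ≤ 1 for all k the near cells. A near cell has the form v + Σ_{i ∈ D} s_i e_i,
D = dirs q', |D| ≤ 2.
 (1) There is a near cell q with |D| = 2, q = v + s e_i + t e_j. Let b₁ = v + 2 s e_i + t e_j,
  c₁ = v + 2 s e_i + 2 t e_j, c₂ = v + s e_i + 2 t e_j, and X'' = X' without q, b₁, c₁, c₂. None of these four
  is a face of another near cell q' ≠ q: a near cell having b₁ (or c₁ or c₂) as a face (or equal
  to it) must have coordinates ≠ v k at k = i and k = j (a coordinate v k ± 2 of a face of q'
  requires q' k = v k ± 1 with the same sign; the coordinate v j + t of b₁ is odd, so it is that of q'), so q' = q since |dirs q'| ≤ 2.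
  Hence X'' is closed and satisfies (*) (the near cells are those of X' other than q; a cell of X'' which was
  a face of q only: the faces of q in X'' are v, v + s e_i, v + t e_j, v + 2 s e_i, v + 2 t e_j, which are
  near or faces of near cells v + s e_i, v + t e_j). X'' ∪ {b₁, c₁} ∪ {q, c₂} = X': two expansions (`expand`,
  S₀ = ∅): (b₁, j, t): the faces of b₁ are v + 2 s e_i ∈ X'' and c₁; then (q, j, t): faces of q:
  q - s e_i = v + t e_j, q + s e_i = b₁, q - t e_j = v + s e_i ∈ X'', and c₂ = q + t e_j.
 (2) All near cells have |D| ≤ 1. If there is one with D = {i}, q = v + s e_i: X'' = X' without q and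
  v + 2 s e_i; `expand` with (q, i, s). Again v + 2 s e_i is a face of no other near cell.
 (3) Only v is near: X' = {v}.
`K_lks`. Let v' = nu u be a vertex of im (K X) with u ∈ G ∈ K X. Let v k = u k if u k is even,
 u k - 1 if u k is odd. If q ≤ u ≤ q + 1 then (A) |v k - q k| ≤ 1 and v k = q k if q k is even: so v is a
 face of q: v ∈ X by `closed_face` if q ∈ X. Let X' = all faces of the cells q' ∈ X with
 |q' k - v k| ≤ 1 for all k; it satisfies the hypotheses of `star_fe`. The simplices of TS X which
 contain u are those of TS X' which contain u: for F ∈ TS X with u ∈ F, min F = q ∈ X, q ≤ u ≤ q + 1, q is a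
 near cell of v. Hence the facets G ∋ u in K X and in K X' are the same (G ∋ u and G ⊆ F' give u ∈ F'), so
 lk (nu u) (im (K X)) = lk (nu u) (im (K X')) and the latter is OK by `fe_lks`, `base_lks`.
-/

namespace Pool.Agent.MK

open Pool.Agent.DT70

/-- `w` is a face of `q`, in a form suitable for `omega`. -/
private def Fc (q w : P) : Prop :=
  ∀ k, w k = q k ∨ (q k % 2 = 1 ∧ (w k = q k + 1 ∨ w k = q k - 1))

private def Nr (v q : P) : Prop := ∀ k, q k = v k ∨ q k = v k + 1 ∨ q k = v k - 1

private theorem fc_iff {q w : P} :
    Fc q w ↔ ∀ k, w k = q k ∨ (Odd (q k) ∧ |w k - q k| = 1) := by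
  unfold Fc
  refine forall_congr' fun k => ?_
  rw [Int.odd_iff, abs_eq (by norm_num : (0 : ℤ) ≤ 1)]
  constructor
  · rintro (h | ⟨h, h' | h'⟩)
    · exact Or.inl h
    · exact Or.inr ⟨h, Or.inl (by omega)⟩
    · exact Or.inr ⟨h, Or.inr (by omega)⟩
  · rintro (h | ⟨h, h' | h'⟩)
    · exact Or.inl h
    · exact Or.inr ⟨h, Or.inl (by omega)⟩
    · exact Or.inr ⟨h, Or.inr (by omega)⟩

private theorem nr_iff {v q : P} : Nr v q ↔ ∀ k, |q k - v k| ≤ 1 := by
  unfold Nr
  refine forall_congr' fun k => ?_
  rw [abs_le]
  omega

private theorem fc_refl (q : P) : Fc q q := fun _ => Or.inl rfl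

private theorem fc_trans {q w z : P} (h : Fc q w) (h' : Fc w z) : Fc q z := by
  intro k
  have h1 := h k
  have h2 := h' k
  omega

private theorem fc_mem {X : Set P} (hX : Closed X) {q w : P} (hq : q ∈ X) (h : Fc q w) :
    w ∈ X := closed_face hX hq (fc_iff.1 h)

private theorem smc (δ : ℤ) (j k : Fin 5) : (δ • e j) k = if k = j then δ else 0 := by
  simp [e]

private theorem fc_step {q : P} {m : Fin 5} {δ : ℤ} (hm : Odd (q m)) (hδ : δ = 1 ∨ δ = -1) :
    Fc q (q + δ • e m) := by
  intro k
  rw [Pi.add_apply, smc]
  rw [Int.odd_iff] at hm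
  by_cases h : k = m
  · subst h
    rw [if_pos rfl]
    right
    refine ⟨hm, ?_⟩
    omega
  · rw [if_neg h]
    left
    omega

private theorem closed_of {X : Set P}
    (h : ∀ q ∈ X, ∀ m, Odd (q m) → ∀ δ : ℤ, (δ = 1 ∨ δ = -1) → q + δ • e m ∈ X) : Closed X := by
  intro q hq m hm
  refine ⟨?_, ?_⟩
  · have := h q hq m hm 1 (Or.inl rfl)
    rwa [one_smul] at this
  · have := h q hq m hm (-1) (Or.inr rfl)
    rwa [neg_smul, one_smul, ← sub_eq_add_neg] at this

private theorem mem_dirs {q : P} {k : Fin 5} : k ∈ dirs q ↔ q k % 2 = 1 := by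
  unfold dirs
  rw [Finset.mem_filter, Int.odd_iff]
  simp

private theorem star_aux {v : P} (hv : ∀ k, v k % 2 = 0) (n : ℕ) : ∀ {X' : Set P}, X'.Finite →
    X'.ncard = n → Closed X' → v ∈ X' → (∀ q ∈ X', (dirs q).card ≤ 2) →
    (∀ q ∈ X', ∃ q' ∈ X', Nr v q' ∧ Fc q' q) → FE ∅ (K {v}) (K X') := by
  induction n using Nat.strong_induction_on with
  | _ n ih =>
  intro X' hf hn hc hvX hd hs
  classical
  by_cases hne : ∃ q ∈ X', Nr v q ∧ (dirs q).Nonempty
  · -- a near cell with the maximal number of directions
    obtain ⟨q, ⟨hq, hqn, hqD⟩, hmax⟩ : ∃ q, (q ∈ X' ∧ Nr v q ∧ (dirs q).Nonempty) ∧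
        ∀ z, (z ∈ X' ∧ Nr v z ∧ (dirs z).Nonempty) → (dirs z).card ≤ (dirs q).card := by
      obtain ⟨q0, h0⟩ := hne
      have hfin : {z | z ∈ X' ∧ Nr v z ∧ (dirs z).Nonempty}.Finite :=
        hf.subset (fun z hz => hz.1)
      obtain ⟨q, hq, hm⟩ := Set.exists_max_image _ (fun z => (dirs z).card) hfin ⟨q0, h0⟩
      exact ⟨q, hq, hm⟩
    set Rm : Set P := {w | Fc q w ∧ ∀ k ∈ dirs q, w k ≠ v k} with hRm
    -- (a)
    have ha : ∀ z ∈ X', Nr v z → ∀ w ∈ Rm, Fc z w → z = q := by
      intro z hz hzn w hw hzw
      have hk : ∀ k ∈ dirs q, z k = q k := by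
        intro k hk
        have h1 := hw.2 k hk
        have h2 := hw.1 k
        have h3 := hzw k
        have h4 := hzn k
        have h5 := hqn k
        have h6 := mem_dirs.1 hk
        have h7 := hv k
        omega
      have hsub : dirs q ⊆ dirs z := by
        intro k hkq
        rw [mem_dirs, hk k hkq]
        exact mem_dirs.1 hkq
      have heq : dirs q = dirs z :=
        Finset.eq_of_subset_of_card_le hsub (hmax z ⟨hz, hzn, hqD.mono hsub⟩)
      funext k
      by_cases hkq : k ∈ dirs q
      · exact hk k hkq
      · have h1 : k ∉ dirs z := heq ▸ hkq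
        rw [mem_dirs] at hkq h1
        have h4 := hzn k
        have h5 := hqn k
        have h7 := hv k
        omega
    have hqR : q ∈ Rm := by
      refine ⟨fc_refl q, fun k hk => ?_⟩
      have h6 := mem_dirs.1 hk
      have h7 := hv k
      omega
    have hRX : Rm ⊆ X' := fun w hw => fc_mem hc hq hw.1
    set X'' : Set P := X' \ Rm with hX''
    have hvR : v ∈ X'' := by
      refine ⟨hvX, ?_⟩
      rintro ⟨-, h⟩
      obtain ⟨k, hk⟩ := hqD
      exact h k hk rfl
    have hc'' : Closed X'' := by
      apply closed_of
      intro w hw m hm δ hδ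
      refine ⟨fc_mem hc hw.1 (fc_step hm hδ), ?_⟩
      intro hw'
      obtain ⟨z, hz, hzn, hzw⟩ := hs w hw.1
      have hzq := ha z hz hzn _ hw' (fc_trans hzw (fc_step hm hδ))
      subst hzq
      obtain ⟨k, hk, hkv⟩ : ∃ k ∈ dirs z, w k = v k := by
        by_contra h
        push Not at h
        exact hw.2 ⟨hzw, h⟩
      have hkm : k ≠ m := by
        rintro rfl
        rw [Int.odd_iff] at hm
        have := hv k
        omega
      have := hw'.2 k hk
      rw [Pi.add_apply, smc, if_neg hkm, add_zero] at this
      exact this hkv
    have hd'' : ∀ q ∈ X'', (dirs q).card ≤ 2 := fun w hw => hd w hw.1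
    have hs'' : ∀ w ∈ X'', ∃ q' ∈ X'', Nr v q' ∧ Fc q' w := by
      intro w hw
      obtain ⟨z, hz, hzn, hzw⟩ := hs w hw.1
      by_cases hzR : z ∈ Rm
      · have hzq := ha z hz hzn z hzR (fc_refl z)
        subst hzq
        obtain ⟨k, hk, hkv⟩ : ∃ k ∈ dirs z, w k = v k := by
          by_contra h
          push Not at h
          exact hw.2 ⟨hzw, h⟩
        have hzk := mem_dirs.1 hk
        have hnk := hzn k
        have hvk := hv k
        refine ⟨Function.update z k (v k), ⟨?_, ?_⟩, ?_, ?_⟩
        · refine fc_mem hc hz ?_
          intro j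
          by_cases hj : j = k
          · subst hj
            rw [Function.update_self]
            right
            refine ⟨hzk, ?_⟩
            omega
          · rw [Function.update_of_ne hj]
            exact Or.inl rfl
        · rintro ⟨-, h⟩
          apply h k hk
          rw [Function.update_self]
        · intro j
          by_cases hj : j = k
          · subst hj
            rw [Function.update_self]
            exact Or.inl rfl
          · rw [Function.update_of_ne hj]
            exact hzn j
        · intro j
          by_cases hj : j = k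
          · subst hj
            rw [Function.update_self]
            exact Or.inl hkv
          · rw [Function.update_of_ne hj]
            exact hzw j
      · exact ⟨z, ⟨hz, hzR⟩, hzn, hzw⟩
    have hcard : X''.ncard < n := by
      rw [← hn]
      apply Set.ncard_lt_ncard _ hf
      refine ⟨Set.sdiff_subset, ?_⟩
      intro h
      exact (h hq).2 hqR
    have hFE := ih _ hcard (hf.subset Set.sdiff_subset) rfl hc'' hvR hd'' hs''
    refine Relation.EqvGen.trans _ _ _ hFE ?_
    -- expansions
    have hcq := hd q hq
    have hqD1 : 1 ≤ (dirs q).card := hqD.card_pos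
    have hcases : (dirs q).card = 1 ∨ (dirs q).card = 2 := by omega
    rcases hcases with h1 | h2
    · obtain ⟨i, hi⟩ := Finset.card_eq_one.1 h1
      have hiD : i ∈ dirs q := by rw [hi]; exact Finset.mem_singleton_self i
      have hqi := mem_dirs.1 hiD
      have hni := hqn i
      have hvi := hv i
      obtain ⟨s, hs1, hsq⟩ : ∃ s : ℤ, (s = 1 ∨ s = -1) ∧ q i = v i + s :=
        ⟨q i - v i, by omega, by omega⟩
      have hother : ∀ k, k ≠ i → q k = v k := by
        intro k hk
        have hkD : k ∉ dirs q := by
          rw [hi, Finset.mem_singleton]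
          exact hk
        rw [mem_dirs] at hkD
        have h4 := hqn k
        have h7 := hv k
        omega
      have hRm2 : Rm = {q, q + s • e i} := by
        ext w
        constructor
        · rintro ⟨hw1, hw2⟩
          have h3 := hw1 i
          have h4 := hw2 i hiD
          have hw : w i = q i ∨ w i = q i + s := by omega
          have hwo : ∀ k, k ≠ i → w k = q k := by
            intro k hk
            have h5 := hw1 k
            have h6 := hother k hk
            have h7 := hv k
            omega
          rcases hw with hw | hw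
          · left
            funext k
            by_cases hk : k = i
            · rw [hk]; exact hw
            · exact hwo k hk
          · right
            rw [Set.mem_singleton_iff]
            funext k
            rw [Pi.add_apply, smc]
            by_cases hk : k = i
            · rw [if_pos hk, hk]; exact hw
            · rw [if_neg hk, add_zero]; exact hwo k hk
        · rintro (rfl | hw)
          · exact hqR
          · rw [Set.mem_singleton_iff] at hw
            subst hw
            refine ⟨fc_step (Int.odd_iff.2 hqi) hs1, ?_⟩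
            intro k hk
            rw [hi, Finset.mem_singleton] at hk
            subst hk
            rw [Pi.add_apply, smc, if_pos rfl]
            omega
      have hX : X' = X'' ∪ {q, q + s • e i} := by
        rw [← hRm2, hX'', Set.sdiff_union_of_subset hRX]
      suffices hE : FE ∅ (K X'') (K (X'' ∪ {q, q + s • e i})) by
        rw [← hX] at hE
        exact hE
      refine expand hc'' hs1 (Int.odd_iff.2 hqi) ?_ ?_ (Set.empty_subset _) (Set.empty_subset _)
      · intro h
        apply h.2
        rw [hRm2]
        exact Or.inr rfl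
      · intro j hj δ hδ hor
        have hjD : j ∈ dirs q := mem_dirs.2 (Int.odd_iff.1 hj)
        rw [hi, Finset.mem_singleton] at hjD
        subst hjD
        have hδs : δ = -s := by
          rcases hor with h | h
          · exact absurd rfl h
          · omega
        refine ⟨fc_mem hc hq (fc_step hj hδ), ?_⟩
        rintro ⟨-, h⟩
        apply h j hiD
        rw [Pi.add_apply, smc, if_pos rfl]
        omega
    · obtain ⟨i, j, hij, hijD⟩ := Finset.card_eq_two.1 h2
      have hiD : i ∈ dirs q := by rw [hijD]; simp
      have hjD : j ∈ dirs q := by rw [hijD]; simp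
      have hqi := mem_dirs.1 hiD
      have hni := hqn i
      have hvi := hv i
      have hqj := mem_dirs.1 hjD
      have hnj := hqn j
      have hvj := hv j
      obtain ⟨s, hs1, hsq⟩ : ∃ s : ℤ, (s = 1 ∨ s = -1) ∧ q i = v i + s :=
        ⟨q i - v i, by omega, by omega⟩
      obtain ⟨t, ht1, htq⟩ : ∃ t : ℤ, (t = 1 ∨ t = -1) ∧ q j = v j + t :=
        ⟨q j - v j, by omega, by omega⟩
      have hother : ∀ k, k ≠ i → k ≠ j → q k = v k := by
        intro k hk hk'
        have hkD : k ∉ dirs q := by
          rw [hijD, Finset.mem_insert, Finset.mem_singleton]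
          push Not
          exact ⟨hk, hk'⟩
        rw [mem_dirs] at hkD
        have h4 := hqn k
        have h7 := hv k
        omega
      have hji : j ≠ i := hij.symm
      have hoi : Odd (q i) := Int.odd_iff.2 hqi
      have hoj : Odd (q j) := Int.odd_iff.2 hqj
      set b₁ : P := q + s • e i with hb₁
      have hb1i : b₁ i = v i + 2 * s := by
        rw [hb₁, Pi.add_apply, smc, if_pos rfl]; omega
      have hb1k : ∀ k, k ≠ i → b₁ k = q k := by
        intro k hk
        rw [hb₁, Pi.add_apply, smc, if_neg hk, add_zero]
      have hRm4 : Rm = {b₁, b₁ + t • e j} ∪ {q, q + t • e j} := by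
        ext w
        constructor
        · rintro ⟨hw1, hw2⟩
          have h3 := hw1 i
          have h4 := hw2 i hiD
          have h5 := hw1 j
          have h6 := hw2 j hjD
          have hwi : w i = q i ∨ w i = q i + s := by omega
          have hwj : w j = q j ∨ w j = q j + t := by omega
          have hwo : ∀ k, k ≠ i → k ≠ j → w k = q k := by
            intro k hk hk'
            have h5 := hw1 k
            have h6 := hother k hk hk'
            have h7 := hv k
            omega
          have hbi : b₁ i = q i + s := by omega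
          have hbj : b₁ j = q j := hb1k j hji
          rcases hwi with hwi | hwi <;> rcases hwj with hwj | hwj
          · right; left
            funext k
            by_cases hk : k = i
            · rw [hk]; exact hwi
            · by_cases hk' : k = j
              · rw [hk']; exact hwj
              · exact hwo k hk hk'
          · right; right
            rw [Set.mem_singleton_iff]
            funext k
            rw [Pi.add_apply, smc]
            by_cases hk : k = i
            · rw [hk, if_neg hij, add_zero]; exact hwi
            · by_cases hk' : k = j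
              · rw [hk', if_pos rfl]; exact hwj
              · rw [if_neg hk', add_zero]; exact hwo k hk hk'
          · left; left
            funext k
            by_cases hk : k = i
            · rw [hk, hbi]; exact hwi
            · rw [hb1k k hk]
              by_cases hk' : k = j
              · rw [hk']; exact hwj
              · exact hwo k hk hk'
          · left; right
            rw [Set.mem_singleton_iff]
            funext k
            rw [Pi.add_apply, smc]
            by_cases hk : k = i
            · rw [hk, if_neg hij, add_zero, hbi]; exact hwi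
            · rw [hb1k k hk]
              by_cases hk' : k = j
              · rw [hk', if_pos rfl]; exact hwj
              · rw [if_neg hk', add_zero]; exact hwo k hk hk'
        · have hb1R : Fc q b₁ := fc_step hoi hs1
          have hob : Odd (b₁ j) := by rw [hb1k j hji]; exact hoj
          rintro ((rfl | hw) | (rfl | hw))
          · refine ⟨hb1R, ?_⟩
            intro k hk
            rw [hijD, Finset.mem_insert, Finset.mem_singleton] at hk
            rcases hk with rfl | rfl
            · omega
            · rw [hb1k k hji]; omega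
          · rw [Set.mem_singleton_iff] at hw
            subst hw
            refine ⟨fc_trans hb1R (fc_step hob ht1), ?_⟩
            intro k hk
            rw [hijD, Finset.mem_insert, Finset.mem_singleton] at hk
            rw [Pi.add_apply, smc]
            rcases hk with rfl | rfl
            · rw [if_neg hij]; omega
            · rw [if_pos rfl, hb1k k hji]; omega
          · exact hqR
          · rw [Set.mem_singleton_iff] at hw
            subst hw
            refine ⟨fc_step hoj ht1, ?_⟩
            intro k hk
            rw [hijD, Finset.mem_insert, Finset.mem_singleton] at hk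
            rw [Pi.add_apply, smc]
            rcases hk with rfl | rfl
            · rw [if_neg hij]; omega
            · rw [if_pos rfl]; omega
      have hX : X' = (X'' ∪ {b₁, b₁ + t • e j}) ∪ {q, q + t • e j} := by
        rw [Set.union_assoc, ← hRm4, hX'', Set.sdiff_union_of_subset hRX]
      have hob : Odd (b₁ j) := by rw [hb1k j hji]; exact hoj
      -- the faces of `b₁`
      have hfb : ∀ m, Odd (b₁ m) → ∀ δ : ℤ, (δ = 1 ∨ δ = -1) → (m ≠ j ∨ δ ≠ t) →
          b₁ + δ • e m ∈ X'' := by
        intro m hm δ hδ hor
        have hmj : m = j := by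
          by_contra hmj
          by_cases hmi : m = i
          · subst hmi
            rw [Int.odd_iff] at hm
            omega
          · rw [hb1k m hmi, hother m hmi hmj, Int.odd_iff] at hm
            have := hv m
            omega
        subst hmj
        have hδs : δ = -t := by
          rcases hor with h | h
          · exact absurd rfl h
          · omega
        have hb1R : Fc q b₁ := fc_step hoi hs1
        refine ⟨fc_mem hc hq (fc_trans hb1R (fc_step hm hδ)), ?_⟩
        rintro ⟨-, h⟩
        apply h m hjD
        rw [Pi.add_apply, smc, if_pos rfl, hb1k m hji]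
        omega
      have hcb : b₁ + t • e j ∉ X'' := by
        intro h
        apply h.2
        rw [hRm4]
        exact Or.inl (Or.inr rfl)
      have hc3 : Closed (X'' ∪ {b₁, b₁ + t • e j}) := expand_closed hc'' ht1 hob hfb
      have hE1 : FE ∅ (K X'') (K (X'' ∪ {b₁, b₁ + t • e j})) :=
        expand hc'' ht1 hob hcb hfb (Set.empty_subset _) (Set.empty_subset _)
      refine Relation.EqvGen.trans _ _ _ hE1 ?_
      suffices hE : FE ∅ (K (X'' ∪ {b₁, b₁ + t • e j}))
          (K ((X'' ∪ {b₁, b₁ + t • e j}) ∪ {q, q + t • e j})) by
        rw [← hX] at hE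
        exact hE
      refine expand hc3 ht1 hoj ?_ ?_ (Set.empty_subset _) (Set.empty_subset _)
      · rintro (h | h | h)
        · apply h.2
          rw [hRm4]
          exact Or.inr (Or.inr rfl)
        · have := congrFun h i
          rw [Pi.add_apply, smc, if_neg hij, hb1i] at this
          omega
        · rw [Set.mem_singleton_iff] at h
          have := congrFun h i
          rw [Pi.add_apply, Pi.add_apply, smc, if_neg hij, hb1i] at this
          omega
      · intro m hm δ hδ hor
        have hmD : m ∈ dirs q := mem_dirs.2 (Int.odd_iff.1 hm)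
        rw [hijD, Finset.mem_insert, Finset.mem_singleton] at hmD
        have hstep := fc_mem hc hq (fc_step hm hδ)
        rcases hmD with rfl | rfl
        · by_cases hδs : δ = s
          · right; left
            rw [hδs]
          · left
            refine ⟨hstep, ?_⟩
            rintro ⟨-, h⟩
            apply h m hiD
            rw [Pi.add_apply, smc, if_pos rfl]
            omega
        · left
          have hδs : δ = -t := by
            rcases hor with h | h
            · exact absurd rfl h
            · omega
          refine ⟨hstep, ?_⟩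
          rintro ⟨-, h⟩
          apply h m hjD
          rw [Pi.add_apply, smc, if_pos rfl]
          omega
  · -- only `v` is near
    have hnv : ∀ z ∈ X', Nr v z → z = v := by
      intro z hz hzn
      funext k
      by_contra hk
      apply hne
      refine ⟨z, hz, hzn, k, ?_⟩
      rw [mem_dirs]
      have h4 := hzn k
      have h7 := hv k
      omega
    have hX : X' = {v} := by
      ext w
      rw [Set.mem_singleton_iff]
      constructor
      · intro hw
        obtain ⟨z, hz, hzn, hzw⟩ := hs w hw
        have := hnv z hz hzn
        subst this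
        funext k
        have h4 := hzw k
        have h7 := hv k
        omega
      · rintro rfl
        exact hvX
    rw [hX]
    exact Relation.EqvGen.refl _

theorem star_fe {v : P} (hv : ∀ k, Even (v k)) {X' : Set P} (hf : X'.Finite) (hc : Closed X')
    (hvX : v ∈ X') (hd : ∀ q ∈ X', (dirs q).card ≤ 2)
    (hs : ∀ q ∈ X', ∃ q' ∈ X', (∀ k, |q' k - v k| ≤ 1) ∧
      ∀ k, q k = q' k ∨ (Odd (q' k) ∧ |q k - q' k| = 1)) :
    FE ∅ (K {v}) (K X') := by
  refine star_aux (fun k => Int.even_iff.1 (hv k)) _ hf rfl hc hvX hd ?_
  intro q hq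
  obtain ⟨q', hq', h1, h2⟩ := hs q hq
  exact ⟨q', hq', nr_iff.2 h1, fc_iff.2 h2⟩

theorem K_lks {X : Set P} (hf : X.Finite) (hc : Closed X) (hd : ∀ q ∈ X, (dirs q).card ≤ 2) :
    Lks false (im (K X)) := by
  rintro v' ⟨s, ⟨G, hG, rfl⟩, hv'⟩
  obtain ⟨u, huG, rfl⟩ := Finset.mem_image.1 hv'
  -- the vertex `v`
  set v : P := fun k => 2 * (u k / 2) with hvdef
  have hvk : ∀ k, v k = 2 * (u k / 2) := fun k => rfl
  have hev : ∀ k, Even (v k) := fun k => by rw [hvk]; exact even_two_mul _
  have hA : ∀ q : P, q ≤ u → u ≤ q + 1 → Nr v q ∧ Fc q v := by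
    intro q h1 h2
    refine ⟨fun k => ?_, fun k => ?_⟩
    · have h3 : q k ≤ u k := h1 k
      have h4 : u k ≤ q k + 1 := h2 k
      have h5 := hvk k
      omega
    · have h3 : q k ≤ u k := h1 k
      have h4 : u k ≤ q k + 1 := h2 k
      have h5 := hvk k
      omega
  set X' : Set P := {w | ∃ q' ∈ X, Nr v q' ∧ Fc q' w} with hX'
  have hsub : X' ⊆ X := by
    rintro w ⟨q', hq', -, h⟩
    exact fc_mem hc hq' h
  have hTS : ∀ F : Finset P, u ∈ F → (F ∈ TS X ↔ F ∈ TS X') := by
    intro F huF
    constructor
    · rintro ⟨hF, q, hq, hqF, hm⟩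
      refine ⟨hF, q, ?_, hqF, hm⟩
      have h2 : u ≤ q + 1 := by
        obtain ⟨π, rfl⟩ := exists_sig hF hqF hm
        exact (sig_max q π).2 u huF
      exact ⟨q, hq, (hA q (hm u huF) h2).1, fc_refl q⟩
    · intro h
      exact TS_mono hsub h
  have hK : ∀ G : Finset P, u ∈ G → (G ∈ K X ↔ G ∈ K X') := by
    intro G huG
    constructor
    · rintro ⟨F, hF, ⟨x, hx, rfl⟩, h⟩
      have huF : u ∈ F := Finset.mem_of_mem_erase huG
      refine ⟨F, (hTS F huF).1 hF, ⟨x, hx, rfl⟩, ?_⟩
      intro F' hF' hsub'
      exact h F' (TS_mono hsub hF') hsub'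
    · rintro ⟨F, hF, ⟨x, hx, rfl⟩, h⟩
      refine ⟨F, TS_mono hsub hF, ⟨x, hx, rfl⟩, ?_⟩
      intro F' hF' hsub'
      exact h F' ((hTS F' (hsub' huG)).1 hF') hsub'
  have hlk : lk (nu u) (im (K X)) = lk (nu u) (im (K X')) := by
    have hm : ∀ G : Finset P, nu u ∈ G.image nu → u ∈ G := by
      intro G h
      obtain ⟨x, hx, hxu⟩ := Finset.mem_image.1 h
      rw [← nu_injective hxu]
      exact hx
    ext t
    constructor
    · rintro ⟨s, ⟨G, hG, rfl⟩, hu, rfl⟩
      exact ⟨_, ⟨G, (hK G (hm G hu)).1 hG, rfl⟩, hu, rfl⟩
    · rintro ⟨s, ⟨G, hG, rfl⟩, hu, rfl⟩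
      exact ⟨_, ⟨G, (hK G (hm G hu)).2 hG, rfl⟩, hu, rfl⟩
  have hvX : v ∈ X' := by
    obtain ⟨F, hF, ⟨x, hx, rfl⟩, -⟩ := hG
    have huF : u ∈ F := Finset.mem_of_mem_erase huG
    obtain ⟨hF, q, hq, hqF, hm⟩ := hF
    have h2 : u ≤ q + 1 := by
      obtain ⟨π, rfl⟩ := exists_sig hF hqF hm
      exact (sig_max q π).2 u huF
    have := hA q (hm u huF) h2
    exact ⟨q, hq, this.1, this.2⟩
  have hFE : FE ∅ (K {v}) (K X') := by
    refine star_aux (fun k => Int.even_iff.1 (hev k)) _ (hf.subset hsub) rfl ?_ hvX
      (fun q hq => hd q (hsub hq)) ?_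
    · apply closed_of
      rintro w ⟨q', hq', hn, hw⟩ m hm δ hδ
      exact ⟨q', hq', hn, fc_trans hw (fc_step hm hδ)⟩
    · rintro w ⟨q', hq', hn, hw⟩
      exact ⟨q', ⟨q', hq', hn, fc_refl q'⟩, hn, hw⟩
  rw [hlk]
  exact (fe_lks hFE).1 (base_lks v) (nu u) ⟨_, ⟨G, (hK G huG).1 hG, rfl⟩, hv'⟩

end Pool.Agent.MK
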