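import Pool.Agent.MK.CodeFs
import Pool.Agent.MK.StarC
import Pool.Agent.MK.ConnK

/-! Module MK/CodeM. The code is a marked manifold; flip equivalence gives `Rel PLOn`.

`transfer`: fs (code L (pos c q₀)) = {t | ∃ s ∈ im (K X), t = s.image σ} with σ = nm c ∘ (inverse of nu);
 with τ = nu ∘ (inverse of nm c on the vertices of K X, `nm_inj`): τ (σ v) = v for the vertices v of
 im (K X). (Use Function.invFun or choice.)
`code_marked`: Mfd: `code_facets`, and the links by `lk_iff` and `lks_image` applied to `K_lks`;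
 connected: `relabel` is a homeomorphism of Rz (im (K X)) and real (code ..) (`real_eq`), `conn_K`
 (image of a connected set under a continuous map; see `conn_map` or `conn_transfer` in DT70);
 marked facet: `code_tail`.
`code_rel`: take f, g from `fe_iso`; compose: relabel⁻¹ for X, f, relabel for X' (`Iso.of_pl`, `Iso.trans`,
 `cls_pl`). On the marked facet: hd = first (pos c q₀) = list of the nm c (vtx q₀ 1 k) (`first_eq`);
 F₀ q₀ ∈ S₀ = {F₀ q₀}, f is the identity on sx ((F₀ q₀).image nu). So the composition maps a point with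
 coordinate t_k at nm c (vtx q₀ 1 k) to the point with coordinate t_k at nm c' (vtx q₀ 1 k) (k < 5), which is
 `facetMap`. See `rel_map` in DT70/Sum.lean for the same computation.
`code_sc`: the realizations are homeomorphic (`Iso.homeo`, `relabel`); simple connectedness is
 invariant under homeomorphisms (`SimplyConnectedSpace` : `simply_connected_iff_unique_homotopic`,
 or Homeomorph.toHomotopyEquiv; see DT70/SC.lean).
`rel_sc`: `Rel PLOn` gives a homeomorphism (`Iso.homeo`, `Iso.of_pl cls_cont`).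
-/

namespace Pool.Agent.MK

open Pool.Agent.DT70

theorem transfer {X : Set P} {c : P} {L : List (List ℕ)} (h : Rep X c L) {q₀ : P}
    (hq : Marks X q₀) : ∃ σ τ : ℕ → ℕ, (∀ s ∈ im (K X), ∀ v ∈ s, τ (σ v) = v) ∧
      (∀ s ∈ K X, ∀ x ∈ s, σ (nu x) = nm c x) ∧
      fs (code L (pos c q₀)) = {t | ∃ s ∈ im (K X), t = s.image σ} := by
  classical
  have hinv : ∀ x : P, Function.invFun nu (nu x) = x :=
    Function.leftInverse_invFun nu_injective
  refine ⟨fun n => nm c (Function.invFun nu n),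
    fun m => if hm : ∃ x : P, (∃ s ∈ K X, x ∈ s) ∧ nm c x = m then nu hm.choose else 0,
    ?_, ?_, ?_⟩
  · rintro s ⟨s₀, hs₀, rfl⟩ v hv
    obtain ⟨x, hx, rfl⟩ := Finset.mem_image.1 hv
    have hm : ∃ y : P, (∃ s ∈ K X, y ∈ s) ∧ nm c y = nm c x := ⟨x, ⟨s₀, hs₀, hx⟩, rfl⟩
    show (if hm : ∃ y : P, (∃ s ∈ K X, y ∈ s) ∧ nm c y = nm c (Function.invFun nu (nu x))
      then nu hm.choose else 0) = nu x
    rw [hinv x, dif_pos hm]
    congr 1
    exact nm_inj h hm.choose_spec.1 ⟨s₀, hs₀, hx⟩ hm.choose_spec.2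
  · intro s _ x _
    show nm c (Function.invFun nu (nu x)) = nm c x
    rw [hinv x]
  · rw [fs_code h hq]
    have himg : ∀ s : Finset P, (s.image nu).image (fun n => nm c (Function.invFun nu n)) =
        s.image (nm c) := by
      intro s
      rw [Finset.image_image]
      apply Finset.image_congr
      intro x _
      show nm c (Function.invFun nu (nu x)) = nm c x
      rw [hinv x]
    ext t
    constructor
    · rintro ⟨s, hs, rfl⟩
      exact ⟨s.image nu, ⟨s, hs, rfl⟩, (himg s).symm⟩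
    · rintro ⟨s, ⟨s₀, hs₀, rfl⟩, rfl⟩
      exact ⟨s₀, hs₀, himg s₀⟩

theorem code_marked {X : Set P} (hf : X.Finite) (hc : Closed X)
    (hd : ∀ q ∈ X, (dirs q).card ≤ 2) {v₀ : P} (hg : GConn X v₀) {c : P} {L : List (List ℕ)}
    (h : Rep X c L) {q₀ : P} (hq : Marks X q₀) : Marked false (code L (pos c q₀)) := by
  obtain ⟨σ, τ, h1, _, h3⟩ := transfer h hq
  have h4 := relabel (im (K X)) σ τ h1
  refine ⟨⟨List.cons_ne_nil _ _, code_facets h hq, ?_⟩, ?_, code_tail h hq⟩
  · intro v hv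
    rw [lk_iff, h3]
    apply lks_image (im (K X)) σ τ h1 (K_lks hf hc hd)
    rw [← h3]
    obtain ⟨F, hF, hvF⟩ := hv
    exact ⟨F.toFinset, ⟨F, hF, rfl⟩, List.mem_toFinset.2 hvF⟩
  · rw [real_eq, h3]
    have h5 := (conn_K hc hd hg).image (push (verts (im (K X))) σ τ) (plOn_cont h4.2.2.1)
    have h6 : push (verts (im (K X))) σ τ '' Rz (im (K X)) =
        Rz {t | ∃ s ∈ im (K X), t = s.image σ} := by
      apply Set.Subset.antisymm
      · rintro _ ⟨x, hx, rfl⟩
        exact (h4.1 x hx).1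
      · intro y hy
        exact ⟨_, (h4.2.1 y hy).1, (h4.2.1 y hy).2⟩
    rw [h6] at h5
    exact h5

theorem code_rel {X X' : Set P} {c c' : P} {L L' : List (List ℕ)} (h : Rep X c L)
    (h' : Rep X' c' L') {q₀ : P} (hq : Marks X q₀) (hq' : Marks X' q₀)
    (hfe : FE {F₀ q₀} (K X) (K X')) :
    Rel PLOn (code L (pos c q₀)) (code L' (pos c' q₀)) := by
  obtain ⟨σ, τ, h1, h2, h3⟩ := transfer h hq
  obtain ⟨σ', τ', h1', h2', h3'⟩ := transfer h' hq'
  obtain ⟨f, g, hfg, hfx⟩ := fe_iso hfe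
  have i1 := (relabel (im (K X)) σ τ h1).symm
  have i2 := relabel (im (K X')) σ' τ' h1'
  have i3 := (i1.trans cls_pl hfg).trans cls_pl i2
  rw [← h3, ← h3', ← real_eq, ← real_eq] at i3
  refine ⟨_, _, i3, ?_⟩
  intro x hx
  have hd1 : hd (code L (pos c q₀)) = first (pos c q₀) := rfl
  have hd2 : hd (code L' (pos c' q₀)) = first (pos c' q₀) := rfl
  have hF := F0_mem hq
  have hF' := F0_mem hq'
  have hG : (F₀ q₀).image nu ∈ im (K X) := ⟨F₀ q₀, hF, rfl⟩
  have hG' : (F₀ q₀).image nu ∈ im (K X') := ⟨F₀ q₀, hF', rfl⟩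
  rw [hd1] at hx ⊢
  rw [hd2]
  have hn' : (first (pos c' q₀)).Nodup := (code_facets h' hq' _ List.mem_cons_self).1
  rw [(first_eq h hq).2] at hx ⊢
  rw [(first_eq h' hq').2] at hn' ⊢
  have hvk : ∀ k < 5, vtx q₀ 1 k ∈ F₀ q₀ := fun k hk =>
    Finset.mem_image_of_mem _ (Finset.mem_range.2 hk)
  have hset : ((List.range 5).map (fun k => nm c (vtx q₀ 1 k))).toFinset =
      ((F₀ q₀).image nu).image σ := by
    ext w
    simp only [List.mem_toFinset, List.mem_map, List.mem_range, Finset.mem_image, F₀,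
      Finset.mem_range]
    constructor
    · rintro ⟨k, hk, rfl⟩
      exact ⟨nu (vtx q₀ 1 k), ⟨vtx q₀ 1 k, ⟨k, hk, rfl⟩, rfl⟩, h2 _ hF _ (hvk k hk)⟩
    · rintro ⟨_, ⟨_, ⟨k, hk, rfl⟩, rfl⟩, rfl⟩
      exact ⟨k, hk, (h2 _ hF _ (hvk k hk)).symm⟩
  rw [simplex_eq, hset] at hx
  have hV : ∀ v ∈ verts (im (K X)), τ (σ v) = v := by
    rintro v ⟨s, hs, hv⟩
    exact h1 s hs v hv
  have hGV : ∀ v ∈ (F₀ q₀).image nu, v ∈ verts (im (K X)) := fun v hv => ⟨_, hG, hv⟩
  set y := pull (verts (im (K X))) σ x with hy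
  have hyx : ∀ v ∈ verts (im (K X)), y v = x (σ v) := by
    intro v hv
    rw [hy]
    unfold pull
    rw [if_pos hv]
  have hy1 : y ∈ sx ((F₀ q₀).image nu) := by
    obtain ⟨hx1, hx2, hx3⟩ := hx
    refine ⟨?_, ?_, ?_⟩
    · intro v
      rw [hy]
      unfold pull
      split_ifs
      · exact hx1 _
      · exact le_rfl
    · intro v hv
      rw [hy]
      unfold pull
      split_ifs with hc
      · apply hx2
        intro h4
        obtain ⟨u, hu, hu2⟩ := Finset.mem_image.1 h4
        apply hv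
        have h5 := hV v hc
        rw [← hu2, hV u (hGV u hu)] at h5
        rw [← h5]
        exact hu
      · rfl
    · rw [Finset.sum_image (injOn_of_left h1 hG)] at hx3
      rw [← hx3]
      exact Finset.sum_congr rfl (fun v hv => hyx v (hGV v hv))
  show push (verts (im (K X'))) σ' τ' (f y) = _
  rw [hfx (F₀ q₀) rfl y hy1]
  funext w
  by_cases hw : w ∈ (List.range 5).map (fun k => nm c' (vtx q₀ 1 k))
  · obtain ⟨k, hk, hkw⟩ := List.mem_map.1 hw
    rw [List.mem_range] at hk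
    have hw' : w = σ' (nu (vtx q₀ 1 k)) := by
      rw [h2' _ hF' _ (hvk k hk)]
      exact hkw.symm
    have hm : nu (vtx q₀ 1 k) ∈ (F₀ q₀).image nu := Finset.mem_image_of_mem _ (hvk k hk)
    have ht : τ' w = nu (vtx q₀ 1 k) := by
      rw [hw']
      exact h1' _ hG' _ hm
    have hl : k < ((List.range 5).map (fun k => nm c' (vtx q₀ 1 k))).length := by
      simpa using hk
    have hwk : ((List.range 5).map (fun k => nm c' (vtx q₀ 1 k)))[k] = w := by
      rw [← hkw]
      simp
    have e1 := facetMap_get (a := (List.range 5).map (fun k => nm c (vtx q₀ 1 k))) hn' x hl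
    rw [hwk] at e1
    rw [e1]
    unfold push
    rw [ht, if_pos ⟨⟨_, hG', hm⟩, hw'.symm⟩, hyx _ (hGV _ hm), h2 _ hF _ (hvk k hk)]
    congr 1
    rw [List.getD_eq_getElem _ _ (by simpa using hk)]
    simp
  · rw [facetMap_not _ hw]
    unfold push
    split_ifs with hc
    · apply hy1.2.1
      intro hm
      apply hw
      obtain ⟨z, hz, hz2⟩ := Finset.mem_image.1 hm
      obtain ⟨k, hk, rfl⟩ := Finset.mem_image.1 hz
      rw [Finset.mem_range] at hk
      rw [List.mem_map]
      refine ⟨k, List.mem_range.2 hk, ?_⟩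
      rw [← h2' _ hF' _ (hvk k hk), hz2]
      exact hc.2
    · rfl

theorem code_sc {X : Set P} {c : P} {L : List (List ℕ)} (h : Rep X c L) {q₀ : P}
    (hq : Marks X q₀) : SimplyConnectedSpace (real (code L (pos c q₀))) ↔
      SimplyConnectedSpace (Rz (im (K X))) := by
  obtain ⟨σ, τ, h1, _, h3⟩ := transfer h hq
  obtain ⟨e⟩ := (Iso.of_pl cls_cont (relabel (im (K X)) σ τ h1)).homeo
  rw [real_eq, h3]
  exact ⟨fun _ => e.toHomotopyEquiv.simplyConnectedSpace,
    fun _ => e.symm.toHomotopyEquiv.simplyConnectedSpace⟩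

end Pool.Agent.MK
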