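import Pool.Agent.MK.ConnK
import Pool.Agent.DT70.Univ

/-! Module MK/CobSC. If the boundary of the thickening is simply connected then all flat
labellings of the complex are coboundaries.

(1) Let Λ be flat on X. Claim: there is h : P → P → Γ with h v w * h w x = h v x whenever v, w, x are
 vertices of a common cell q ∈ X (i.e. for y ∈ {v, w, x} and all k: y k = q k or (q k odd,
 |y k - q k| = 1)), and h (m - e i) (m + e i) = Λ m for every m ∈ X with dirs m = {i}.
 Definition: h v w = product over k = 0, .., 4 of the steps from x_k to x_{k+1}, where x_k has the coordinates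
 of w below k and of v from k on; the step is 1 if v k = w k, Λ (x_k + e k) if v k < w k,
 (Λ (x_k - e k))⁻¹ if w k < v k. (Here v, w are even points with |v k - w k| ∈ {0, 2}.) For a cell with
 dirs q = ∅ or {i} the identity is clear. For dirs q = {i, j}, i < j, put a₀ = Λ (q - e j),
 a₁ = Λ (q + e j), b₀ = Λ (q - e i), b₁ = Λ (q + e i), ψ(00) = 1, ψ(10) = a₀, ψ(01) = b₀,
 ψ(11) = a₀ b₁ = b₀ a₁ (flatness; the two digits are the positions in the directions i, j); then
 h v w = (ψ v)⁻¹ ψ w for the 16 pairs: e.g. h (10) (01) = a₀⁻¹ b₀, h (01) (10) = a₁ b₁⁻¹ = b₀⁻¹ a₀,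
 h (11) (00) = a₁⁻¹ b₀⁻¹ = (b₀ a₁)⁻¹.
 (Any other construction of h is welcome, e.g. choose for every cell a potential ψ_q and check that
 (ψ_q v)⁻¹ ψ_q w does not depend on the cell q containing v and w.)
(2) Let c a b = h (ev x) (ev y) if a = nu x, b = nu y (use `Encodable.decode`, or Function.invFun nu).
 `Coc (im (K X)) c`: a face of K X is in the cube of some q ∈ X (`K_subset`), and the ev x are vertices of
 q (`ev_face`).
(3) im (K X) is finite, connected (`conn_K`), nu v₀ is a vertex (`v0_vert`). `exists_univ` gives L with Univ; the group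
 FundamentalGroup is trivial (simply connected), so by `univ` there is a with
 1 = (a u)⁻¹ * c u w * a w for u, w in a common face: c u w = a u (a w)⁻¹. Put φ v = (a (nu v))⁻¹.
 For an edge cell q, dirs q = {i}: {q - e i, q} is an edge of K X (`edge_K` for the cube
 q - e i ∈ X), ev q = q - e i, c = h (q - e i) (q - e i) = 1 (h v v = 1 from the identity), so φ (q - e i) = φ q;
 {q, q + e i} is an edge of K X (cube q), c = h (q - e i) (q + e i) = Λ q. Hence
 Λ q = a (nu q) (a (nu (q + e i)))⁻¹ = (φ (q - e i))⁻¹ φ (q + e i).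
-/

namespace Pool.Agent.MK

open Pool.Agent.DT70

/-- One step of the coordinate path. -/
private def stp27 {Γ : Type} [Group Γ] (Λ : P → Γ) (k : Fin 5) (v w : P) : Γ :=
  if v k = w k then 1
  else if v k < w k then
    Λ (fun l => if l < k then w l else if l = k then (v k + w k) / 2 else v l)
  else (Λ (fun l => if l < k then w l else if l = k then (v k + w k) / 2 else v l))⁻¹

/-- The label product along the coordinate path. -/
private def hh27 {Γ : Type} [Group Γ] (Λ : P → Γ) (v w : P) : Γ :=
  stp27 Λ 0 v w * stp27 Λ 1 v w * stp27 Λ 2 v w * stp27 Λ 3 v w * stp27 Λ 4 v w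

/-- `v` is a vertex of the cell `q`. -/
private def Vx27 (q v : P) : Prop := ∀ k, Even (v k) ∧ (v k = q k ∨ |v k - q k| = 1)

private theorem mem_dirs27 {q : P} {k : Fin 5} : k ∈ dirs q ↔ Odd (q k) := by
  simp [dirs]

private theorem vx_even27 {q v : P} (h : Vx27 q v) {k : Fin 5} (hk : ¬ Odd (q k)) :
    v k = q k := by
  rcases (h k).2 with h1 | h1
  · exact h1
  · exfalso
    rw [Int.not_odd_iff_even] at hk
    obtain ⟨a, ha⟩ := hk
    obtain ⟨b, hb⟩ := (h k).1
    rcases abs_eq (by norm_num : (0 : ℤ) ≤ 1) |>.1 h1 with h2 | h2 <;> omega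

private theorem vx_odd27 {q v : P} (h : Vx27 q v) {k : Fin 5} (hk : Odd (q k)) :
    v k = q k - 1 ∨ v k = q k + 1 := by
  rcases (h k).2 with h1 | h1
  · exfalso
    obtain ⟨a, ha⟩ := hk
    obtain ⟨b, hb⟩ := (h k).1
    omega
  · rcases abs_eq (by norm_num : (0 : ℤ) ≤ 1) |>.1 h1 with h2 | h2 <;> omega

private theorem stp_one27 {Γ : Type} [Group Γ] (Λ : P → Γ) {k : Fin 5} {v w : P}
    (h : v k = w k) : stp27 Λ k v w = 1 := if_pos h

private theorem hh_one27 {Γ : Type} [Group Γ] (Λ : P → Γ) {v w : P} (i : Fin 5)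
    (h : ∀ k, k ≠ i → v k = w k) : hh27 Λ v w = stp27 Λ i v w := by
  have hs : ∀ k, k ≠ i → stp27 Λ k v w = 1 := fun k hk => stp_one27 Λ (h k hk)
  unfold hh27
  fin_cases i
  · rw [hs 1 (by decide), hs 2 (by decide), hs 3 (by decide), hs 4 (by decide)]
    simp
  · rw [hs 0 (by decide), hs 2 (by decide), hs 3 (by decide), hs 4 (by decide)]
    simp
  · rw [hs 0 (by decide), hs 1 (by decide), hs 3 (by decide), hs 4 (by decide)]
    simp
  · rw [hs 0 (by decide), hs 1 (by decide), hs 2 (by decide), hs 4 (by decide)]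
    simp
  · rw [hs 0 (by decide), hs 1 (by decide), hs 2 (by decide), hs 3 (by decide)]
    simp

private theorem hh_two27 {Γ : Type} [Group Γ] (Λ : P → Γ) {v w : P} (i j : Fin 5) (hij : i < j)
    (h : ∀ k, k ≠ i → k ≠ j → v k = w k) :
    hh27 Λ v w = stp27 Λ i v w * stp27 Λ j v w := by
  have hs : ∀ k, k ≠ i → k ≠ j → stp27 Λ k v w = 1 := fun k hk hk' => stp_one27 Λ (h k hk hk')
  unfold hh27
  fin_cases i <;> fin_cases j <;> first
    | (exfalso; revert hij; decide)
    | (rw [hs 2 (by decide) (by decide), hs 3 (by decide) (by decide),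
        hs 4 (by decide) (by decide)]; simp)
    | (rw [hs 1 (by decide) (by decide), hs 3 (by decide) (by decide),
        hs 4 (by decide) (by decide)]; simp)
    | (rw [hs 1 (by decide) (by decide), hs 2 (by decide) (by decide),
        hs 4 (by decide) (by decide)]; simp)
    | (rw [hs 1 (by decide) (by decide), hs 2 (by decide) (by decide),
        hs 3 (by decide) (by decide)]; simp)
    | (rw [hs 0 (by decide) (by decide), hs 3 (by decide) (by decide),
        hs 4 (by decide) (by decide)]; simp)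
    | (rw [hs 0 (by decide) (by decide), hs 2 (by decide) (by decide),
        hs 4 (by decide) (by decide)]; simp)
    | (rw [hs 0 (by decide) (by decide), hs 2 (by decide) (by decide),
        hs 3 (by decide) (by decide)]; simp)
    | (rw [hs 0 (by decide) (by decide), hs 1 (by decide) (by decide),
        hs 4 (by decide) (by decide)]; simp)
    | (rw [hs 0 (by decide) (by decide), hs 1 (by decide) (by decide),
        hs 3 (by decide) (by decide)]; simp)
    | (rw [hs 0 (by decide) (by decide), hs 1 (by decide) (by decide),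
        hs 2 (by decide) (by decide)]; simp)

private theorem pot_one27 {Γ : Type} [Group Γ] (Λ : P → Γ) {q : P} {i : Fin 5}
    (hq : dirs q = {i}) {v w : P} (hv : Vx27 q v) (hw : Vx27 q w) :
    hh27 Λ v w = (if v i = q i - 1 then 1 else Λ q)⁻¹ * (if w i = q i - 1 then 1 else Λ q) := by
  have hoi : Odd (q i) := by rw [← mem_dirs27, hq]; exact Finset.mem_singleton_self i
  have hno : ∀ k, k ≠ i → ¬ Odd (q k) := by
    intro k hk h
    rw [← mem_dirs27, hq, Finset.mem_singleton] at h
    exact hk h
  rw [hh_one27 Λ i (fun k hk => by rw [vx_even27 hv (hno k hk), vx_even27 hw (hno k hk)])]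
  have hm : v i ≠ w i →
      (fun l => if l < i then w l else if l = i then (v i + w i) / 2 else v l) = q := by
    intro hne
    funext l
    by_cases hl : l = i
    · subst hl
      rw [if_neg (lt_irrefl _), if_pos rfl]
      rcases vx_odd27 hv hoi with h1 | h1 <;> rcases vx_odd27 hw hoi with h2 | h2 <;> omega
    · by_cases hl' : l < i
      · rw [if_pos hl', vx_even27 hw (hno l hl)]
      · rw [if_neg hl', if_neg hl, vx_even27 hv (hno l hl)]
  unfold stp27
  by_cases hne : v i = w i
  · rw [if_pos hne, hne, inv_mul_cancel]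
  · rw [if_neg hne, hm hne]
    rcases vx_odd27 hv hoi with h1 | h1 <;> rcases vx_odd27 hw hoi with h2 | h2
    · exact absurd (h1.trans h2.symm) hne
    · rw [if_pos (by omega), if_pos h1, if_neg (by omega)]
      simp
    · rw [if_neg (by omega), if_neg (by omega), if_pos h2]
      simp
    · exact absurd (h1.trans h2.symm) hne

private theorem pot_two27 {Γ : Type} [Group Γ] (Λ : P → Γ) {q : P} {i j : Fin 5} (hij : i < j)
    (hq : dirs q = {i, j})
    (hf : Λ (q - e j) * Λ (q + e i) = Λ (q - e i) * Λ (q + e j)) {v w : P}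
    (hv : Vx27 q v) (hw : Vx27 q w) :
    hh27 Λ v w = ((if v i = q i - 1 then 1 else Λ (q - e j)) *
      (if v j = q j - 1 then 1 else if v i = q i - 1 then Λ (q - e i) else Λ (q + e i)))⁻¹ *
      ((if w i = q i - 1 then 1 else Λ (q - e j)) *
      (if w j = q j - 1 then 1 else if w i = q i - 1 then Λ (q - e i) else Λ (q + e i))) := by
  have hoi : Odd (q i) := by rw [← mem_dirs27, hq]; simp
  have hoj : Odd (q j) := by rw [← mem_dirs27, hq]; simp
  have hno : ∀ k, k ≠ i → k ≠ j → ¬ Odd (q k) := by
    intro k hk hk' h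
    rw [← mem_dirs27, hq] at h
    simp only [Finset.mem_insert, Finset.mem_singleton] at h
    exact h.elim hk hk'
  have hji : j ≠ i := hij.ne'
  rw [hh_two27 Λ i j hij (fun k hk hk' => by
    rw [vx_even27 hv (hno k hk hk'), vx_even27 hw (hno k hk hk')])]
  -- the first step
  have hmi : v i ≠ w i →
      (fun l => if l < i then w l else if l = i then (v i + w i) / 2 else v l) =
        (fun l => if l = j then v j else q l) := by
    intro hne
    funext l
    by_cases hl : l = i
    · subst hl
      rw [if_neg (lt_irrefl _), if_pos rfl, if_neg hji.symm]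
      rcases vx_odd27 hv hoi with h1 | h1 <;> rcases vx_odd27 hw hoi with h2 | h2 <;> omega
    · by_cases hl2 : l = j
      · subst hl2
        rw [if_neg (not_lt.2 hij.le), if_neg hl, if_pos rfl]
      · rw [if_neg hl2]
        by_cases hl' : l < i
        · rw [if_pos hl', vx_even27 hw (hno l hl hl2)]
        · rw [if_neg hl', if_neg hl, vx_even27 hv (hno l hl hl2)]
  have hmj : v j ≠ w j →
      (fun l => if l < j then w l else if l = j then (v j + w j) / 2 else v l) =
        (fun l => if l = i then w i else q l) := by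
    intro hne
    funext l
    by_cases hl : l = j
    · subst hl
      rw [if_neg (lt_irrefl _), if_pos rfl, if_neg hji]
      rcases vx_odd27 hv hoj with h1 | h1 <;> rcases vx_odd27 hw hoj with h2 | h2 <;> omega
    · by_cases hl2 : l = i
      · subst hl2
        rw [if_pos hij, if_pos rfl]
      · rw [if_neg hl2]
        by_cases hl' : l < j
        · rw [if_pos hl', vx_even27 hw (hno l hl2 hl)]
        · rw [if_neg hl', if_neg hl, vx_even27 hv (hno l hl2 hl)]
  have hA0 : (fun l => if l = j then q j - 1 else q l) = q - e j := by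
    funext l
    by_cases hl : l = j
    · subst hl; simp [e]
    · simp [e, hl]
  have hA1 : (fun l => if l = j then q j + 1 else q l) = q + e j := by
    funext l
    by_cases hl : l = j
    · subst hl; simp [e]
    · simp [e, hl]
  have hB0 : (fun l => if l = i then q i - 1 else q l) = q - e i := by
    funext l
    by_cases hl : l = i
    · subst hl; simp [e]
    · simp [e, hl]
  have hB1 : (fun l => if l = i then q i + 1 else q l) = q + e i := by
    funext l
    by_cases hl : l = i
    · subst hl; simp [e]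
    · simp [e, hl]
  have hsi : stp27 Λ i v w = if v i = w i then 1 else if v i < w i then
      Λ (fun l => if l = j then v j else q l) else (Λ (fun l => if l = j then v j else q l))⁻¹ := by
    unfold stp27
    by_cases hne : v i = w i
    · rw [if_pos hne, if_pos hne]
    · rw [if_neg hne, if_neg hne, hmi hne]
  have hsj : stp27 Λ j v w = if v j = w j then 1 else if v j < w j then
      Λ (fun l => if l = i then w i else q l) else (Λ (fun l => if l = i then w i else q l))⁻¹ := by
    unfold stp27
    by_cases hne : v j = w j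
    · rw [if_pos hne, if_pos hne]
    · rw [if_neg hne, if_neg hne, hmj hne]
  rw [hsi, hsj]
  have hfl : Λ (q + e j) = (Λ (q - e i))⁻¹ * (Λ (q - e j) * Λ (q + e i)) := by
    rw [hf, inv_mul_cancel_left]
  have hne : ∀ x : ℤ, x - 1 ≠ x + 1 := fun x => by omega
  have hne' : ∀ x : ℤ, x + 1 ≠ x - 1 := fun x => by omega
  have hlt : ∀ x : ℤ, x - 1 < x + 1 := fun x => by omega
  have hlt' : ∀ x : ℤ, ¬ x + 1 < x - 1 := fun x => by omega
  rcases vx_odd27 hv hoi with h1 | h1 <;> rcases vx_odd27 hv hoj with h2 | h2 <;>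
    rcases vx_odd27 hw hoi with h3 | h3 <;> rcases vx_odd27 hw hoj with h4 | h4 <;>
    rw [h1, h2, h3, h4] <;>
    simp only [if_pos, hne, hne', hlt, hlt', if_false, hA0, hA1, hB0, hB1] <;>
    (try rw [hfl]) <;> group

private theorem pot27 {X : Set P} (hd : ∀ q ∈ X, (dirs q).card ≤ 2) {Γ : Type} [Group Γ]
    (Λ : P → Γ) (hΛ : Flat X Λ) (q : P) (hq : q ∈ X) :
    ∃ ψ : P → Γ, ∀ v w, Vx27 q v → Vx27 q w → hh27 Λ v w = (ψ v)⁻¹ * ψ w := by
  have h := hd q hq
  interval_cases hc : (dirs q).card
  · refine ⟨fun _ => 1, fun v w hv hw => ?_⟩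
    rw [Finset.card_eq_zero] at hc
    have hno : ∀ k, ¬ Odd (q k) := by
      intro k hk
      rw [← mem_dirs27, hc] at hk
      exact absurd hk (Finset.notMem_empty k)
    rw [hh_one27 Λ 0 (fun k _ => by rw [vx_even27 hv (hno k), vx_even27 hw (hno k)]),
      stp_one27 Λ (by rw [vx_even27 hv (hno 0), vx_even27 hw (hno 0)])]
    simp
  · obtain ⟨i, hi⟩ := Finset.card_eq_one.1 hc
    exact ⟨fun v => if v i = q i - 1 then 1 else Λ q, fun v w hv hw => pot_one27 Λ hi hv hw⟩
  · obtain ⟨i, j, hij, hi⟩ := Finset.card_eq_two.1 hc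
    rcases lt_or_gt_of_ne hij with hlt | hlt
    · exact ⟨_, fun v w hv hw => pot_two27 Λ hlt hi (hΛ q hq i j hlt hi) hv hw⟩
    · rw [Finset.pair_comm] at hi
      exact ⟨_, fun v w hv hw => pot_two27 Λ hlt hi (hΛ q hq j i hlt hi) hv hw⟩

private theorem vx_ev27 {q x : P} (h : q ≤ x ∧ x ≤ q + 1) : Vx27 q (ev x) := by
  intro k
  refine ⟨⟨x k / 2, by simp only [ev]; ring⟩, ?_⟩
  rcases ev_face h k with h1 | h1
  · exact Or.inl h1
  · exact Or.inr h1.2

theorem cob_of_sc {X : Set P} (hf : X.Finite) (hc : Closed X)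
    (hd : ∀ q ∈ X, (dirs q).card ≤ 2) {v₀ : P} (hg : GConn X v₀)
    (hs : SimplyConnectedSpace (Rz (im (K X)))) {Γ : Type} [Group Γ] (Λ : P → Γ)
    (hΛ : Flat X Λ) : Cob X Λ := by
  classical
  have hpot := pot27 hd Λ hΛ
  obtain ⟨inv, hinv⟩ : ∃ inv : ℕ → P, ∀ x, inv (nu x) = x :=
    ⟨Function.invFun nu, Function.leftInverse_invFun Encodable.encode_injective⟩
  have hcoc : Coc (im (K X)) (fun a b => hh27 Λ (ev (inv a)) (ev (inv b))) := by
    rintro _ ⟨s, hs, rfl⟩ _ hu0 _ hv0 _ hw0
    obtain ⟨u, hu, rfl⟩ := Finset.mem_image.1 hu0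
    obtain ⟨v, hv, rfl⟩ := Finset.mem_image.1 hv0
    obtain ⟨w, hw, rfl⟩ := Finset.mem_image.1 hw0
    obtain ⟨q, hq, -, -, hq'⟩ := K_subset hs
    obtain ⟨ψ, hψ⟩ := hpot q hq
    simp only [hinv]
    rw [hψ _ _ (vx_ev27 (hq' u hu)) (vx_ev27 (hq' v hv)),
      hψ _ _ (vx_ev27 (hq' v hv)) (vx_ev27 (hq' w hw)),
      hψ _ _ (vx_ev27 (hq' u hu)) (vx_ev27 (hq' w hw))]
    group
  have hfin : (im (K X)).Finite := by
    refine ((K_finite hf).image (fun s => s.image nu)).subset ?_
    rintro _ ⟨s, hs, rfl⟩
    exact ⟨s, hs, rfl⟩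
  have hcon := conn_K hc hd hg
  have hv0 := v0_vert hd hg
  obtain ⟨L, hL⟩ := exists_univ hfin hcon hv0
  obtain ⟨θ, a, -, hθ⟩ := hL.univ Γ _ hcoc
  have hsub : Subsingleton (FundamentalGroup (Rz (im (K X))) (pt (im (K X)) hv0)) := by
    exact inferInstanceAs (Subsingleton (Path.Homotopic.Quotient (pt (im (K X)) hv0)
      (pt (im (K X)) hv0)))
  have hθ1 : ∀ g, θ g = 1 := by
    intro g
    rw [Subsingleton.elim g 1, map_one]
  have key : ∀ s ∈ K X, ∀ x ∈ s, ∀ y ∈ s,
      a (nu x) = hh27 Λ (ev x) (ev y) * a (nu y) := by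
    intro s hs x hx y hy
    have h := hθ (s.image nu) ⟨s, hs, rfl⟩ (nu x) (Finset.mem_image_of_mem nu hx) (nu y)
      (Finset.mem_image_of_mem nu hy)
    rw [hθ1] at h
    simp only [hinv] at h
    rw [mul_assoc, eq_comm, inv_mul_eq_one] at h
    exact h
  refine ⟨fun v => (a (nu v))⁻¹, fun q hq i hi => ?_⟩
  have hoi : Odd (q i) := by rw [← mem_dirs27, hi]; exact Finset.mem_singleton_self i
  have hno : ∀ k, k ≠ i → ¬ Odd (q k) := by
    intro k hk h
    rw [← mem_dirs27, hi, Finset.mem_singleton] at h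
    exact hk h
  have hqi : q - e i ∈ X := (hc q hq i hoi).2
  have hev1 : ev (q - e i) = q - e i := by
    funext k
    simp only [ev, e, Pi.sub_apply]
    by_cases hk : k = i
    · subst hk
      obtain ⟨t, ht⟩ := hoi
      rw [if_pos rfl]
      omega
    · have := hno k hk
      rw [Int.not_odd_iff_even] at this
      obtain ⟨t, ht⟩ := this
      rw [if_neg hk]
      omega
  have hev2 : ev q = q - e i := by
    funext k
    simp only [ev, e, Pi.sub_apply]
    by_cases hk : k = i
    · subst hk
      obtain ⟨t, ht⟩ := hoi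
      rw [if_pos rfl]
      omega
    · have := hno k hk
      rw [Int.not_odd_iff_even] at this
      obtain ⟨t, ht⟩ := this
      rw [if_neg hk]
      omega
  have hev3 : ev (q + e i) = q + e i := by
    funext k
    simp only [ev, e, Pi.add_apply]
    by_cases hk : k = i
    · subst hk
      obtain ⟨t, ht⟩ := hoi
      rw [if_pos rfl]
      omega
    · have := hno k hk
      rw [Int.not_odd_iff_even] at this
      obtain ⟨t, ht⟩ := this
      rw [if_neg hk]
      omega
  have hen : ∀ k, e i k = 0 ∨ e i k = 1 := by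
    intro k
    by_cases hk : k = i
    · right; simp [e, hk]
    · left; simp [e, hk]
  obtain ⟨s1, hs1, hx1, hy1⟩ := edge_K hd hqi (x := q - e i) (i := i) le_rfl (by
    intro k
    simp only [Pi.add_apply, Pi.sub_apply, Pi.one_apply]
    rcases hen k with h | h <;> rw [h] <;> omega)
  obtain ⟨s2, hs2, hx2, hy2⟩ := edge_K hd hq (x := q) (i := i) le_rfl (by
    intro k
    simp only [Pi.add_apply, Pi.one_apply]
    rcases hen k with h | h <;> rw [h] <;> omega)
  rw [sub_add_cancel] at hy1
  have h1 := key s1 hs1 _ hx1 _ hy1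
  have h2 := key s2 hs2 _ hx2 _ hy2
  have hV1 : Vx27 q (q - e i) := by
    rw [← hev2]
    exact vx_ev27 ⟨le_rfl, by intro k; simp⟩
  have hV2 : Vx27 q (q + e i) := by
    rw [← hev3]
    refine vx_ev27 ⟨?_, ?_⟩
    · intro k
      simp only [Pi.add_apply]
      rcases hen k with h | h <;> rw [h] <;> omega
    · intro k
      simp only [Pi.add_apply, Pi.one_apply]
      rcases hen k with h | h <;> rw [h] <;> omega
  rw [hev1, hev2, pot_one27 Λ hi hV1 hV1, inv_mul_cancel, one_mul] at h1
  rw [hev2, hev3, pot_one27 Λ hi hV1 hV2] at h2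
  have hi1 : (q - e i) i = q i - 1 := by simp [e]
  have hi2 : (q + e i) i ≠ q i - 1 := by
    simp only [e, Pi.add_apply, if_true]
    omega
  rw [if_pos hi1, if_neg hi2, inv_one, one_mul] at h2
  simp only [inv_inv]
  rw [h1, h2, mul_inv_cancel_right]

end Pool.Agent.MK
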