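import Pool.Agent.MK.Lab

/-! Module MK/CubePot. Potentials on the corners of a cube (pure group theory).

Corners of the cube of x: y with x ≤ y ≤ x + 1, i.e. y = x + 1_A, A ⊆ {0, .., 4}. The potential is
built by adding one direction after the other (induction on the finite set of directions).
-/

namespace Pool.Agent.MK

theorem e_apply (i j : Fin 5) : e i j = if j = i then 1 else 0 := rfl

theorem cube_pot_aux {Γ : Type} [Group Γ] (c : P → P → Γ) (x : P)
    (h : ∀ y i j, i ≠ j → x ≤ y → y + e i + e j ≤ x + 1 →
      c y (y + e i) * c (y + e i) (y + e i + e j) =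
        c y (y + e j) * c (y + e j) (y + e i + e j)) (S : Finset (Fin 5)) :
    ∃ ψ : P → Γ, ψ x = 1 ∧ ∀ y i, x ≤ y → y + e i ≤ x + 1 → (∀ j, j ∉ S → (y + e i) j = x j) →
      c y (y + e i) = (ψ y)⁻¹ * ψ (y + e i) := by
  induction S using Finset.induction_on with
  | empty =>
    refine ⟨fun _ => 1, rfl, fun y i hy _ hj => ?_⟩
    exfalso
    have h1 := hj i (Finset.notMem_empty i)
    have h2 : x i ≤ y i := hy i
    simp only [Pi.add_apply, e_apply, if_true] at h1
    omega
  | insert k S hk ih =>
    obtain ⟨ψ, hψ1, hψ⟩ := ih
    refine ⟨fun y => if y k = x k then ψ y else ψ (y - e k) * c (y - e k) y, by simp [hψ1], ?_⟩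
    intro y i hy hyi hj
    beta_reduce
    by_cases hik : i = k
    · subst hik
      have h1 := hyi i
      have h2 : x i ≤ y i := hy i
      simp only [Pi.add_apply, e_apply, if_true, Pi.one_apply] at h1
      have h3 : y i = x i := by omega
      have h4 : ¬ (y + e i) i = x i := by
        simp only [Pi.add_apply, e_apply, if_true]
        omega
      have h5 : y + e i - e i = y := add_sub_cancel_right y (e i)
      rw [if_pos h3, if_neg h4, h5, inv_mul_cancel_left]
    · have h1 : (y + e i) k = y k := by
        simp only [Pi.add_apply, e_apply]
        rw [if_neg (fun hh => hik hh.symm), add_zero]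
      by_cases hyk : y k = x k
      · rw [if_pos hyk, if_pos (h1.trans hyk)]
        apply hψ y i hy hyi
        intro j hjS
        by_cases hjk : j = k
        · subst hjk
          exact h1.trans hyk
        · exact hj j (by simp [hjk, hjS])
      · rw [if_neg hyk, if_neg (by rw [h1]; exact hyk)]
        have hxy : x ≤ y - e k := by
          intro j
          have h2 : x j ≤ y j := hy j
          simp only [Pi.sub_apply, e_apply]
          by_cases hjk : j = k
          · subst hjk
            rw [if_pos rfl]
            omega
          · rw [if_neg hjk]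
            omega
        have e1 : y - e k + e i + e k = y + e i := by abel
        have e2 : y - e k + e k = y := sub_add_cancel y (e k)
        have e3 : y + e i - e k = y - e k + e i := by abel
        have e4 : y - e k + e k + e i = y + e i := by rw [e2]
        have hsq := h (y - e k) i k hik hxy (by rw [e1]; exact hyi)
        rw [e1, e2] at hsq
        have hle : y - e k + e i ≤ x + 1 := by
          intro j
          have h2 := hyi j
          simp only [Pi.add_apply, Pi.sub_apply, e_apply, Pi.one_apply] at h2 ⊢
          split_ifs at h2 ⊢ <;> omega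
        have hI := hψ (y - e k) i hxy hle (by
          intro j hjS
          by_cases hjk : j = k
          · subst hjk
            have h2 := hyi j
            have h3 : x j ≤ y j := hy j
            rw [h1] at h2
            simp only [Pi.add_apply, Pi.one_apply] at h2
            have : (y - e j + e i) j = (y + e i) j - 1 := by
              simp only [Pi.add_apply, Pi.sub_apply, e_apply, if_true]
              ring
            rw [this, h1]
            omega
          · have := hj j (by simp [hjk, hjS])
            rw [← this]
            simp only [Pi.add_apply, Pi.sub_apply, e_apply, if_neg hjk]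
            ring)
        rw [e3, mul_inv_rev]
        have hI' : ψ (y - e k + e i) = ψ (y - e k) * c (y - e k) (y - e k + e i) := by
          rw [hI, mul_inv_cancel_left]
        rw [hI', mul_assoc, mul_assoc, inv_mul_cancel_left, hsq, inv_mul_cancel_left]

theorem cube_pot {Γ : Type} [Group Γ] (c : P → P → Γ) (x : P)
    (h : ∀ y i j, i ≠ j → x ≤ y → y + e i + e j ≤ x + 1 →
      c y (y + e i) * c (y + e i) (y + e i + e j) =
        c y (y + e j) * c (y + e j) (y + e i + e j)) :
    ∃ ψ : P → Γ, ψ x = 1 ∧ ∀ y i, x ≤ y → y + e i ≤ x + 1 → c y (y + e i) = (ψ y)⁻¹ * ψ (y + e i) := by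
  obtain ⟨ψ, h1, h2⟩ := cube_pot_aux c x h Finset.univ
  exact ⟨ψ, h1, fun y i hy hyi => h2 y i hy hyi fun j hj => absurd (Finset.mem_univ j) hj⟩

theorem pot_unique {Γ : Type} [Group Γ] (x : P) (k : Fin 5) (t : ℤ) (ht : t = 0 ∨ t = 1)
    (ψ ψ' : P → Γ)
    (h : ∀ y i, i ≠ k → x ≤ y → y + e i ≤ x + 1 → y k = x k + t →
      (ψ y)⁻¹ * ψ (y + e i) = (ψ' y)⁻¹ * ψ' (y + e i)) :
    ∃ g : Γ, ∀ y, x ≤ y → y ≤ x + 1 → y k = x k + t → ψ' y = g * ψ y := by
  obtain ⟨y0, hy0⟩ : ∃ y0 : P, ∀ j, y0 j = if j = k then x j + t else x j := ⟨_, fun _ => rfl⟩
  refine ⟨ψ' y0 * (ψ y0)⁻¹, ?_⟩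
  have key : ∀ (S : Finset (Fin 5)) (y : P), x ≤ y → y ≤ x + 1 → y k = x k + t →
      (∀ j, j ∉ S → y j = y0 j) → ψ' y = ψ' y0 * (ψ y0)⁻¹ * ψ y := by
    intro S
    induction S using Finset.induction_on with
    | empty =>
      intro y _ _ _ hj
      have : y = y0 := funext fun j => hj j (Finset.notMem_empty j)
      rw [this, inv_mul_cancel_right]
    | insert i S hi ih =>
      intro y hy hy1 hyk hj
      by_cases hyi : y i = y0 i
      · apply ih y hy hy1 hyk
        intro j hjS
        by_cases hji : j = i
        · rw [hji, hyi]
        · exact hj j (by simp [hji, hjS])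
      · have hik : i ≠ k := by
          rintro rfl
          apply hyi
          rw [hyk, hy0, if_pos rfl]
        have hxi : y0 i = x i := by rw [hy0, if_neg hik]
        have h1 : x i ≤ y i := hy i
        have h2 := hy1 i
        simp only [Pi.add_apply, Pi.one_apply] at h2
        have h3 : y i = x i + 1 := by
          rw [hxi] at hyi
          omega
        have e2 : y - e i + e i = y := sub_add_cancel y (e i)
        have hxy : x ≤ y - e i := by
          intro j
          have h2 : x j ≤ y j := hy j
          simp only [Pi.sub_apply, e_apply]
          by_cases hji : j = i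
          · subst hji
            rw [if_pos rfl]
            omega
          · rw [if_neg hji]
            omega
        have hle : y - e i ≤ x + 1 := by
          intro j
          have h2 := hy1 j
          simp only [Pi.add_apply, Pi.sub_apply, e_apply, Pi.one_apply] at h2 ⊢
          split_ifs <;> omega
        have hk' : (y - e i) k = x k + t := by
          simp only [Pi.sub_apply, e_apply]
          rw [if_neg (fun hh => hik hh.symm), sub_zero, hyk]
        have hI := ih (y - e i) hxy hle hk' (by
          intro j hjS
          by_cases hji : j = i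
          · subst hji
            simp only [Pi.sub_apply, e_apply, if_true]
            rw [h3, hxi]
            ring
          · have := hj j (by simp [hji, hjS])
            rw [← this]
            simp only [Pi.sub_apply, e_apply, if_neg hji]
            ring)
        have hs := h (y - e i) i hik hxy (by rw [e2]; exact hy1) hk'
        rw [e2] at hs
        have hs' : ψ' y = ψ' (y - e i) * ((ψ (y - e i))⁻¹ * ψ y) := by
          rw [hs, mul_inv_cancel_left]
        rw [hs', hI]
        group
  intro y hy hy1 hyk
  exact key Finset.univ y hy hy1 hyk fun j hj => absurd (Finset.mem_univ j) hj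

end Pool.Agent.MK
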