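import Pool.Agent.MK.ConnK
import Pool.Agent.MK.CubePot
import Pool.Agent.DT70.Univ

/-! Module MK/SCCob. If all flat labellings of the complex are coboundaries then the boundary of
the thickening is simply connected.

`cob_coc`. Let c be a cocycle on im (K X), write c x y for c (nu x) (nu y).
(1) For a cube q ∈ X and y, i ≠ j with q ≤ y, y + e i + e j ≤ q + 1: c y (y + e i) * c (y + e i) (y + e i + e j)
 = c y (y + e i + e j) = c y (y + e j) * c (y + e j) (y + e i + e j) (`tri_K` twice, Coc).
 So `cube_pot` gives ψ_q with ψ_q q = 1 and c y (y + e i) = (ψ_q y)⁻¹ ψ_q (y + e i) in the cube of q.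
(2) For an edge cell m (dirs m = {i}) put Λ m = c (m - e i) m * c m (m + e i). Λ is flat: for a square
 cell q with dirs {i, j} the 2 × 2 grid q - e i - e j, .., q + e i + e j consists of four unit squares with lower corners
 q - e i - e j, q - e j, q - e i, q, which lie in the cubes of the cells q - e i - e j, q - e j, q - e i, q ∈ X; move
 the path across the four squares by (1). So by hypothesis Λ m = (φ (m - e i))⁻¹ φ (m + e i).
(3) For a lattice point y in some cube of X put v = ev y ∈ X, a y = φ v * ψ_v y (v ≤ y ≤ v + 1).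
 Claim: c y (y + e k) = (a y)⁻¹ * a (y + e k) if q ≤ y, y + e k ≤ q + 1, q ∈ X.
 If y k is even: ev (y + e k) = ev y = v, clear from the definition of ψ_v.
 If y k is odd: then q k = y k, v = ev y, v + 2 e k = ev (y + e k), m = v + e k ∈ X (a face of q, `closed_face`:
 m k = q k, and for the other coordinates as in `ev_face`), dirs m = {k}, and m ≤ y, y + e k ≤ m + 1. On the corners z of the cube of m
 with z k = m k both ψ_m and ψ_v are potentials of c (these are corners of the cube of v, z k = v k + 1), so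
 ψ_m z = g ψ_v z (`pot_unique`); on the corners with z k = m k + 1 (= v k + 2): ψ_m z = g' ψ_{v + 2 e k} z.
 So c y (y + e k) = (ψ_v y)⁻¹ g⁻¹ g' ψ_{v + 2 e k} (y + e k). For y = m: c m (m + e k) = (ψ_v m)⁻¹ g⁻¹ g' (ψ (v + 2 e k) = 1)
 and ψ_v m = c v m, so g⁻¹ g' = c v m * c m (m + e k) = Λ m = (φ v)⁻¹ φ (v + 2 e k).
(4) For x, y in a face s ∈ K X: by `K_iff`, s = {v_1, .., v_5} or {v_0, .., v_4} of a simplex sig q π, x = v_k, y = v_l,
 k ≤ l say; c x y = Π_{k ≤ r < l} c v_r v_{r+1} (Coc in the face s) and v_{r+1} = v_r + e (π r): by (3),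
 c x y = (a x)⁻¹ * a y. For k > l use `Coc.symm`. (im (K X): c on natural numbers, a (nu x).)
`sc_of_cob`: im (K X) is finite (`K_finite`), connected (`conn_K`); L, Univ from `exists_univ` at o = nu v₀. Apply
 `cob_coc` to L: L u w = (a u)⁻¹ * a w; then EP (im (K X)) L o o g implies g = (a o)⁻¹ * a o = 1 (induction:
 EP X L u w g gives g = (a u)⁻¹ * a w). So the fundamental group is trivial; Rz (im (K X)) is path
 connected (`path_conn`), hence simply connected (see `sc_of_fg` in DT70/SC.lean).
-/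

namespace Pool.Agent.MK

open Pool.Agent.DT70

private theorem s_le1 (x : P) {i j : Fin 5} (hij : i ≠ j) : x + e i + e j ≤ x + 1 := by
  intro k
  simp only [Pi.add_apply, Pi.one_apply, e_apply]
  by_cases h1 : k = i
  · subst h1
    rw [if_pos rfl, if_neg hij]
    omega
  · rw [if_neg h1]
    split_ifs <;> omega

private theorem sc_sq {X : Set P} (hd : ∀ q ∈ X, (dirs q).card ≤ 2) {Γ : Type} [Group Γ]
    {c : ℕ → ℕ → Γ} (hcoc : Coc (im (K X)) c) {q : P} (hq : q ∈ X) {y : P} {i j : Fin 5}
    (hij : i ≠ j) (h : q ≤ y) (h' : y + e i + e j ≤ q + 1) :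
    c (nu y) (nu (y + e i)) * c (nu (y + e i)) (nu (y + e i + e j)) =
      c (nu y) (nu (y + e j)) * c (nu (y + e j)) (nu (y + e i + e j)) := by
  obtain ⟨s, hs, h1, h2, h3⟩ := tri_K hd hq hij h h'
  obtain ⟨t, ht, k1, k2, k3⟩ := tri_K hd hq hij.symm h (by rw [add_right_comm]; exact h')
  rw [add_right_comm] at k3
  rw [hcoc _ ⟨s, hs, rfl⟩ _ (Finset.mem_image_of_mem nu h1) _ (Finset.mem_image_of_mem nu h2) _
      (Finset.mem_image_of_mem nu h3),
    hcoc _ ⟨t, ht, rfl⟩ _ (Finset.mem_image_of_mem nu k1) _ (Finset.mem_image_of_mem nu k2) _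
      (Finset.mem_image_of_mem nu k3)]

/-- The labelling of the edges defined by a cocycle. -/
private noncomputable def Lm {Γ : Type} [Group Γ] (c : ℕ → ℕ → Γ) (m : P) : Γ :=
  open Classical in
  if h : ∃ i, dirs m = {i} then
    c (nu (m - e h.choose)) (nu m) * c (nu m) (nu (m + e h.choose)) else 1

private theorem Lm_eq {Γ : Type} [Group Γ] (c : ℕ → ℕ → Γ) {m : P} {i : Fin 5}
    (h : dirs m = {i}) : Lm c m = c (nu (m - e i)) (nu m) * c (nu m) (nu (m + e i)) := by
  have h1 : ∃ i, dirs m = {i} := ⟨i, h⟩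
  have h2 : h1.choose = i := by
    have h3 := h1.choose_spec
    exact (Finset.singleton_inj.1 (h.symm.trans h3)).symm
  unfold Lm
  rw [dif_pos h1, h2]

private theorem s_mem_dirs {q : P} {k : Fin 5} : k ∈ dirs q ↔ Odd (q k) := by
  simp [dirs]

private theorem dirs_pm {q : P} {i j : Fin 5} (hij : i ≠ j) (h : dirs q = {i, j}) (δ : ℤ)
    (hδ : δ = 1 ∨ δ = -1) (q' : P) (hq' : ∀ k, q' k = q k + if k = j then δ else 0) :
    dirs q' = {i} := by
  have h1 : ∀ k, Odd (q k) ↔ k = i ∨ k = j := by
    intro k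
    rw [← s_mem_dirs, h, Finset.mem_insert, Finset.mem_singleton]
  ext k
  rw [s_mem_dirs, Finset.mem_singleton, hq']
  by_cases hk : k = j
  · subst hk
    rw [if_pos rfl]
    have h2 : Odd (q k) := (h1 k).2 (Or.inr rfl)
    constructor
    · intro h3
      exfalso
      rw [Int.odd_iff] at h2 h3
      rcases hδ with rfl | rfl <;> omega
    · intro h3
      exact absurd h3.symm hij
  · rw [if_neg hk, add_zero, h1]
    constructor
    · rintro (h3 | h3)
      · exact h3
      · exact absurd h3 hk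
    · exact fun h3 => Or.inl h3

private theorem sq4 {Γ : Type} [Group Γ] {a b b' d a2 b2 b2' d2 m1 m2 m3 m4 : Γ}
    (h1 : a * m1 = a2 * m2) (h2 : b * b' = m1 * m3) (h3 : m2 * m4 = b2 * b2')
    (h4 : m3 * d = m4 * d2) : (a * b) * (b' * d) = (a2 * b2) * (b2' * d2) := by
  calc (a * b) * (b' * d) = a * (b * b') * d := by simp only [mul_assoc]
    _ = (a * m1) * (m3 * d) := by rw [h2]; simp only [mul_assoc]
    _ = (a2 * (m2 * m4)) * d2 := by rw [h1, h4]; simp only [mul_assoc]
    _ = _ := by rw [h3]; simp only [mul_assoc]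

private theorem flat_Lm {X : Set P} (hc : Closed X) (hd : ∀ q ∈ X, (dirs q).card ≤ 2) {Γ : Type}
    [Group Γ] {c : ℕ → ℕ → Γ} (hcoc : Coc (im (K X)) c) : Flat X (Lm c) := by
  intro q hq i j hij hdq
  have hne : i ≠ j := ne_of_lt hij
  have hoi : Odd (q i) := by rw [← s_mem_dirs, hdq]; simp
  have hoj : Odd (q j) := by rw [← s_mem_dirs, hdq]; simp
  have hdq' : dirs q = {j, i} := by rw [hdq, Finset.pair_comm]
  have d1 : dirs (q - e j) = {i} := dirs_pm hne hdq (-1) (Or.inr rfl) _ (by
    intro k; simp only [Pi.sub_apply, e_apply]; split_ifs <;> ring)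
  have d2 : dirs (q + e i) = {j} := dirs_pm hne.symm hdq' 1 (Or.inl rfl) _ (by
    intro k; simp only [Pi.add_apply, e_apply])
  have d3 : dirs (q - e i) = {j} := dirs_pm hne.symm hdq' (-1) (Or.inr rfl) _ (by
    intro k; simp only [Pi.sub_apply, e_apply]; split_ifs <;> ring)
  have d4 : dirs (q + e j) = {i} := dirs_pm hne hdq 1 (Or.inl rfl) _ (by
    intro k; simp only [Pi.add_apply, e_apply])
  have x1 : q - e i ∈ X := (hc q hq i hoi).2
  have x2 : q - e j ∈ X := (hc q hq j hoj).2
  have x3 : q - e i - e j ∈ X := (hc _ x1 j (by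
    simp only [Pi.sub_apply, e_apply, if_neg hne.symm, sub_zero]; exact hoj)).2
  rw [Lm_eq c d1, Lm_eq c d2, Lm_eq c d3, Lm_eq c d4]
  have S1 := sc_sq hd hcoc x3 hne le_rfl (s_le1 (q - e i - e j) hne)
  have S2 := sc_sq hd hcoc x2 hne le_rfl (s_le1 (q - e j) hne)
  have S3 := sc_sq hd hcoc x1 hne le_rfl (s_le1 (q - e i) hne)
  have S4 := sc_sq hd hcoc hq hne le_rfl (s_le1 q hne)
  have a1 : q - e i - e j + e i = q - e j := by abel
  have a2 : q - e j + e j = q := by abel
  have a3 : q - e i - e j + e j = q - e i := by abel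
  have a4 : q - e j + e i + e j = q + e i := by abel
  have a5 : q - e i + e i = q := by abel
  rw [a1, a2, a3] at S1
  rw [a4, a2] at S2
  rw [a5] at S3
  have b1 : q - e j - e i = q - e i - e j := by abel
  have b2 : q + e i - e j = q - e j + e i := by abel
  have b3 : q + e j - e i = q - e i + e j := by abel
  have b4 : q + e j + e i = q + e i + e j := by abel
  rw [b1, b2, b3, b4]
  exact sq4 S1 S2 S3 S4

private theorem s_face_step {X : Set P} (hX : Closed X) {q : P} (hq : q ∈ X) {k : Fin 5}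
    (hk : Odd (q k)) {δ : ℤ} (hδ : δ = 1 ∨ δ = -1) {q' : P}
    (h : ∀ j, q' j = q j + if j = k then δ else 0) : q' ∈ X := by
  rcases hδ with rfl | rfl
  · have h1 : q' = q + e k := by
      funext j
      rw [h, Pi.add_apply, e_apply]
    rw [h1]
    exact (hX q hq k hk).1
  · have h1 : q' = q - e k := by
      funext j
      rw [h, Pi.sub_apply, e_apply]
      split_ifs <;> ring
    rw [h1]
    exact (hX q hq k hk).2

private theorem s_closed_face {X : Set P} (hX : Closed X) {q q' : P} (hq : q ∈ X)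
    (h : ∀ k, q' k = q k ∨ (Odd (q k) ∧ |q' k - q k| = 1)) : q' ∈ X := by
  have key : ∀ s : Finset (Fin 5), (fun k => if k ∈ s then q' k else q k) ∈ X := by
    intro s
    induction s using Finset.induction_on with
    | empty => simpa using hq
    | insert a s ha ih =>
      rcases h a with h1 | ⟨h1, h2⟩
      · have : (fun k => if k ∈ insert a s then q' k else q k)
            = (fun k => if k ∈ s then q' k else q k) := by
          funext k
          by_cases hk : k = a
          · subst hk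
            simp [ha, h1]
          · simp [hk]
        rw [this]
        exact ih
      · have h3 : q' a - q a = 1 ∨ q' a - q a = -1 := by
          rcases abs_eq (by norm_num : (0 : ℤ) ≤ 1) |>.1 h2 with h3 | h3
          · exact Or.inl h3
          · exact Or.inr h3
        refine s_face_step hX ih (k := a) (by simpa [ha] using h1) h3 (fun k => ?_)
        by_cases hk : k = a
        · subst hk
          simp [ha]
        · simp [hk]
  have h1 := key Finset.univ
  simpa using h1

private theorem s_step {X : Set P} (hc : Closed X) {Γ : Type} [Group Γ] {C : P → P → Γ}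
    {ψ : P → P → Γ} (hψ1 : ∀ q ∈ X, ψ q q = 1)
    (hψ : ∀ q ∈ X, ∀ y i, q ≤ y → y + e i ≤ q + 1 → C y (y + e i) = (ψ q y)⁻¹ * ψ q (y + e i))
    {φ : P → Γ} (hφ : ∀ q ∈ X, ∀ i, dirs q = {i} → C (q - e i) q * C q (q + e i) =
      (φ (q - e i))⁻¹ * φ (q + e i)) {q : P} (hq : q ∈ X) {y : P} {k : Fin 5} (h1 : q ≤ y)
    (h2 : y + e k ≤ q + 1) : C y (y + e k) =
      (φ (ev y) * ψ (ev y) y)⁻¹ * (φ (ev (y + e k)) * ψ (ev (y + e k)) (y + e k)) := by
  have h1' : ∀ j, q j ≤ y j := h1
  have h2' : ∀ j, y j + (if j = k then 1 else 0) ≤ q j + 1 := h2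
  have hy1 : y ≤ q + 1 := by
    intro j
    have := h2' j
    show y j ≤ q j + 1
    split_ifs at this <;> omega
  have hvX : ev y ∈ X := s_closed_face hc hq (ev_face ⟨h1, hy1⟩)
  have hv : ∀ j, ev y j = 2 * (y j / 2) := fun _ => rfl
  have hv' : ∀ j, ev (y + e k) j = 2 * ((y j + if j = k then 1 else 0) / 2) := fun _ => rfl
  rcases Int.emod_two_eq_zero_or_one (y k) with hk | hk
  · have e1 : ev (y + e k) = ev y := by
      funext j
      rw [hv, hv']
      by_cases hj : j = k
      · subst hj
        rw [if_pos rfl]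
        omega
      · rw [if_neg hj, add_zero]
    rw [e1]
    have := hψ (ev y) hvX y k (by intro j; show 2 * (y j / 2) ≤ y j; omega) (by
      intro j
      show y j + (if j = k then 1 else 0) ≤ ev y j + 1
      rw [hv]
      by_cases hj : j = k
      · subst hj
        rw [if_pos rfl]
        omega
      · rw [if_neg hj]
        omega)
    rw [this]
    group
  · -- the odd case
    have hqk : q k = y k := by
      have h3 := h1' k
      have h4 := h2' k
      rw [if_pos rfl] at h4
      omega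
    obtain ⟨m, hm⟩ : ∃ m : P, m = ev y + e k := ⟨_, rfl⟩
    have hmj : ∀ j, m j = 2 * (y j / 2) + if j = k then 1 else 0 := fun j => by rw [hm]; rfl
    have hmX : m ∈ X := by
      refine s_closed_face hc hq (fun j => ?_)
      by_cases hj : j = k
      · subst hj
        left
        rw [hmj, if_pos rfl, hqk]
        omega
      · have h3 := ev_face ⟨h1, hy1⟩ j
        have h4 : m j = ev y j := by rw [hmj, if_neg hj, add_zero]; rfl
        rw [h4]
        exact h3
    have hmk : m k = y k := by rw [hmj, if_pos rfl]; omega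
    have hdm : dirs m = {k} := by
      ext j
      rw [s_mem_dirs, Finset.mem_singleton, hmj]
      by_cases hj : j = k
      · subst hj
        rw [if_pos rfl, Int.odd_iff]
        constructor
        · intro _; rfl
        · intro _; omega
      · rw [if_neg hj, Int.odd_iff]
        constructor
        · intro h; omega
        · intro h; exact absurd h hj
    have em1 : m - e k = ev y := by rw [hm]; abel
    have em2 : m + e k = ev (y + e k) := by
      funext j
      show m j + (if j = k then 1 else 0) = ev (y + e k) j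
      rw [hmj, hv']
      by_cases hj : j = k
      · subst hj
        rw [if_pos rfl]
        omega
      · rw [if_neg hj]
        omega
    have hmodd : Odd (m k) := by rw [← s_mem_dirs, hdm]; simp
    have hv'X : ev (y + e k) ∈ X := by rw [← em2]; exact (hc m hmX k hmodd).1
    obtain ⟨g, hg⟩ := pot_unique m k 0 (Or.inl rfl) (ψ (ev y)) (ψ m) (by
      intro z i hik hz1 hz2 hzk
      have hz1' : ∀ j, m j ≤ z j := hz1
      have hz2' : ∀ j, z j + (if j = i then 1 else 0) ≤ m j + 1 := hz2
      rw [← hψ m hmX z i hz1 hz2, ← hψ (ev y) hvX z i]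
      · intro j
        have h3 := hz1' j
        rw [hmj] at h3
        show 2 * (y j / 2) ≤ z j
        split_ifs at h3 <;> omega
      · intro j
        show z j + (if j = i then 1 else 0) ≤ ev y j + 1
        have h3 := hz2' j
        rw [hmj] at h3
        rw [hv]
        by_cases hj : j = k
        · subst hj
          rw [if_neg (fun h => hik h.symm)]
          rw [hmj, if_pos rfl] at hzk
          omega
        · rw [if_neg hj] at h3
          omega)
    obtain ⟨g', hg'⟩ := pot_unique m k 1 (Or.inr rfl) (ψ (ev (y + e k))) (ψ m) (by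
      intro z i hik hz1 hz2 hzk
      have hz1' : ∀ j, m j ≤ z j := hz1
      have hz2' : ∀ j, z j + (if j = i then 1 else 0) ≤ m j + 1 := hz2
      rw [← hψ m hmX z i hz1 hz2, ← hψ (ev (y + e k)) hv'X z i]
      · rw [← em2]
        intro j
        show m j + (if j = k then 1 else 0) ≤ z j
        have h3 := hz1' j
        by_cases hj : j = k
        · subst hj
          rw [if_pos rfl]
          omega
        · rw [if_neg hj]
          omega
      · rw [← em2]
        intro j
        show z j + (if j = i then 1 else 0) ≤ m j + (if j = k then 1 else 0) + 1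
        have h3 := hz2' j
        split_ifs at h3 ⊢ <;> omega)
    have hmy : m ≤ y := by
      intro j
      show m j ≤ y j
      rw [hmj]
      by_cases hj : j = k
      · subst hj
        rw [if_pos rfl]
        omega
      · rw [if_neg hj]
        omega
    have hym : y + e k ≤ m + 1 := by
      intro j
      show y j + (if j = k then 1 else 0) ≤ m j + 1
      rw [hmj]
      by_cases hj : j = k
      · subst hj
        rw [if_pos rfl]
        omega
      · rw [if_neg hj]
        omega
    have hym0 : y ≤ m + 1 := by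
      intro j
      have h3 : y j + (if j = k then 1 else 0) ≤ m j + 1 := hym j
      show y j ≤ m j + 1
      split_ifs at h3 <;> omega
    have hmy0 : m ≤ y + e k := by
      intro j
      have h3 : m j ≤ y j := hmy j
      show m j ≤ y j + (if j = k then 1 else 0)
      split_ifs <;> omega
    have hmm : m + e k ≤ m + 1 := by
      intro j
      show m j + (if j = k then 1 else 0) ≤ m j + 1
      split_ifs <;> omega
    have hm1 : m ≤ m + 1 := by
      intro j
      show m j ≤ m j + 1
      omega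
    have hme : m ≤ m + e k := by
      intro j
      show m j ≤ m j + (if j = k then 1 else 0)
      split_ifs <;> omega
    have c1 := hψ m hmX y k hmy hym
    have c2 := hg y hmy hym0 (by rw [hmk, add_zero])
    have c3 := hg' (y + e k) hmy0 hym (by
      show y k + (if k = k then 1 else 0) = m k + 1
      rw [if_pos rfl, hmk])
    have c4 := hψ m hmX m k le_rfl hmm
    have c5 := hg m le_rfl hm1 (by rw [add_zero])
    have c6 := hg' (m + e k) hme hmm (by
      show m k + (if k = k then 1 else 0) = m k + 1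
      rw [if_pos rfl])
    have c7 := hψ (ev y) hvX (ev y) k le_rfl (by
      intro j
      show ev y j + (if j = k then 1 else 0) ≤ ev y j + 1
      split_ifs <;> omega)
    rw [hψ1 _ hvX, inv_one, one_mul, ← hm] at c7
    have c8 : ψ (ev (y + e k)) (m + e k) = 1 := by rw [em2]; exact hψ1 _ hv'X
    have c9 := hφ m hmX k hdm
    rw [em1, c7, c4, c5, c6, c8, em2, mul_one] at c9
    -- c9 : ψ v m * ((g * ψ v m)⁻¹ * g') = (φ v)⁻¹ * φ v'
    have c10 : g⁻¹ * g' = (φ (ev y))⁻¹ * φ (ev (y + e k)) := by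
      rw [← c9]
      group
    rw [c1, c2, c3]
    calc (g * ψ (ev y) y)⁻¹ * (g' * ψ (ev (y + e k)) (y + e k))
        = (ψ (ev y) y)⁻¹ * (g⁻¹ * g') * ψ (ev (y + e k)) (y + e k) := by group
      _ = _ := by rw [c10]; group

private theorem s_vtx_succ (q : P) (π : Equiv.Perm (Fin 5)) {m : ℕ} (hm : m < 5) :
    vtx q π (m + 1) = vtx q π m + e (π ⟨m, hm⟩) := by
  funext i
  show q i + (if (π.symm i : ℕ) < m + 1 then 1 else 0) =
    q i + (if (π.symm i : ℕ) < m then 1 else 0) + (if i = π ⟨m, hm⟩ then 1 else 0)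
  by_cases h : i = π ⟨m, hm⟩
  · have h1 : (π.symm i : ℕ) = m := by rw [h, Equiv.symm_apply_apply]
    rw [if_pos h, h1, if_pos (Nat.lt_succ_self m), if_neg (lt_irrefl m)]
    ring
  · have h1 : (π.symm i : ℕ) ≠ m := by
      intro h2
      apply h
      have h3 : π.symm i = ⟨m, hm⟩ := Fin.ext h2
      rw [← h3, Equiv.apply_symm_apply]
    rw [if_neg h, add_zero]
    by_cases h2 : (π.symm i : ℕ) < m
    · rw [if_pos h2, if_pos (by omega)]
    · rw [if_neg h2, if_neg (by omega)]

private theorem s_vtx_bd (q : P) (π : Equiv.Perm (Fin 5)) (m : ℕ) :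
    q ≤ vtx q π m ∧ vtx q π m ≤ q + 1 := by
  constructor
  · intro i
    show q i ≤ q i + (if (π.symm i : ℕ) < m then 1 else 0)
    split_ifs <;> omega
  · intro i
    show q i + (if (π.symm i : ℕ) < m then 1 else 0) ≤ q i + 1
    split_ifs <;> omega

private theorem s_chain {X : Set P} {s : Finset P} (hs : s ∈ K X) :
    ∃ q ∈ X, ∃ π : Equiv.Perm (Fin 5), ∃ lo hi : ℕ, hi ≤ 5 ∧
      (∀ k, lo ≤ k → k ≤ hi → vtx q π k ∈ s) ∧
      (∀ x ∈ s, ∃ k, lo ≤ k ∧ k ≤ hi ∧ x = vtx q π k) := by
  obtain ⟨q, hq, π, h⟩ := K_iff.1 hs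
  have v0 : vtx q π 0 = q := by
    funext i
    show q i + (if (π.symm i : ℕ) < 0 then 1 else 0) = q i
    rw [if_neg (by omega), add_zero]
  have v5 : vtx q π 5 = q + 1 := by
    funext i
    show q i + (if (π.symm i : ℕ) < 5 then 1 else 0) = q i + 1
    rw [if_pos (π.symm i).isLt]
  rcases h with ⟨-, rfl⟩ | ⟨-, rfl⟩
  · refine ⟨q, hq, π, 1, 5, le_rfl, fun k hk1 hk2 => ?_, fun x hx => ?_⟩
    · rw [Finset.mem_erase]
      refine ⟨fun h => ?_, mem_sig.2 ⟨k, by omega, rfl⟩⟩
      have := (vtx_inj (by omega) (by omega) (h.trans v0.symm)).1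
      omega
    · obtain ⟨h1, h2⟩ := Finset.mem_erase.1 hx
      obtain ⟨k, hk, rfl⟩ := mem_sig.1 h2
      refine ⟨k, ?_, by omega, rfl⟩
      rcases Nat.eq_zero_or_pos k with rfl | h3
      · exact absurd v0 h1
      · exact h3
  · refine ⟨q, hq, π, 0, 4, by omega, fun k hk1 hk2 => ?_, fun x hx => ?_⟩
    · rw [Finset.mem_erase]
      refine ⟨fun h => ?_, mem_sig.2 ⟨k, by omega, rfl⟩⟩
      have := (vtx_inj (by omega) (by omega) (h.trans v5.symm)).1
      omega
    · obtain ⟨h1, h2⟩ := Finset.mem_erase.1 hx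
      obtain ⟨k, hk, rfl⟩ := mem_sig.1 h2
      refine ⟨k, by omega, ?_, rfl⟩
      by_contra h3
      have h4 : k = 5 := by omega
      subst h4
      exact h1 v5

theorem cob_coc {X : Set P} (hc : Closed X) (hd : ∀ q ∈ X, (dirs q).card ≤ 2) {Γ : Type} [Group Γ]
    (h : ∀ Λ : P → Γ, Flat X Λ → Cob X Λ) (c : ℕ → ℕ → Γ) (hcoc : Coc (im (K X)) c) :
    ∃ a : ℕ → Γ, ∀ s ∈ im (K X), ∀ u ∈ s, ∀ w ∈ s, c u w = (a u)⁻¹ * a w := by
  have hψ : ∀ q : P, ∃ ψ : P → Γ, q ∈ X → ψ q = 1 ∧ ∀ y i, q ≤ y → y + e i ≤ q + 1 →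
      c (nu y) (nu (y + e i)) = (ψ y)⁻¹ * ψ (y + e i) := by
    intro q
    by_cases hq : q ∈ X
    · obtain ⟨ψ, h1, h2⟩ := cube_pot (fun x y => c (nu x) (nu y)) q
        (fun y i j hij h1 h2 => sc_sq hd hcoc hq hij h1 h2)
      exact ⟨ψ, fun _ => ⟨h1, h2⟩⟩
    · exact ⟨fun _ => 1, fun hq' => absurd hq' hq⟩
  choose ψ hψ using hψ
  obtain ⟨φ, hφ⟩ := h (Lm c) (flat_Lm hc hd hcoc)
  obtain ⟨A, hA⟩ : ∃ A : P → Γ, ∀ y, A y = φ (ev y) * ψ (ev y) y := ⟨_, fun _ => rfl⟩
  have key : ∀ q ∈ X, ∀ y k, q ≤ y → y + e k ≤ q + 1 →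
      c (nu y) (nu (y + e k)) = (A y)⁻¹ * A (y + e k) := by
    intro q hq y k h1 h2
    rw [hA, hA]
    exact s_step (C := fun x y => c (nu x) (nu y)) hc (fun q hq => (hψ q hq).1)
      (fun q hq => (hψ q hq).2) (fun q hq i hi => by
        show c (nu (q - e i)) (nu q) * c (nu q) (nu (q + e i)) = _
        rw [← Lm_eq c hi]
        exact hφ q hq i hi) hq h1 h2
  have hinj : Function.Injective nu := Encodable.encode_injective
  refine ⟨Function.extend nu A (fun _ => 1), ?_⟩
  rintro _ ⟨s, hs, rfl⟩ u hu w hw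
  obtain ⟨x, hx, rfl⟩ := Finset.mem_image.1 hu
  obtain ⟨y, hy, rfl⟩ := Finset.mem_image.1 hw
  rw [hinj.extend_apply, hinj.extend_apply]
  obtain ⟨q, hq, π, lo, hi, hhi, hmem, hall⟩ := s_chain hs
  have ind : ∀ n k, lo ≤ k → k + n ≤ hi →
      c (nu (vtx q π k)) (nu (vtx q π (k + n))) = (A (vtx q π k))⁻¹ * A (vtx q π (k + n)) := by
    intro n
    induction n with
    | zero =>
      intro k h1 h2
      rw [add_zero, inv_mul_cancel]
      exact hcoc.self ⟨s, hs, rfl⟩ (Finset.mem_image_of_mem nu (hmem k h1 (by omega)))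
    | succ n ih =>
      intro k h1 h2
      have h3 := ih k h1 (by omega)
      have h4 : vtx q π (k + (n + 1)) = vtx q π (k + n) + e (π ⟨k + n, by omega⟩) :=
        s_vtx_succ q π (m := k + n) (by omega)
      have h5 := key q hq (vtx q π (k + n)) (π ⟨k + n, by omega⟩) (s_vtx_bd q π _).1 (by
        rw [← h4]
        exact (s_vtx_bd q π _).2)
      rw [← h4] at h5
      rw [← hcoc _ ⟨s, hs, rfl⟩ _ (Finset.mem_image_of_mem nu (hmem k h1 (by omega))) _
        (Finset.mem_image_of_mem nu (hmem (k + n) (by omega) (by omega))) _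
        (Finset.mem_image_of_mem nu (hmem (k + (n + 1)) (by omega) (by omega))), h3, h5]
      group
  obtain ⟨k, hk1, hk2, rfl⟩ := hall x hx
  obtain ⟨l, hl1, hl2, rfl⟩ := hall y hy
  rcases le_total k l with hkl | hkl
  · obtain ⟨n, rfl⟩ := Nat.exists_eq_add_of_le hkl
    exact ind n k hk1 hl2
  · obtain ⟨n, rfl⟩ := Nat.exists_eq_add_of_le hkl
    have h1 := ind n l hl1 hk2
    rw [hcoc.symm ⟨s, hs, rfl⟩ (Finset.mem_image_of_mem nu hy) (Finset.mem_image_of_mem nu hx), h1]
    group

private theorem s_sc_of_fg {X : Type} [TopologicalSpace X] (h : PathConnectedSpace X) (x : X)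
    (hs : Subsingleton (FundamentalGroup X x)) : SimplyConnectedSpace X := by
  rw [simply_connected_iff_loops_nullhomotopic]
  refine ⟨h, fun y γ => ?_⟩
  have e := FundamentalGroup.fundamentalGroupMulEquivOfPathConnected y x
  have h1 : Subsingleton (FundamentalGroup X y) := e.toEquiv.subsingleton
  exact Path.Homotopic.Quotient.exact (Subsingleton.elim (α := FundamentalGroup X y)
    (FundamentalGroup.fromPath (Path.Homotopic.Quotient.mk γ))
    (FundamentalGroup.fromPath (Path.Homotopic.Quotient.mk (Path.refl y))))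

theorem sc_of_cob {X : Set P} (hf : X.Finite) (hc : Closed X)
    (hd : ∀ q ∈ X, (dirs q).card ≤ 2) {v₀ : P} (hg : GConn X v₀)
    (h : ∀ (Γ : Type) [Group Γ] (Λ : P → Γ), Flat X Λ → Cob X Λ) :
    SimplyConnectedSpace (Rz (im (K X))) := by
  have hfin : (im (K X)).Finite := by
    have h1 : im (K X) ⊆ (fun s : Finset P => s.image nu) '' (K X) := by
      rintro _ ⟨s, hs, rfl⟩
      exact ⟨s, hs, rfl⟩
    exact ((K_finite hf).image _).subset h1
  have hcon : IsConnected (Rz (im (K X))) := conn_K hc hd hg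
  have ho : nu v₀ ∈ verts (im (K X)) := by
    obtain ⟨s, hs, h1, -⟩ := edge_K hd hg.1 (x := v₀) (i := 0) le_rfl (by
      intro j
      show v₀ j + (if j = 0 then 1 else 0) ≤ v₀ j + 1
      split_ifs <;> omega)
    exact ⟨s.image nu, ⟨s, hs, rfl⟩, Finset.mem_image_of_mem nu h1⟩
  obtain ⟨L, hL⟩ := exists_univ hfin hcon ho
  obtain ⟨a, ha⟩ := cob_coc hc hd (h (FundamentalGroup (Rz (im (K X))) (pt _ ho))) L hL.coc
  have hEP : ∀ u w g, EP (im (K X)) L u w g → g = (a u)⁻¹ * a w := by
    intro u w g hg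
    induction hg with
    | nil u => rw [inv_mul_cancel]
    | cons s hs hu hv _ ih =>
      rw [ih, ha s hs _ hu _ hv]
      group
  refine s_sc_of_fg (path_conn hfin hcon) (pt _ ho) ⟨fun g g' => ?_⟩
  rw [hEP _ _ g (hL.gen g), hEP _ _ g' (hL.gen g')]

end Pool.Agent.MK
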