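import Pool.Agent.MK.CodeM
import Pool.Agent.MK.CobSC
import Pool.Agent.MK.SCCob
import Pool.Agent.MKE.Words
import Pool.Agent.DT70.SC

/-! Module MK/Asm. The family of manifolds `K n`, from the group theory (`MKE.words`) and a family
of complexes (`Fam`, part D). -/

namespace Pool.Agent.MK

open Pool.Agent.DT70 Pool.Agent.MKE

/-- Words in the letters `1, .., m`. -/
def Let (m : ℕ) (w : List (ℕ × Bool)) : Prop := ∀ x ∈ w, 1 ≤ x.1 ∧ x.1 ≤ m

/-- What is needed of the family of complexes: `XX S w` is the complex of the word `w` (in the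
letters `1, .., m`) in size `S`. -/
structure Fam (m : ℕ) (rels : List (List (ℕ × Bool))) (q₀ v₀ : P)
    (XX : ℕ → List (ℕ × Bool) → Set P) (bound : List (ℕ × Bool) → ℕ) (c : ℕ → P)
    (cells : ℕ → List (ℕ × Bool) → List (List ℕ)) : Prop where
  fin : ∀ S w, Let m w → bound w ≤ S → (XX S w).Finite
  closed : ∀ S w, Let m w → bound w ≤ S → Closed (XX S w)
  dim : ∀ S w, Let m w → bound w ≤ S → ∀ q ∈ XX S w, (dirs q).card ≤ 2
  conn : ∀ S w, Let m w → bound w ≤ S → GConn (XX S w) v₀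
  marks : ∀ S w, Let m w → bound w ≤ S → Marks (XX S w) q₀
  fe : ∀ S w S' w', Let m w → bound w ≤ S → Let m w' → bound w' ≤ S' →
    (∀ (G : Type) [Group G] (y : ℕ → G), (∀ r ∈ rels, val y r = 1) → val y w = val y w') →
    FE {F₀ q₀} (K (XX S w)) (K (XX S' w'))
  flat : ∀ S w, Let m w → bound w ≤ S → ∀ (G : Type) [Group G] (y : ℕ → G),
    (∀ r ∈ rels, val y r = 1) → val y w = 1 → (∃ g, 1 ≤ g ∧ g ≤ m ∧ y g ≠ 1) →
    ∃ Λ : P → G, Flat (XX S w) Λ ∧ ¬ Cob (XX S w) Λ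
  cob : ∀ S w, Let m w → bound w ≤ S →
    (∀ (G : Type) [Group G] (y : ℕ → G), (∀ r ∈ rels, val y r = 1) → val y w = 1 →
      ∀ g, 1 ≤ g → g ≤ m → y g = 1) →
    ∀ (G : Type) [Group G] (Λ : P → G), Flat (XX S w) Λ → Cob (XX S w) Λ
  rep : ∀ S w, Let m w → bound w ≤ S → Rep (XX S w) (c S) (cells S w)
  comp : Computable (fun x : ℕ × List (ℕ × Bool) => cells x.1 x.2)
  comp_bound : Computable bound
  comp_pos : Computable (fun S => pos (c S) q₀)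

theorem exists_family {p : ℕ → Prop} {m : ℕ} {rels : List (List (ℕ × Bool))}
    {u0 : List (ℕ × Bool)} {u : ℕ → List (ℕ × Bool)} (hu : Computable u) (h0 : Let m u0)
    (hl : ∀ n, Let m (u n))
    (h1 : ∀ n, p n → ∀ (G : Type) [Group G] (y : ℕ → G), (∀ r ∈ rels, val y r = 1) →
      val y (u n) = val y u0)
    (h2 : ∀ n, ¬ p n → ∃ (G : Type) (_ : Group G) (y : ℕ → G), (∀ r ∈ rels, val y r = 1) ∧
      val y (u n) = 1 ∧ ∃ g, 1 ≤ g ∧ g ≤ m ∧ y g ≠ 1)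
    (h3 : ∀ (G : Type) [Group G] (y : ℕ → G), (∀ r ∈ rels, val y r = 1) → val y u0 = 1 →
      ∀ g, 1 ≤ g → g ≤ m → y g = 1)
    {q₀ v₀ : P} {XX : ℕ → List (ℕ × Bool) → Set P} {bound : List (ℕ × Bool) → ℕ} {c : ℕ → P}
    {cells : ℕ → List (ℕ × Bool) → List (List ℕ)} (hF : Fam m rels q₀ v₀ XX bound c cells) :
    ∃ (X : Set P) (A : Code) (M : ℕ → Code), X.Finite ∧ Closed X ∧ (∀ q ∈ X, (dirs q).card ≤ 2) ∧
      (∃ ν : P → ℕ, (∀ x y, (∃ s ∈ K X, x ∈ s) → (∃ s ∈ K X, y ∈ s) → ν x = ν y → x = y) ∧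
        fs A = {t | ∃ s ∈ K X, t = s.image ν}) ∧
      Marked false A ∧ SimplyConnectedSpace (real A) ∧ Computable M ∧
      (∀ n, Marked false (M n)) ∧ (∀ n, p n → Rel PLOn (M n) A) ∧
      ∀ n, ¬ p n → ¬ SimplyConnectedSpace (real (M n)) := by
  have r0 := hF.rep (bound u0) u0 h0 le_rfl
  have m0 := hF.marks (bound u0) u0 h0 le_rfl
  refine ⟨XX (bound u0) u0, code (cells (bound u0) u0) (pos (c (bound u0)) q₀),
    fun n => code (cells (bound (u n)) (u n)) (pos (c (bound (u n))) q₀),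
    hF.fin _ _ h0 le_rfl, hF.closed _ _ h0 le_rfl, hF.dim _ _ h0 le_rfl,
    ⟨nm (c (bound u0)), fun x y hx hy hxy => nm_inj r0 hx hy hxy, fs_code r0 m0⟩, ?_, ?_, ?_,
    ?_, ?_, ?_⟩
  · exact code_marked (hF.fin _ _ h0 le_rfl) (hF.closed _ _ h0 le_rfl) (hF.dim _ _ h0 le_rfl)
      (hF.conn _ _ h0 le_rfl) r0 m0
  · rw [code_sc r0 m0]
    exact sc_of_cob (hF.fin _ _ h0 le_rfl) (hF.closed _ _ h0 le_rfl) (hF.dim _ _ h0 le_rfl)
      (hF.conn _ _ h0 le_rfl) (fun G _ Λ hΛ => hF.cob _ _ h0 le_rfl h3 G Λ hΛ)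
  · have hb : Computable (fun n => bound (u n)) := hF.comp_bound.comp hu
    have hc1 : Computable (fun n => cells (bound (u n)) (u n)) := hF.comp.comp (hb.pair hu)
    have hc2 : Computable (fun n => pos (c (bound (u n))) q₀) := hF.comp_pos.comp hb
    exact (code_computable.comp (hc1.pair hc2)).of_eq (fun n => rfl)
  · intro n
    exact code_marked (hF.fin _ _ (hl n) le_rfl) (hF.closed _ _ (hl n) le_rfl)
      (hF.dim _ _ (hl n) le_rfl) (hF.conn _ _ (hl n) le_rfl) (hF.rep _ _ (hl n) le_rfl)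
      (hF.marks _ _ (hl n) le_rfl)
  · intro n hn
    exact code_rel (hF.rep _ _ (hl n) le_rfl) r0 (hF.marks _ _ (hl n) le_rfl) m0
      (hF.fe _ _ _ _ (hl n) le_rfl h0 le_rfl (h1 n hn))
  · intro n hn hsc
    rw [code_sc (hF.rep _ _ (hl n) le_rfl) (hF.marks _ _ (hl n) le_rfl)] at hsc
    obtain ⟨G, iG, y, hr, hw, hg⟩ := h2 n hn
    obtain ⟨Λ, hΛ, hΛ'⟩ := hF.flat _ _ (hl n) le_rfl G y hr hw hg
    exact hΛ' (cob_of_sc (hF.fin _ _ (hl n) le_rfl) (hF.closed _ _ (hl n) le_rfl)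
      (hF.dim _ _ (hl n) le_rfl) (hF.conn _ _ (hl n) le_rfl) hsc Λ hΛ)

end Pool.Agent.MK
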