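import Pool.Agent.MK.FlipLk

/-! Module MK/Eqv. Consequences of flip equivalence `FE S X Y` (`Relation.EqvGen (Fl S)`).

`nu` is injective (`Encodable.encode_injective`), `im X` is the image of X in the sense of
`Flip.image`. One step: `Flip A R X Y` in ℤ⁵ gives a flip of `im X` and `im Y`
with sets of the same cardinalities (`Finset.card_image_of_injective`); apply `flip_lks` to it and
to its inverse (`Flip.symm`), and `flip_iso`. A facet F ∈ S belongs to X and to Y; it does not
contain A: otherwise F = A ∪ (R∖r) (h2) and F ∈ Y would be (A∖a) ∪ R, which contains R, against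
h3. Hence f is the identity on `sx (F.image nu)`, and so is g (g (f x) = x).
`fe_iso`: prove by induction on `Relation.EqvGen` the statement with the additional clause
 `∀ F ∈ S, ∀ x ∈ sx (F.image nu), g x = x` (this makes the case `symm` trivial; use
 `Iso.refl cls_pl`, `Iso.symm`, `Iso.trans cls_pl`; in `rel` one needs x ∈ Rz (im X) for
 g x = g (f x) = x, true since F ∈ S ⊆ X).
-/

namespace Pool.Agent.MK

open Pool.Agent.DT70

theorem nu_injective : Function.Injective nu := Encodable.encode_injective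

/-- One flip, after renaming the vertices. -/
private theorem fl_im {S X Y : Set (Finset P)} (h : Fl S X Y) :
    ∃ A R : Finset ℕ, Flip A R (im X) (im Y) ∧ A.card + R.card = 6 ∧
      (∀ F ∈ S, F.image nu ∈ im X ∧ ¬ A ⊆ F.image nu) ∧ S ⊆ X ∧ S ⊆ Y := by
  obtain ⟨A, R, hf, hc, hX, hY⟩ := h
  refine ⟨A.image nu, R.image nu, hf.image nu nu_injective, ?_, ?_, hX, hY⟩
  · rw [Finset.card_image_of_injective _ nu_injective,
      Finset.card_image_of_injective _ nu_injective]
    exact hc
  · intro F hF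
    refine ⟨⟨F, hX hF, rfl⟩, ?_⟩
    rw [Finset.image_subset_image_iff nu_injective]
    intro hAF
    have h1 := hY hF
    rw [hf.hY] at h1
    rcases h1 with ⟨-, h2⟩ | ⟨a, ha, h2⟩
    · exact h2 hAF
    · apply hf.h3 F (hX hF)
      rw [h2]
      exact Finset.subset_union_right

theorem fe_lks {S X Y : Set (Finset P)} (h : FE S X Y) : Lks false (im X) ↔ Lks false (im Y) := by
  unfold FE at h
  induction h with
  | rel X Y hxy =>
    obtain ⟨A, R, hf, hc, -⟩ := fl_im hxy
    exact ⟨flip_lks hf hc, flip_lks hf.symm (by rw [add_comm]; exact hc)⟩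
  | refl X => exact Iff.rfl
  | symm X Y _ ih => exact ih.symm
  | trans X Y Z _ _ ih1 ih2 => exact ih1.trans ih2

private theorem fe_iso' {S X Y : Set (Finset P)} (h : FE S X Y) :
    ∃ f g : E → E, Iso PLOn (Rz (im X)) (Rz (im Y)) f g ∧
      (∀ F ∈ S, ∀ x ∈ sx (F.image nu), f x = x) ∧
      (∀ F ∈ S, ∀ x ∈ sx (F.image nu), g x = x) := by
  unfold FE at h
  induction h with
  | rel X Y hxy =>
    obtain ⟨A, R, hf, hc, hS, -, -⟩ := fl_im hxy
    obtain ⟨f, g, hI, hfx⟩ := flip_iso hf
    have h1 : ∀ F ∈ S, ∀ x ∈ sx (F.image nu), f x = x := by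
      intro F hF x hx
      exact hfx _ (hS F hF).1 (hS F hF).2 x hx
    refine ⟨f, g, hI, h1, ?_⟩
    intro F hF x hx
    have h2 := (hI.1 x ⟨_, (hS F hF).1, hx⟩).2
    rw [h1 F hF x hx] at h2
    exact h2
  | refl X =>
    exact ⟨fun x => x, fun x => x, Iso.refl cls_pl _, fun _ _ _ _ => rfl, fun _ _ _ _ => rfl⟩
  | symm X Y _ ih =>
    obtain ⟨f, g, hI, hf, hg⟩ := ih
    exact ⟨g, f, hI.symm, hg, hf⟩
  | trans X Y Z _ _ ih1 ih2 =>
    obtain ⟨f, g, hI, hf, hg⟩ := ih1
    obtain ⟨f', g', hI', hf', hg'⟩ := ih2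
    refine ⟨_, _, Iso.trans cls_pl hI hI', ?_, ?_⟩
    · intro F hF x hx
      show f' (f x) = x
      rw [hf F hF x hx]
      exact hf' F hF x hx
    · intro F hF x hx
      show g (g' x) = x
      rw [hg' F hF x hx]
      exact hg F hF x hx

theorem fe_iso {S X Y : Set (Finset P)} (h : FE S X Y) :
    ∃ f g : E → E, Iso PLOn (Rz (im X)) (Rz (im Y)) f g ∧
      ∀ F ∈ S, ∀ x ∈ sx (F.image nu), f x = x := by
  obtain ⟨f, g, hI, hf, -⟩ := fe_iso' h
  exact ⟨f, g, hI, hf⟩

end Pool.Agent.MK
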