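import Pool.Agent.MK.Code
import Pool.Agent.MK.Skel

/-! Module MK/CodeFs. The facets of `code` are those of `K X`.

(1) pos c is injective on the points x with 0 ≤ x i + c i for all i; the points q ∈ X and the points
 x of their cubes (q ≤ x ≤ q + 1), and the points q' with q' + e i ∈ X or q' - e i ∈ X, have this property
 (Rep.pos: 1 ≤ q i + c i). addV (pos c x) (un i) = pos c (x + e i) for such x (i < 5).
(2) orders: `List.mem_permutations`; p is a permutation of [0, 1, 2, 3, 4] iff
 p = List.ofFn (fun j => (π j : ℕ)) for some π : Equiv.Perm (Fin 5) (from p: length 5, nodup, entries < 5).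
 addV (pos c q) (off p k) = pos c (vtx q π k) for k ≤ 6: j ∈ p.take k iff π.symm j < k.
(3) addV q t.1 ∈ L iff q + e (π 0) ∈ X; q ∈ L.map (addV · t.2.1) iff q = q' + e (π 4) for some q' ∈ X iff
 q - e (π 4) ∈ X. So by `K_iff` the facets in `facets L` are, as sets of names, exactly the facets of K X:
 (sig q π)∖q = {v_1, .., v_5}, (sig q π)∖(q + 1) = {v_0, .., v_4} (q = v_0, q + 1 = v_5).
`fs_code`: first (pos c q₀) has the set of names of F₀ q₀ (π = 1, p = [0, 1, 2, 3, 4]), which is in K X
 (`F0_mem`), and is one of the lists of `facets L`.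
`facets_order`: a member F of facets L is [nm v_a, .., nm v_b] with v_a < .. < v_b an increasing chain;
 `facets_chain`: so F is the image of a list of points which is strictly increasing (Pairwise <), with
 q ≤ x ≤ q + 1.
`code_tail`: if G ∈ (code ..).tail is a permutation of first (pos c q₀) then both come from strictly increasing
 lists of points with the same members (nm c is injective on these points), so the lists are equal,
 but first is filtered out.
-/

namespace Pool.Agent.MK

open Pool.Agent.DT70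

private theorem fin_map_range {α : Type*} (f : ℕ → α) :
    (List.range 5).map f = List.ofFn (fun i : Fin 5 => f i) := by
  simp [List.range_succ, List.ofFn_succ]

private theorem addV_pos (c q : P) (o : List ℕ) :
    addV (pos c q) o = List.ofFn (fun i : Fin 5 => (q i + c i).toNat + o.getD i 0) := by
  unfold addV
  rw [fin_map_range]
  congr 1
  funext i
  have : (pos c q).getD i 0 = (q i + c i).toNat := by
    unfold pos
    rw [List.getD_eq_getElem _ _ (by simp), List.getElem_ofFn]
  rw [this]

private theorem pos_inj {c x y : P} (hx : ∀ i, 0 ≤ x i + c i) (hy : ∀ i, 0 ≤ y i + c i)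
    (h : pos c x = pos c y) : x = y := by
  have := List.ofFn_injective h
  funext i
  have h1 : (x i + c i).toNat = (y i + c i).toNat := congrFun this i
  have := hx i
  have := hy i
  omega

private theorem e_cases (k j : Fin 5) : e k j = if j = k then 1 else 0 := rfl

/-- The list of the directions in the order `π`. -/
private def od (π : Equiv.Perm (Fin 5)) : List ℕ := List.ofFn (fun j => ((π j : Fin 5) : ℕ))

private theorem od_getD (π : Equiv.Perm (Fin 5)) (j : Fin 5) : (od π).getD j 0 = (π j : ℕ) := by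
  unfold od
  rw [List.getD_eq_getElem _ _ (by simp), List.getElem_ofFn]

private theorem od_mem_take (π : Equiv.Perm (Fin 5)) (k : ℕ) (i : Fin 5) :
    (i : ℕ) ∈ (od π).take k ↔ (π.symm i : ℕ) < k := by
  rw [List.mem_take_iff_getElem]
  constructor
  · rintro ⟨j, hj, h⟩
    have hj5 : j < 5 := by
      have : (od π).length = 5 := by simp [od]
      omega
    have h1 : ((π ⟨j, hj5⟩ : Fin 5) : ℕ) = i := by
      rw [← h]
      unfold od
      rw [List.getElem_ofFn]
    have h2 : π ⟨j, hj5⟩ = i := Fin.ext h1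
    have h3 : π.symm i = ⟨j, hj5⟩ := by rw [← h2]; simp
    rw [h3]
    show j < k
    omega
  · intro h
    refine ⟨(π.symm i : ℕ), ?_, ?_⟩
    · have : (od π).length = 5 := by simp [od]
      have := (π.symm i).isLt
      omega
    · unfold od
      rw [List.getElem_ofFn]
      simp

private theorem addV_off {c q : P} (hq : ∀ i, 0 ≤ q i + c i) (π : Equiv.Perm (Fin 5)) (k : ℕ) :
    addV (pos c q) (off (od π) k) = pos c (vtx q π k) := by
  rw [addV_pos]
  unfold pos
  congr 1
  funext i
  have h1 : (off (od π) k).getD i 0 = if (i : ℕ) ∈ (od π).take k then 1 else 0 := by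
    unfold off
    rw [List.getD_eq_getElem _ _ (by simp)]
    simp
  rw [h1]
  have := hq i
  simp only [vtx]
  by_cases h : (π.symm i : ℕ) < k
  · rw [if_pos ((od_mem_take π k i).2 h), if_pos h]
    omega
  · rw [if_neg (fun hh => h ((od_mem_take π k i).1 hh)), if_neg h]
    omega

private theorem addV_un {c q : P} (hq : ∀ i, 0 ≤ q i + c i) (k : Fin 5) :
    addV (pos c q) (un k) = pos c (q + e k) := by
  rw [addV_pos]
  unfold pos
  congr 1
  funext i
  have h1 : (un k).getD i 0 = if i = k then 1 else 0 := by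
    unfold un
    rw [List.getD_eq_getElem _ _ (by simp)]
    simp [Fin.ext_iff]
  rw [h1]
  have := hq i
  simp only [Pi.add_apply, e]
  split_ifs <;> omega

private theorem mem_perm {p : List ℕ} :
    p ∈ ([0, 1, 2, 3, 4] : List ℕ).permutations ↔ ∃ π : Equiv.Perm (Fin 5), p = od π := by
  rw [List.mem_permutations]
  constructor
  · intro h
    have hlen : p.length = 5 := by simpa using h.length_eq
    have hlt : ∀ x ∈ p, x < 5 := by
      intro x hx
      have := h.subset hx
      simp at this
      omega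
    have hnd : p.Nodup := h.nodup_iff.2 (by decide)
    have hinj : Function.Injective (fun j : Fin 5 =>
        (⟨p[(j : ℕ)]'(by rw [hlen]; exact j.isLt), hlt _ (List.getElem_mem _)⟩ : Fin 5)) := by
      intro a b hab
      have h1 := congrArg Fin.val hab
      simp only at h1
      exact Fin.ext ((List.Nodup.getElem_inj_iff hnd).1 h1)
    refine ⟨Equiv.ofBijective _ (Finite.injective_iff_bijective.1 hinj), ?_⟩
    unfold od
    apply List.ext_getElem
    · simp [hlen]
    · intro n h1 h2
      rw [List.getElem_ofFn]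
      rfl
  · rintro ⟨π, rfl⟩
    have h0 : ([0, 1, 2, 3, 4] : List ℕ) = od 1 := by decide
    rw [h0]
    refine List.perm_of_nodup_nodup_toFinset_eq ?_ ?_ ?_
    · unfold od
      rw [List.nodup_ofFn]
      intro a b hab
      exact π.injective (Fin.ext hab)
    · decide
    · ext x
      simp only [od, List.mem_toFinset, List.mem_ofFn]
      constructor
      · rintro ⟨i, rfl⟩
        exact ⟨π i, rfl⟩
      · rintro ⟨i, rfl⟩
        exact ⟨π.symm i, by simp⟩

private theorem mem_facets {X : Set P} {c : P} {L : List (List ℕ)} (h : Rep X c L)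
    {F : List ℕ} : F ∈ facets L ↔ ∃ q ∈ X, ∃ π : Equiv.Perm (Fin 5),
      (q + e (π 0) ∉ X ∧ F = (List.range 5).map (fun k => nm c (vtx q π (k + 1)))) ∨
      (q - e (π 4) ∉ X ∧ F = (List.range 5).map (fun k => nm c (vtx q π k))) := by
  have hp : ∀ q ∈ X, ∀ i, 0 ≤ q i + c i := fun q hq i => by
    have := h.pos q hq i
    omega
  have hpe : ∀ q ∈ X, ∀ k i, 0 ≤ (q + e k) i + c i := fun q hq k i => by
    have := h.pos q hq i
    simp only [Pi.add_apply, e]
    split_ifs <;> omega
  have hpm : ∀ q ∈ X, ∀ k i, 0 ≤ (q - e k) i + c i := fun q hq k i => by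
    have := h.pos q hq i
    simp only [Pi.sub_apply, e]
    split_ifs <;> omega
  -- membership of the neighbours
  have hA : ∀ q ∈ X, ∀ π : Equiv.Perm (Fin 5),
      addV (pos c q) (un ((od π).getD 0 0)) ∈ L ↔ q + e (π 0) ∈ X := by
    intro q hq π
    rw [show (od π).getD 0 0 = ((π 0 : Fin 5) : ℕ) from od_getD π 0, addV_un (hp q hq), h.mem]
    constructor
    · rintro ⟨q', hq', he⟩
      rw [pos_inj (hpe q hq (π 0)) (hp q' hq') he]
      exact hq'
    · intro hh
      exact ⟨_, hh, rfl⟩
  have hB : ∀ q ∈ X, ∀ π : Equiv.Perm (Fin 5),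
      pos c q ∈ L.map (fun q' => addV q' (un ((od π).getD 4 0))) ↔ q - e (π 4) ∈ X := by
    intro q hq π
    rw [show (od π).getD 4 0 = ((π 4 : Fin 5) : ℕ) from od_getD π 4, List.mem_map]
    constructor
    · rintro ⟨l, hl, he⟩
      obtain ⟨q', hq', rfl⟩ := (h.mem l).1 hl
      rw [addV_un (hp q' hq')] at he
      have h1 := pos_inj (hpe q' hq' (π 4)) (hp q hq) he
      have h2 : q - e (π 4) = q' := by rw [← h1]; simp
      rw [h2]
      exact hq'
    · intro hh
      refine ⟨pos c (q - e (π 4)), (h.mem _).2 ⟨_, hh, rfl⟩, ?_⟩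
      rw [addV_un (hpm q hq (π 4))]
      simp
  have h6 : ∀ q ∈ X, ∀ π : Equiv.Perm (Fin 5),
      (((List.range 6).map (off (od π))).drop 1).map
        (fun o => Encodable.encode (addV (pos c q) o)) =
        (List.range 5).map (fun k => nm c (vtx q π (k + 1))) := by
    intro q hq π
    have : ((List.range 6).map (off (od π))).drop 1 =
        (List.range 5).map (fun k => off (od π) (k + 1)) := by
      simp [List.range_succ]
    rw [this, List.map_map]
    refine List.map_congr_left fun k _ => ?_
    simp only [Function.comp]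
    rw [addV_off (hp q hq)]
    rfl
  have h5 : ∀ q ∈ X, ∀ π : Equiv.Perm (Fin 5),
      (((List.range 6).map (off (od π))).take 5).map
        (fun o => Encodable.encode (addV (pos c q) o)) =
        (List.range 5).map (fun k => nm c (vtx q π k)) := by
    intro q hq π
    have : ((List.range 6).map (off (od π))).take 5 =
        (List.range 5).map (fun k => off (od π) k) := by
      simp [List.range_succ]
    rw [this, List.map_map]
    refine List.map_congr_left fun k _ => ?_
    simp only [Function.comp]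
    rw [addV_off (hp q hq)]
    rfl
  unfold facets tabF
  simp only [List.mem_flatMap, List.mem_map, List.mem_append]
  constructor
  · rintro ⟨l, hl, t, ⟨p, hpp, rfl⟩, hF⟩
    obtain ⟨q, hq, rfl⟩ := (h.mem l).1 hl
    obtain ⟨π, rfl⟩ := mem_perm.1 hpp
    refine ⟨q, hq, π, ?_⟩
    rcases hF with hF | hF
    · left
      by_cases hc : addV (pos c q) (un ((od π).getD 0 0)) ∈ L
      · rw [if_pos hc] at hF
        simp at hF
      · rw [if_neg hc, List.mem_singleton, h6 q hq π] at hF
        exact ⟨fun hh => hc ((hA q hq π).2 hh), hF⟩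
    · right
      by_cases hc : pos c q ∈ L.map (fun q' => addV q' (un ((od π).getD 4 0)))
      · rw [if_pos (by simpa using hc)] at hF
        simp at hF
      · rw [if_neg (by simpa using hc), List.mem_singleton, h5 q hq π] at hF
        exact ⟨fun hh => hc ((hB q hq π).2 hh), hF⟩
  · rintro ⟨q, hq, π, hF⟩
    refine ⟨pos c q, (h.mem _).2 ⟨q, hq, rfl⟩, _, ⟨od π, mem_perm.2 ⟨π, rfl⟩, rfl⟩, ?_⟩
    rcases hF with ⟨h1, hF⟩ | ⟨h1, hF⟩
    · left
      have hc : ¬ addV (pos c q) (un ((od π).getD 0 0)) ∈ L := fun hh => h1 ((hA q hq π).1 hh)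
      rw [if_neg hc, List.mem_singleton, h6 q hq π]
      exact hF
    · right
      have hc : ¬ pos c q ∈ L.map (fun q' => addV q' (un ((od π).getD 4 0))) :=
        fun hh => h1 ((hB q hq π).1 hh)
      rw [if_neg (by simpa using hc), List.mem_singleton, h5 q hq π]
      exact hF

private theorem sig_erase_zero (q : P) (π : Equiv.Perm (Fin 5)) :
    ((List.range 5).map (fun k => vtx q π (k + 1))).toFinset = (sig q π).erase q := by
  have h0 : vtx q π 0 = q := by funext i; simp [vtx]
  ext x
  rw [List.mem_toFinset, List.mem_map, Finset.mem_erase, mem_sig]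
  constructor
  · rintro ⟨k, hk, rfl⟩
    rw [List.mem_range] at hk
    refine ⟨fun hh => ?_, k + 1, by omega, rfl⟩
    rw [← h0] at hh
    have := (vtx_inj (π := π) (ρ := π) (q := q) (k := k + 1) (l := 0) (by omega) (by omega)
      (by rw [h0] at hh ⊢; exact hh)).1
    omega
  · rintro ⟨hx, k, hk, rfl⟩
    have hk0 : k ≠ 0 := by
      rintro rfl
      exact hx h0
    exact ⟨k - 1, by rw [List.mem_range]; omega, by
      congr 1
      omega⟩

private theorem sig_erase_last (q : P) (π : Equiv.Perm (Fin 5)) :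
    ((List.range 5).map (fun k => vtx q π k)).toFinset = (sig q π).erase (q + 1) := by
  have h5 : vtx q π 5 = q + 1 := by
    funext i
    have := (π.symm i).isLt
    simp [vtx]
  ext x
  rw [List.mem_toFinset, List.mem_map, Finset.mem_erase, mem_sig]
  constructor
  · rintro ⟨k, hk, rfl⟩
    rw [List.mem_range] at hk
    refine ⟨fun hh => ?_, k, by omega, rfl⟩
    rw [← h5] at hh
    have := (vtx_inj (π := π) (ρ := π) (q := q) (k := k) (l := 5) (by omega) (by omega) hh).1
    omega
  · rintro ⟨hx, k, hk, rfl⟩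
    have hk0 : k ≠ 5 := by
      rintro rfl
      exact hx h5
    exact ⟨k, by rw [List.mem_range]; omega, rfl⟩

private theorem vtx_lt (q : P) (π : Equiv.Perm (Fin 5)) {k l : ℕ} (h : k < l) (hl : l < 6) :
    vtx q π k < vtx q π l := by
  refine lt_of_le_of_ne ?_ ?_
  · intro i
    simp only [vtx]
    split_ifs <;> omega
  · intro hh
    have := (vtx_inj (π := π) (ρ := π) (q := q) (k := k) (l := l) (by omega) hl hh).1
    omega

private theorem pair_range {R : P → P → Prop} (f : ℕ → P) (h : ∀ k l, k < l → l < 5 → R (f k) (f l)) :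
    ((List.range 5).map f).Pairwise R := by
  rw [List.pairwise_map]
  refine List.Pairwise.imp_of_mem ?_ (List.pairwise_lt_range (n := 5))
  intro a b _ hb hab
  exact h a b hab (List.mem_range.1 hb)

theorem nm_inj {X : Set P} {c : P} {L : List (List ℕ)} (h : Rep X c L) {x y : P}
    (hx : ∃ s ∈ K X, x ∈ s) (hy : ∃ s ∈ K X, y ∈ s) (hxy : nm c x = nm c y) : x = y := by
  have hpos : ∀ z : P, (∃ s ∈ K X, z ∈ s) → ∀ i, 0 ≤ z i + c i := by
    rintro z ⟨s, hs, hz⟩ i
    obtain ⟨q, hq, -, -, hb⟩ := K_subset hs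
    have h1 : q i ≤ z i := (hb z hz).1 i
    have h2 := h.pos q hq i
    omega
  exact pos_inj (hpos x hx) (hpos y hy) (Encodable.encode_injective hxy)

theorem facets_chain {X : Set P} {c : P} {L : List (List ℕ)} (h : Rep X c L) {F : List ℕ}
    (hF : F ∈ facets L) : ∃ l : List P, l.Pairwise (· < ·) ∧ l.length = 5 ∧ l.toFinset ∈ K X ∧
      F = l.map (nm c) := by
  obtain ⟨q, hq, π, ⟨h1, rfl⟩ | ⟨h1, rfl⟩⟩ := (mem_facets h).1 hF
  · refine ⟨(List.range 5).map (fun k => vtx q π (k + 1)), ?_, by simp, ?_, ?_⟩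
    · exact pair_range _ (fun k l hkl hl => vtx_lt q π (by omega) (by omega))
    · rw [sig_erase_zero]
      exact K_iff.2 ⟨q, hq, π, Or.inl ⟨h1, rfl⟩⟩
    · rw [List.map_map]
      rfl
  · refine ⟨(List.range 5).map (fun k => vtx q π k), ?_, by simp, ?_, ?_⟩
    · exact pair_range _ (fun k l hkl hl => vtx_lt q π (by omega) (by omega))
    · rw [sig_erase_last]
      exact K_iff.2 ⟨q, hq, π, Or.inr ⟨h1, rfl⟩⟩
    · rw [List.map_map]
      rfl

theorem first_eq {X : Set P} {c : P} {L : List (List ℕ)} (h : Rep X c L) {q₀ : P}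
    (hq : Marks X q₀) : first (pos c q₀) ∈ facets L ∧
      first (pos c q₀) = (List.range 5).map (fun k => nm c (vtx q₀ 1 k)) := by
  have hp : ∀ i, 0 ≤ q₀ i + c i := fun i => by
    have := h.pos q₀ hq.1 i
    omega
  have h0 : ([0, 1, 2, 3, 4] : List ℕ) = od 1 := by decide
  have h1 : first (pos c q₀) = (List.range 5).map (fun k => nm c (vtx q₀ 1 k)) := by
    unfold first
    refine List.map_congr_left fun k _ => ?_
    rw [h0, addV_off hp]
    rfl
  refine ⟨(mem_facets h).2 ⟨q₀, hq.1, 1, Or.inr ⟨?_, h1⟩⟩, h1⟩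
  simpa using hq.2

private theorem mem_code {X : Set P} {c : P} {L : List (List ℕ)} (h : Rep X c L) {q₀ : P}
    (hq : Marks X q₀) {F : List ℕ} : F ∈ code L (pos c q₀) ↔ F ∈ facets L := by
  unfold code
  rw [List.mem_cons, List.mem_filter]
  constructor
  · rintro (rfl | hF)
    · exact (first_eq h hq).1
    · exact hF.1
  · intro hF
    by_cases hc : F = first (pos c q₀)
    · exact Or.inl hc
    · exact Or.inr ⟨hF, by simpa using hc⟩

private theorem map_toFinset (l : List P) (f : P → ℕ) :
    (l.map f).toFinset = l.toFinset.image f := by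
  ext x
  simp

theorem fs_code {X : Set P} {c : P} {L : List (List ℕ)} (h : Rep X c L) {q₀ : P}
    (hq : Marks X q₀) :
    fs (code L (pos c q₀)) = {t | ∃ s ∈ K X, t = s.image (nm c)} := by
  ext t
  simp only [fs, Set.mem_ofPred_eq]
  constructor
  · rintro ⟨F, hF, rfl⟩
    obtain ⟨l, -, -, hl, rfl⟩ := facets_chain h ((mem_code h hq).1 hF)
    exact ⟨l.toFinset, hl, map_toFinset l _⟩
  · rintro ⟨s, hs, rfl⟩
    obtain ⟨q, hqX, π, ⟨h1, rfl⟩ | ⟨h1, rfl⟩⟩ := K_iff.1 hs
    · refine ⟨(List.range 5).map (fun k => nm c (vtx q π (k + 1))),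
        (mem_code h hq).2 ((mem_facets h).2 ⟨q, hqX, π, Or.inl ⟨h1, rfl⟩⟩), ?_⟩
      rw [← sig_erase_zero, ← map_toFinset, List.map_map]
      rfl
    · refine ⟨(List.range 5).map (fun k => nm c (vtx q π k)),
        (mem_code h hq).2 ((mem_facets h).2 ⟨q, hqX, π, Or.inr ⟨h1, rfl⟩⟩), ?_⟩
      rw [← sig_erase_last, ← map_toFinset, List.map_map]
      rfl

theorem code_facets {X : Set P} {c : P} {L : List (List ℕ)} (h : Rep X c L) {q₀ : P}
    (hq : Marks X q₀) : ∀ F ∈ code L (pos c q₀), F.Nodup ∧ F.length = 5 := by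
  intro F hF
  obtain ⟨l, hl, hlen, hK, rfl⟩ := facets_chain h ((mem_code h hq).1 hF)
  refine ⟨?_, by simp [hlen]⟩
  refine List.Nodup.map_on ?_ (hl.imp ne_of_lt)
  intro x hx y hy hxy
  exact nm_inj h ⟨_, hK, List.mem_toFinset.2 hx⟩ ⟨_, hK, List.mem_toFinset.2 hy⟩ hxy

theorem code_tail {X : Set P} {c : P} {L : List (List ℕ)} (h : Rep X c L) {q₀ : P}
    (hq : Marks X q₀) :
    ∀ G ∈ (code L (pos c q₀)).tail, ¬ G.Perm (hd (code L (pos c q₀))) := by
  intro G hG hperm
  have hG' : G ∈ facets L ∧ G ≠ first (pos c q₀) := by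
    have : G ∈ (facets L).filter (fun F => decide (F ≠ first (pos c q₀))) := hG
    rw [List.mem_filter] at this
    exact ⟨this.1, by simpa using this.2⟩
  have hp : G.Perm (first (pos c q₀)) := hperm
  obtain ⟨l, hl, -, hK, hGl⟩ := facets_chain h hG'.1
  obtain ⟨l', hl', -, hK', hFl⟩ := facets_chain h (first_eq h hq).1
  apply hG'.2
  have hset : l.toFinset = l'.toFinset := by
    have h1 : ∀ x, x ∈ l → ∃ y ∈ l', nm c y = nm c x := by
      intro x hx
      have : nm c x ∈ first (pos c q₀) := hp.subset (by rw [hGl]; exact List.mem_map_of_mem hx)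
      rw [hFl, List.mem_map] at this
      exact this
    have h2 : ∀ y, y ∈ l' → ∃ x ∈ l, nm c x = nm c y := by
      intro y hy
      have : nm c y ∈ G := hp.symm.subset (by rw [hFl]; exact List.mem_map_of_mem hy)
      rw [hGl, List.mem_map] at this
      exact this
    ext x
    rw [List.mem_toFinset, List.mem_toFinset]
    constructor
    · intro hx
      obtain ⟨y, hy, hxy⟩ := h1 x hx
      rw [← nm_inj h ⟨_, hK', List.mem_toFinset.2 hy⟩ ⟨_, hK, List.mem_toFinset.2 hx⟩ hxy]
      exact hy
    · intro hx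
      obtain ⟨y, hy, hxy⟩ := h2 x hx
      rw [← nm_inj h ⟨_, hK, List.mem_toFinset.2 hy⟩ ⟨_, hK', List.mem_toFinset.2 hx⟩ hxy]
      exact hy
  have hperm' : l.Perm l' := List.perm_of_nodup_nodup_toFinset_eq (hl.imp ne_of_lt)
    (hl'.imp ne_of_lt) hset
  have hll : l = l' := List.Perm.eq_of_pairwise (fun a b _ _ h1 h2 => absurd h1 (lt_asymm h2))
    hl hl' hperm'
  rw [hGl, hFl, hll]

end Pool.Agent.MK
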