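import Pool.Agent.MK.Final
import Pool.Agent.MKG.SCAll

/-! Module MK/Final2. As MK/Final, without the condition that `R` has finite fundamental group. -/

namespace Pool.Agent.MK

open Pool.Agent.DT70 Pool.Agent.MKE

theorem final2
    (hfam : ∀ (m : ℕ) (rels : List (List (ℕ × Bool))), (∀ r ∈ rels, Let m r) →
      ∃ (q₀ v₀ : P) (XX : ℕ → List (ℕ × Bool) → Set P) (bound : List (ℕ × Bool) → ℕ) (c : ℕ → P)
        (cells : ℕ → List (ℕ × Bool) → List (List ℕ)), Fam m rels q₀ v₀ XX bound c cells) :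
    ∃ (p : ℕ → Prop) (X : Set P) (A : Code) (M : ℕ → Code),
      (REPred p ∧ ∀ q : ℕ → Prop, REPred q → q ≤₀ p) ∧
      (X.Finite ∧ CubeBoundary X A ∧ Marked false A ∧ SimplyConnectedSpace (real A)) ∧
      (Computable M ∧ ∀ n, Marked false (M n) ∧ (p n → Rel PLOn (M n) A) ∧
        (¬ p n → ¬ SimplyConnectedSpace (real (M n)))) ∧
      ∀ (b : Bool) (R R' : Code), Marked b R → Marked b R' → Rel Cont R R' →
        ¬ PLHomeo (cs A R) (cs A R') →
        (∀ n, Nonempty (real (du (cs A R) (cs (M n) R')) ≃ₜ real (du (cs A R') (cs (M n) R))) ∧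
          (PLHomeo (du (cs A R) (cs (M n) R')) (du (cs A R') (cs (M n) R)) ↔ p n)) ∧
        ¬ ∃ f, Solves b f := by
  obtain ⟨p, m, rels, u0, u, hre, hcomp, hnc, hu, hlr, hl0, hlu, h1, h2, h3⟩ := words
  obtain ⟨q₀, v₀, XX, bound, c, cells, hF⟩ := hfam m rels hlr
  obtain ⟨X, A, M, hXf, hXc, hXd, ⟨ν, hν, hν'⟩, hA, hAs, hM, hMm, hMp, hMn⟩ :=
    exists_family hu hl0 hlu h1 h2 h3 hF
  refine ⟨p, X, A, M, ⟨hre, hcomp⟩, ⟨hXf, ⟨ν, fun x hx y hy h => hν x y hx hy h, hν'⟩, hA, hAs⟩,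
    ⟨hM, fun n => ⟨hMm n, hMp n, hMn n⟩⟩, ?_⟩
  intro b R R' hR hR' hRR hne
  have hA' : Marked b A := marked_mono hA
  have hK : ∀ n, Marked b (M n) := fun n => marked_mono (hMm n)
  have key : ∀ n, Nonempty (real (du (cs A R) (cs (M n) R')) ≃ₜ
      real (du (cs A R') (cs (M n) R))) ∧
      (PLHomeo (du (cs A R) (cs (M n) R')) (du (cs A R') (cs (M n) R)) ↔ p n) := by
    intro n
    refine ⟨swap_always hA' (hK n) hR hR' hRR, ?_⟩
    constructor
    · intro hpl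
      by_contra hn
      rcases du_components2 (cs_conn hA' hR) (cs_conn (hK n) hR') (cs_conn hA' hR')
        (cs_conn (hK n) hR) hpl with ⟨h, -⟩ | ⟨h, -⟩
      · exact hne h
      · exact hMn n hn (Pool.Agent.MKG.sc_of_sum_all hA' (hK n) hR (PLHomeo_symm h) hAs)
    · intro hn
      have hr := hMp n hn
      obtain ⟨v, w, hvw⟩ := du_swap (cs (M n) R) (cs A R')
      obtain ⟨f2, g2, hfg⟩ := du_iso cls_pl (PLHomeo_symm (cs_left cls_pl (hK n) hA' hR hr))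
        (cs_left cls_pl (hK n) hA' hR' hr)
      exact ⟨_, _, hfg.trans cls_pl hvw⟩
  refine ⟨key, ?_⟩
  rintro ⟨f, hf, hsol⟩
  refine hnc (decides hf (pairs_computable (A := A) (R := R) (R' := R') hM) fun n => ?_)
  obtain ⟨d, hd, hd'⟩ := hsol _ _ (du_mfd (cs_mfd hA' hR) (cs_mfd (hK n) hR'))
    (du_mfd (cs_mfd hA' hR') (cs_mfd (hK n) hR)) (key n).1
  exact ⟨d, hd, hd'.trans (key n).2⟩

end Pool.Agent.MK
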