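import Pool.Agent.MK.Kuhn
import Pool.Agent.MK.Tab

/-! Module MK/Cert. The tables of `MK/Tab.lean` in terms of permutations.

A set of directions D is coded by mk D = Σ_{j ∈ D} 2^j < 32; testBit (mk D) j iff j ∈ D; mk is
injective. The simplex π is coded by M π = Σ_{k<6} 2^(mk (pre π k)) = `cmask (π 0) .. (π 4)`
(the six numbers mk (pre π k) are distinct, mk (pre π k) = Σ_{j<k} 2^(π j)), so
testBit (M π) m iff m = mk (pre π k) for some k < 6; M π = M ρ iff π = ρ. `bitOne j`, `bitZero j` (j < 5)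
are < 2^32 and for m < 32 testBit (bitOne j) m iff testBit m j, testBit (bitZero j) m iff not
testBit m j (decide). `dis a b = false` gives m with testBit a m and testBit b m; `sub a b = true`
iff every bit of a is a bit of b (`Nat.testBit_land`, `Nat.eq_of_testBit_eq`).
(I) Let l be a list with pw l, full l and dis x.1 x.2 for all entries. For π let idx π be the first
index of an entry x π with lor x.1 x.2 = M π (full), Φ π = idx π,
R π = {k < 6 : testBit (x π).2 (mk (pre π k))}. Then for ρ ≠ π (so idx ρ ≠ idx π):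
 hA: if pre π k = pre ρ k for all k < 6, k ∉ R π, then sub (x π).1 (M ρ): a bit m of (x π).1 is a
 bit of M π, m = mk (pre π k), it is not a bit of (x π).2 (dis), so k ∉ R π and m = mk (pre ρ k) is a bit
 of M ρ. By pw, idx π < idx ρ is impossible. So Φ ρ < Φ π.
 hB: same with sub (x π).2 (M ρ): idx ρ < idx π is impossible.
`cert_canon`: apply (I) to tab n s (`pw_tab`, `okE_tab`, `full_tab`); the other fields are the
 clauses of `okE`, e.g. a common bit m of (x π).1 and bitOne j is m = mk (pre π k) with j ∈ pre π k,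
 and k ∉ R π. For j : Fin 5, j ≠ 4 means j < 4; j ∉ C means not j < n.
`cert_base`: (I) for tabB; Φ, R as in (I), π₀ = the permutation of the first entry (for which R is
 empty). A permutation π ≠ π₀ has its first matching entry in tabB.tail, okB: bits 0 = mk ∅ = mk (pre π 0)
 and 31 = mk (pre π 5) of the A-part say 0 ∉ R π, 5 ∉ R π. (2147483648 = 2^31.)
 To find π₀: full, or take π₀ = 1 and check M 1 = first entry (the first entry of tabB is the
 identity order: A-part 1 + 2 + 2^3 + 2^7 + 2^15 + 2^31).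
`cert_exists`: let n = C.card ≤ 4 and let g be a permutation of Fin 5 with g 4 = i which maps
 {j : j < n} onto C. Take Φ' π = Φ (π.trans g.symm), R' π = R (π.trans g.symm):
 j ∈ pre (π.trans g.symm) k iff g j ∈ pre π k.
-/

namespace Pool.Agent.MK

open Pool.Agent.DT70

/-- A shelling of the cube relative to the facets `x_i = 0` (`s = true`) or `x_i = 1`
(`s = false`) and the facets `x_j = 0, 1` for `j ∈ C`: the rank `Φ` of the simplices, and the
indices `R π` of the vertices of the R-part of the simplex `π`. -/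
structure Cert (C : Finset (Fin 5)) (i : Fin 5) (s : Bool) (Φ : Equiv.Perm (Fin 5) → ℕ)
    (R : Equiv.Perm (Fin 5) → Finset ℕ) : Prop where
  sub : ∀ π, R π ⊆ Finset.range 6
  ne : ∀ π, (R π).Nonempty
  ne' : ∀ π, ∃ k < 6, k ∉ R π
  hA : ∀ π ρ, ρ ≠ π → (∀ k < 6, k ∉ R π → pre π k = pre ρ k) → Φ ρ < Φ π
  hB : ∀ π ρ, ρ ≠ π → (∀ k ∈ R π, pre π k = pre ρ k) → Φ π < Φ ρ
  nA : ∀ π j, j ∉ C → j ≠ i →
    (∃ k < 6, k ∉ R π ∧ j ∈ pre π k) ∧ ∃ k < 6, k ∉ R π ∧ j ∉ pre π k
  iA : ∀ π, ∃ k < 6, k ∉ R π ∧ (i ∈ pre π k ↔ s = false)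
  iB : ∀ π, ∃ k ∈ R π, (i ∈ pre π k ↔ s = true)
  cB : ∀ π, ∀ j ∈ C, (∃ k ∈ R π, j ∈ pre π k) ∧ ∃ k ∈ R π, j ∉ pre π k

/-- The code of a set of directions. -/
private def mk27 (D : Finset (Fin 5)) : ℕ :=
  (if (0 : Fin 5) ∈ D then 1 else 0) + (if (1 : Fin 5) ∈ D then 2 else 0) +
    (if (2 : Fin 5) ∈ D then 4 else 0) + (if (3 : Fin 5) ∈ D then 8 else 0) +
    (if (4 : Fin 5) ∈ D then 16 else 0)

private theorem mk27_lt (D : Finset (Fin 5)) : mk27 D < 32 := by
  unfold mk27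
  split_ifs <;> omega

private theorem bitOne27 : ∀ (j : Fin 5) (D : Finset (Fin 5)),
    (bitOne j).testBit (mk27 D) = decide (j ∈ D) := by
  decide +kernel

private theorem bitZero27 : ∀ (j : Fin 5) (D : Finset (Fin 5)),
    (bitZero j).testBit (mk27 D) = decide (j ∉ D) := by
  decide +kernel

private theorem insert27 : ∀ (a : Fin 5) (D : Finset (Fin 5)), a ∉ D →
    mk27 (insert a D) = mk27 D + 2 ^ (a : ℕ) := by
  decide +kernel

private theorem mk27_inj {D E : Finset (Fin 5)} (h : mk27 D = mk27 E) : D = E := by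
  ext j
  have h1 := bitOne27 j D
  have h2 := bitOne27 j E
  rw [h, h2] at h1
  simpa using h1.symm

private theorem mem_pre27 {π : Equiv.Perm (Fin 5)} {k : ℕ} {i : Fin 5} :
    i ∈ pre π k ↔ (π.symm i : ℕ) < k := by
  simp [pre]

private theorem pre27_zero (π : Equiv.Perm (Fin 5)) : pre π 0 = ∅ := by
  ext i
  simp [mem_pre27]

private theorem pre27_succ (π : Equiv.Perm (Fin 5)) (k : Fin 5) :
    pre π ((k : ℕ) + 1) = insert (π k) (pre π k) := by
  ext i
  rw [Finset.mem_insert, mem_pre27, mem_pre27, Nat.lt_succ_iff_lt_or_eq, or_comm]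
  constructor
  · rintro (h | h)
    · left
      rw [← Fin.ext h]
      simp
    · exact Or.inr h
  · rintro (h | h)
    · left
      rw [h]
      simp
    · exact Or.inr h

private theorem mk27_succ (π : Equiv.Perm (Fin 5)) (k : Fin 5) :
    mk27 (pre π ((k : ℕ) + 1)) = mk27 (pre π k) + 2 ^ (π k : ℕ) := by
  rw [pre27_succ]
  refine insert27 _ _ ?_
  rw [mem_pre27]
  simp

/-- The code of a simplex. -/
private def M27 (π : Equiv.Perm (Fin 5)) : ℕ := cmask (π 0) (π 1) (π 2) (π 3) (π 4)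

private theorem cmask27 : ((List.range 5).all fun a => (List.range 5).all fun b => a == b ||
    (List.range 5).all fun c => a == c || b == c ||
      (List.range 5).all fun d => a == d || b == d || c == d ||
        (List.range 5).all fun e => a == e || b == e || c == e || d == e ||
          ((List.range 32).all fun m => ((cmask a b c d e).testBit m) ==
            (m == 0 || m == 2 ^ a || m == 2 ^ a + 2 ^ b || m == 2 ^ a + 2 ^ b + 2 ^ c ||
              m == 2 ^ a + 2 ^ b + 2 ^ c + 2 ^ d || m == 2 ^ a + 2 ^ b + 2 ^ c + 2 ^ d + 2 ^ e)) &&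
            decide (cmask a b c d e < 2 ^ 32)) = true := by
  decide +kernel

private theorem ne27 (π : Equiv.Perm (Fin 5)) {i j : Fin 5} (h : i ≠ j) :
    ((π i : ℕ) == (π j : ℕ)) = false := by
  rw [beq_eq_false_iff_ne]
  intro h1
  exact h (π.injective (Fin.ext h1))

private theorem M27_bits (π : Equiv.Perm (Fin 5)) (m : ℕ) :
    (M27 π).testBit m = true ↔ ∃ k < 6, m = mk27 (pre π k) := by
  have h := cmask27
  rw [List.all_eq_true] at h
  have h := h (π 0) (List.mem_range.2 (π 0).isLt)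
  rw [List.all_eq_true] at h
  have h := h (π 1) (List.mem_range.2 (π 1).isLt)
  rw [ne27 π (show (0 : Fin 5) ≠ 1 by decide), Bool.false_or, List.all_eq_true] at h
  have h := h (π 2) (List.mem_range.2 (π 2).isLt)
  rw [ne27 π (show (0 : Fin 5) ≠ 2 by decide), ne27 π (show (1 : Fin 5) ≠ 2 by decide),
    Bool.false_or, Bool.false_or, List.all_eq_true] at h
  have h := h (π 3) (List.mem_range.2 (π 3).isLt)
  rw [ne27 π (show (0 : Fin 5) ≠ 3 by decide), ne27 π (show (1 : Fin 5) ≠ 3 by decide),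
    ne27 π (show (2 : Fin 5) ≠ 3 by decide),
    Bool.false_or, Bool.false_or, Bool.false_or, List.all_eq_true] at h
  have h := h (π 4) (List.mem_range.2 (π 4).isLt)
  rw [ne27 π (show (0 : Fin 5) ≠ 4 by decide), ne27 π (show (1 : Fin 5) ≠ 4 by decide),
    ne27 π (show (2 : Fin 5) ≠ 4 by decide), ne27 π (show (3 : Fin 5) ≠ 4 by decide),
    Bool.false_or, Bool.false_or, Bool.false_or, Bool.false_or, Bool.and_eq_true,
    List.all_eq_true, decide_eq_true_iff] at h
  obtain ⟨h1, h2⟩ := h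
  have e0 : mk27 (pre π 0) = 0 := by rw [pre27_zero]; rfl
  have e1 : mk27 (pre π 1) = 2 ^ (π 0 : ℕ) := by
    have := mk27_succ π 0
    simpa [e0] using this
  have e2 : mk27 (pre π 2) = 2 ^ (π 0 : ℕ) + 2 ^ (π 1 : ℕ) := by
    have := mk27_succ π 1
    simpa [e1] using this
  have e3 : mk27 (pre π 3) = 2 ^ (π 0 : ℕ) + 2 ^ (π 1 : ℕ) + 2 ^ (π 2 : ℕ) := by
    have := mk27_succ π 2
    simpa [e2] using this
  have e4 : mk27 (pre π 4) = 2 ^ (π 0 : ℕ) + 2 ^ (π 1 : ℕ) + 2 ^ (π 2 : ℕ) + 2 ^ (π 3 : ℕ) := by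
    have := mk27_succ π 3
    simpa [e3] using this
  have e5 : mk27 (pre π 5) =
      2 ^ (π 0 : ℕ) + 2 ^ (π 1 : ℕ) + 2 ^ (π 2 : ℕ) + 2 ^ (π 3 : ℕ) + 2 ^ (π 4 : ℕ) := by
    have := mk27_succ π 4
    simpa [e4] using this
  have hex : (∃ k < 6, m = mk27 (pre π k)) ↔ m = mk27 (pre π 0) ∨ m = mk27 (pre π 1) ∨
      m = mk27 (pre π 2) ∨ m = mk27 (pre π 3) ∨ m = mk27 (pre π 4) ∨ m = mk27 (pre π 5) := by
    constructor
    · rintro ⟨k, hk, rfl⟩
      interval_cases k <;> simp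
    · rintro (h | h | h | h | h | h)
      · exact ⟨0, by norm_num, h⟩
      · exact ⟨1, by norm_num, h⟩
      · exact ⟨2, by norm_num, h⟩
      · exact ⟨3, by norm_num, h⟩
      · exact ⟨4, by norm_num, h⟩
      · exact ⟨5, by norm_num, h⟩
  by_cases hm : m < 32
  · have h3 := h1 m (List.mem_range.2 hm)
    rw [beq_iff_eq] at h3
    unfold M27
    rw [h3, hex, e0, e1, e2, e3, e4, e5]
    simp only [Bool.or_eq_true, beq_iff_eq, or_assoc]
  · constructor
    · intro h4
      exfalso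
      unfold M27 at h4
      have h5 : (cmask (π 0) (π 1) (π 2) (π 3) (π 4)).testBit m = false :=
        Nat.testBit_lt_two_pow (h2.trans_le (Nat.pow_le_pow_right (by norm_num) (by omega)))
      rw [h5] at h4
      exact Bool.noConfusion h4
    · rintro ⟨k, hk, rfl⟩
      exact absurd (mk27_lt _) hm

private theorem M27_inj {π ρ : Equiv.Perm (Fin 5)} (h : M27 π = M27 ρ) : π = ρ := by
  have hsub : ∀ π ρ : Equiv.Perm (Fin 5), M27 π = M27 ρ → sig 0 π ⊆ sig 0 ρ := by
    intro π ρ h x hx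
    rw [mem_sig] at hx
    obtain ⟨k, hk, rfl⟩ := hx
    rw [vtx_mem_sig hk]
    have h1 : (M27 ρ).testBit (mk27 (pre π k)) = true := by
      rw [← h, M27_bits]
      exact ⟨k, hk, rfl⟩
    obtain ⟨l, hl, h2⟩ := (M27_bits ρ _).1 h1
    have h3 := mk27_inj h2
    have h4 : k = l := by
      rw [← pre_card π (show k ≤ 5 by omega), ← pre_card ρ (show l ≤ 5 by omega), h3]
    rw [h3, h4]
  exact (sig_inj (q := 0) (q' := 0) (Finset.Subset.antisymm (hsub π ρ h) (hsub ρ π h.symm))).2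

private theorem dis27_true {a b : ℕ} (h : dis a b = true) (m : ℕ) (ha : a.testBit m = true) :
    b.testBit m = false := by
  unfold dis at h
  have h1 : Nat.land a b = 0 := Nat.eq_of_beq_eq_true h
  have h2 : (a &&& b).testBit m = false := by
    change (Nat.land a b).testBit m = false
    rw [h1]; simp
  rw [Nat.testBit_and, ha] at h2
  simpa using h2

private theorem dis27_false {a b : ℕ} (h : (!(dis a b)) = true) :
    ∃ m, a.testBit m = true ∧ b.testBit m = true := by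
  by_contra hcon
  push Not at hcon
  have h1 : Nat.land a b = 0 := by
    apply Nat.eq_of_testBit_eq
    intro m
    change (a &&& b).testBit m = _
    rw [Nat.testBit_and, Nat.zero_testBit]
    by_cases ha : a.testBit m = true
    · have := hcon m ha
      simp [this]
    · simp [ha]
  unfold dis at h
  rw [h1] at h
  simp at h

private theorem sub27_iff {a b : ℕ} :
    Pool.Agent.MK.sub a b = true ↔ ∀ m, a.testBit m = true → b.testBit m = true := by
  unfold Pool.Agent.MK.sub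
  constructor
  · intro h m ha
    have h1 : Nat.land a b = a := Nat.eq_of_beq_eq_true h
    have h2 : (a &&& b).testBit m = a.testBit m := by
      change (Nat.land a b).testBit m = a.testBit m
      rw [h1]
    rw [Nat.testBit_and, ha] at h2
    simpa using h2
  · intro h
    have h1 : Nat.land a b = a := by
      apply Nat.eq_of_testBit_eq
      intro m
      change (a &&& b).testBit m = _
      rw [Nat.testBit_and]
      by_cases ha : a.testBit m = true
      · simp [ha, h m ha]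
      · simp [ha]
    rw [h1]
    exact Nat.beq_refl a

private theorem pw27 : ∀ (l : List (ℕ × ℕ)), pw l = true → ∀ i j (hij : i < j)
    (hj : j < l.length), Pool.Agent.MK.sub (l[i]'(hij.trans hj)).1
      (Nat.lor (l[j]'hj).1 (l[j]'hj).2) = false ∧
      Pool.Agent.MK.sub (l[j]'hj).2
        (Nat.lor (l[i]'(hij.trans hj)).1 (l[i]'(hij.trans hj)).2) = false := by
  intro l
  induction l with
  | nil => intro _ i j _ hj; simp at hj
  | cons x l ih =>
    intro h i j hij hj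
    rw [pw, Bool.and_eq_true, List.all_eq_true] at h
    obtain ⟨h1, h2⟩ := h
    cases j with
    | zero => omega
    | succ j =>
      have hj' : j < l.length := by simpa using hj
      cases i with
      | zero =>
        have h3 := h1 (l[j]) (List.getElem_mem hj')
        rw [Bool.and_eq_true, Bool.not_eq_true', Bool.not_eq_true'] at h3
        simpa using h3
      | succ i =>
        have h3 := ih h2 i j (by omega) hj'
        simpa using h3

private theorem full27 {l : List (ℕ × ℕ)} (h : full l = true) (π : Equiv.Perm (Fin 5)) :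
    ∃ x ∈ l, Nat.lor x.1 x.2 = M27 π := by
  unfold full at h
  rw [List.all_eq_true] at h
  have h := h (π 0) (List.mem_range.2 (π 0).isLt)
  rw [List.all_eq_true] at h
  have h := h (π 1) (List.mem_range.2 (π 1).isLt)
  rw [ne27 π (show (0 : Fin 5) ≠ 1 by decide), Bool.false_or, List.all_eq_true] at h
  have h := h (π 2) (List.mem_range.2 (π 2).isLt)
  rw [ne27 π (show (0 : Fin 5) ≠ 2 by decide), ne27 π (show (1 : Fin 5) ≠ 2 by decide),
    Bool.false_or, Bool.false_or, List.all_eq_true] at h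
  have h := h (π 3) (List.mem_range.2 (π 3).isLt)
  rw [ne27 π (show (0 : Fin 5) ≠ 3 by decide), ne27 π (show (1 : Fin 5) ≠ 3 by decide),
    ne27 π (show (2 : Fin 5) ≠ 3 by decide),
    Bool.false_or, Bool.false_or, Bool.false_or, List.all_eq_true] at h
  have h := h (π 4) (List.mem_range.2 (π 4).isLt)
  rw [ne27 π (show (0 : Fin 5) ≠ 4 by decide), ne27 π (show (1 : Fin 5) ≠ 4 by decide),
    ne27 π (show (2 : Fin 5) ≠ 4 by decide), ne27 π (show (3 : Fin 5) ≠ 4 by decide),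
    Bool.false_or, Bool.false_or, Bool.false_or, Bool.false_or, List.any_eq_true] at h
  obtain ⟨x, hx, h1⟩ := h
  exact ⟨x, hx, Nat.eq_of_beq_eq_true h1⟩

/-- Part (I). -/
private theorem main27 {l : List (ℕ × ℕ)} (hpw : pw l = true) (hfull : full l = true) :
    ∃ (Φ : Equiv.Perm (Fin 5) → ℕ) (X : Equiv.Perm (Fin 5) → ℕ × ℕ),
      (∀ π, l[Φ π]? = some (X π)) ∧ (∀ π, Nat.lor (X π).1 (X π).2 = M27 π) ∧
      (∀ π x, l[0]? = some x → Nat.lor x.1 x.2 = M27 π → Φ π = 0) ∧
      (∀ π ρ, ρ ≠ π → Pool.Agent.MK.sub (X π).1 (M27 ρ) = true → Φ ρ < Φ π) ∧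
      (∀ π ρ, ρ ≠ π → Pool.Agent.MK.sub (X π).2 (M27 ρ) = true → Φ π < Φ ρ) := by
  classical
  have hex : ∀ π : Equiv.Perm (Fin 5), ∃ i : ℕ, ∃ x : ℕ × ℕ,
      l[i]? = some x ∧ Nat.lor x.1 x.2 = M27 π := by
    intro π
    obtain ⟨x, hx, h⟩ := full27 hfull π
    obtain ⟨i, hi, rfl⟩ := List.mem_iff_getElem.1 hx
    exact ⟨i, l[i], List.getElem?_eq_getElem hi, h⟩
  have hspec : ∀ π, ∃ x, l[Nat.find (hex π)]? = some x ∧ Nat.lor x.1 x.2 = M27 π :=
    fun π => Nat.find_spec (hex π)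
  choose X hX1 hX2 using hspec
  have hne : ∀ π ρ : Equiv.Perm (Fin 5), ρ ≠ π → Nat.find (hex ρ) ≠ Nat.find (hex π) := by
    intro π ρ h1 h2
    apply h1
    have h3 := hX1 ρ
    rw [h2, hX1 π] at h3
    apply M27_inj
    rw [← hX2 ρ, ← hX2 π, Option.some.inj h3]
  refine ⟨fun π => Nat.find (hex π), X, hX1, hX2, ?_, ?_, ?_⟩
  · intro π x hx h
    exact (Nat.find_eq_zero (hex π)).2 ⟨x, hx, h⟩
  · intro π ρ h1 h2
    rcases lt_trichotomy (Nat.find (hex ρ)) (Nat.find (hex π)) with h | h | h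
    · exact h
    · exact absurd h (hne π ρ h1)
    · exfalso
      obtain ⟨hi, hi'⟩ := List.getElem?_eq_some_iff.1 (hX1 π)
      obtain ⟨hj, hj'⟩ := List.getElem?_eq_some_iff.1 (hX1 ρ)
      have h3 := (pw27 l hpw _ _ h hj).1
      rw [hi', hj', hX2 ρ, h2] at h3
      exact Bool.noConfusion h3
  · intro π ρ h1 h2
    rcases lt_trichotomy (Nat.find (hex π)) (Nat.find (hex ρ)) with h | h | h
    · exact h
    · exact absurd h.symm (hne π ρ h1)
    · exfalso
      obtain ⟨hi, hi'⟩ := List.getElem?_eq_some_iff.1 (hX1 π)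
      obtain ⟨hj, hj'⟩ := List.getElem?_eq_some_iff.1 (hX1 ρ)
      have h3 := (pw27 l hpw _ _ h hi).2
      rw [hi', hj', hX2 ρ, h2] at h3
      exact Bool.noConfusion h3

/-- The R-part. -/
private def RR27 (x : ℕ × ℕ) (π : Equiv.Perm (Fin 5)) : Finset ℕ :=
  (Finset.range 6).filter fun k => x.2.testBit (mk27 (pre π k)) = true

private theorem mem_RR27 {x : ℕ × ℕ} {π : Equiv.Perm (Fin 5)} {k : ℕ} :
    k ∈ RR27 x π ↔ k < 6 ∧ x.2.testBit (mk27 (pre π k)) = true := by
  simp [RR27]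

private theorem lor27 {x : ℕ × ℕ} {π : Equiv.Perm (Fin 5)} (h : Nat.lor x.1 x.2 = M27 π) (m : ℕ)
    (hm : x.1.testBit m = true ∨ x.2.testBit m = true) : ∃ k < 6, m = mk27 (pre π k) := by
  rw [← M27_bits, ← h]
  change (x.1 ||| x.2).testBit m = true
  rw [Nat.testBit_or]
  simpa using hm

/-- A bit of the A-part. -/
private theorem bitA27 {x : ℕ × ℕ} {π : Equiv.Perm (Fin 5)} (h : Nat.lor x.1 x.2 = M27 π)
    (hd : dis x.1 x.2 = true) {m : ℕ} (hm : x.1.testBit m = true) :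
    ∃ k < 6, k ∉ RR27 x π ∧ m = mk27 (pre π k) := by
  obtain ⟨k, hk, rfl⟩ := lor27 h m (Or.inl hm)
  refine ⟨k, hk, ?_, rfl⟩
  rw [mem_RR27]
  rintro ⟨-, h2⟩
  rw [dis27_true hd _ hm] at h2
  exact Bool.noConfusion h2

/-- A bit of the R-part. -/
private theorem bitR27 {x : ℕ × ℕ} {π : Equiv.Perm (Fin 5)} (h : Nat.lor x.1 x.2 = M27 π)
    {m : ℕ} (hm : x.2.testBit m = true) :
    ∃ k ∈ RR27 x π, m = mk27 (pre π k) := by
  obtain ⟨k, hk, rfl⟩ := lor27 h m (Or.inr hm)
  exact ⟨k, mem_RR27.2 ⟨hk, hm⟩, rfl⟩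

private theorem subA27 {x : ℕ × ℕ} {π ρ : Equiv.Perm (Fin 5)} (h : Nat.lor x.1 x.2 = M27 π)
    (hd : dis x.1 x.2 = true) (hp : ∀ k < 6, k ∉ RR27 x π → pre π k = pre ρ k) :
    Pool.Agent.MK.sub x.1 (M27 ρ) = true := by
  rw [sub27_iff]
  intro m hm
  obtain ⟨k, hk, hk', rfl⟩ := bitA27 h hd hm
  rw [M27_bits]
  exact ⟨k, hk, by rw [hp k hk hk']⟩

private theorem subR27 {x : ℕ × ℕ} {π ρ : Equiv.Perm (Fin 5)} (h : Nat.lor x.1 x.2 = M27 π)
    (hp : ∀ k ∈ RR27 x π, pre π k = pre ρ k) :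
    Pool.Agent.MK.sub x.2 (M27 ρ) = true := by
  rw [sub27_iff]
  intro m hm
  obtain ⟨k, hk, rfl⟩ := bitR27 h hm
  rw [M27_bits]
  exact ⟨k, (mem_RR27.1 hk).1, by rw [hp k hk]⟩

private theorem nonzero27 {a : ℕ} (h : (!(Nat.beq a 0)) = true) : ∃ m, a.testBit m = true := by
  by_contra hcon
  push Not at hcon
  have h1 : a = 0 := by
    apply Nat.eq_of_testBit_eq
    intro m
    rw [Nat.zero_testBit]
    simpa using hcon m
  rw [h1] at h
  simp at h

theorem cert_canon (n : ℕ) (hn : n ≤ 4) (s : Bool) :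
    ∃ Φ R, Cert (Finset.univ.filter (fun j : Fin 5 => (j : ℕ) < n)) 4 s Φ R := by
  have hnr : n ∈ List.range 5 := List.mem_range.2 (by omega)
  have h1 := pw_tab
  have h2 := okE_tab
  have h3 := full_tab
  rw [List.all_eq_true] at h1 h2 h3
  have h1 := h1 n hnr
  have h2 := h2 n hnr
  have h3 := h3 n hnr
  rw [Bool.and_eq_true] at h1 h2 h3
  have hpw : pw (tab n s) = true := by
    cases s
    · exact h1.2
    · exact h1.1
  have hok : (tab n s).all (okE n s) = true := by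
    cases s
    · exact h2.2
    · exact h2.1
  have hfull : full (tab n s) = true := by
    cases s
    · exact h3.2
    · exact h3.1
  rw [List.all_eq_true] at hok
  obtain ⟨Φ, X, hX1, hX2, -, hA, hB⟩ := main27 hpw hfull
  have hokX : ∀ π, okE n s (X π) = true := fun π => hok _ (List.mem_of_getElem? (hX1 π))
  have hparts : ∀ π, dis (X π).1 (X π).2 = true ∧ (!(Nat.beq (X π).1 0)) = true ∧
      (!(Nat.beq (X π).2 0)) = true ∧
      (∀ j < 4, (if j < n then !(dis (X π).2 (bitOne j)) && !(dis (X π).2 (bitZero j))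
        else !(dis (X π).1 (bitOne j)) && !(dis (X π).1 (bitZero j))) = true) ∧
      (if s then !(dis (X π).1 (bitZero 4)) && !(dis (X π).2 (bitOne 4))
        else !(dis (X π).1 (bitOne 4)) && !(dis (X π).2 (bitZero 4))) = true := by
    intro π
    have h := hokX π
    unfold okE at h
    simp only [Bool.and_eq_true] at h
    obtain ⟨⟨⟨⟨ha, hb⟩, hc⟩, hd⟩, he⟩ := h
    refine ⟨ha, hb, hc, ?_, ?_⟩
    · intro j hj
      rw [List.all_eq_true] at hd
      exact hd j (List.mem_range.2 hj)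
    · cases s <;> simpa using he
  refine ⟨Φ, fun π => RR27 (X π) π, ?_⟩
  refine ⟨?_, ?_, ?_, ?_, ?_, ?_, ?_, ?_, ?_⟩
  · intro π
    exact Finset.filter_subset _ _
  · intro π
    obtain ⟨m, hm⟩ := nonzero27 (hparts π).2.2.1
    obtain ⟨k, hk, -⟩ := bitR27 (hX2 π) hm
    exact ⟨k, hk⟩
  · intro π
    obtain ⟨m, hm⟩ := nonzero27 (hparts π).2.1
    obtain ⟨k, hk, hk', -⟩ := bitA27 (hX2 π) (hparts π).1 hm
    exact ⟨k, hk, hk'⟩
  · intro π ρ hρ h
    exact hA π ρ hρ (subA27 (hX2 π) (hparts π).1 h)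
  · intro π ρ hρ h
    exact hB π ρ hρ (subR27 (hX2 π) h)
  · intro π j hj hj4
    have hjn : ¬ (j : ℕ) < n := by simpa using hj
    have hj4' : (j : ℕ) < 4 := by
      have := j.isLt
      have h5 : (j : ℕ) ≠ 4 := fun h => hj4 (Fin.ext h)
      omega
    have h := (hparts π).2.2.2.1 j hj4'
    rw [if_neg hjn, Bool.and_eq_true] at h
    obtain ⟨ha, hb⟩ := h
    constructor
    · obtain ⟨m, hm1, hm2⟩ := dis27_false ha
      obtain ⟨k, hk, hk', rfl⟩ := bitA27 (hX2 π) (hparts π).1 hm1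
      rw [bitOne27, decide_eq_true_iff] at hm2
      exact ⟨k, hk, hk', hm2⟩
    · obtain ⟨m, hm1, hm2⟩ := dis27_false hb
      obtain ⟨k, hk, hk', rfl⟩ := bitA27 (hX2 π) (hparts π).1 hm1
      rw [bitZero27, decide_eq_true_iff] at hm2
      exact ⟨k, hk, hk', hm2⟩
  · intro π
    have h := (hparts π).2.2.2.2
    cases s with
    | true =>
      simp only [if_true, Bool.and_eq_true] at h
      obtain ⟨m, hm1, hm2⟩ := dis27_false h.1
      obtain ⟨k, hk, hk', rfl⟩ := bitA27 (hX2 π) (hparts π).1 hm1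
      have hm3 := bitZero27 4 (pre π k)
      change (bitZero 4).testBit _ = _ at hm3
      rw [hm3, decide_eq_true_iff] at hm2
      exact ⟨k, hk, hk', by simp [hm2]⟩
    | false =>
      simp only [Bool.false_eq_true, if_false, Bool.and_eq_true] at h
      obtain ⟨m, hm1, hm2⟩ := dis27_false h.1
      obtain ⟨k, hk, hk', rfl⟩ := bitA27 (hX2 π) (hparts π).1 hm1
      have hm3 := bitOne27 4 (pre π k)
      change (bitOne 4).testBit _ = _ at hm3
      rw [hm3, decide_eq_true_iff] at hm2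
      exact ⟨k, hk, hk', by simp [hm2]⟩
  · intro π
    have h := (hparts π).2.2.2.2
    cases s with
    | true =>
      simp only [if_true, Bool.and_eq_true] at h
      obtain ⟨m, hm1, hm2⟩ := dis27_false h.2
      obtain ⟨k, hk, rfl⟩ := bitR27 (hX2 π) hm1
      have hm3 := bitOne27 4 (pre π k)
      change (bitOne 4).testBit _ = _ at hm3
      rw [hm3, decide_eq_true_iff] at hm2
      exact ⟨k, hk, by simp [hm2]⟩
    | false =>
      simp only [Bool.false_eq_true, if_false, Bool.and_eq_true] at h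
      obtain ⟨m, hm1, hm2⟩ := dis27_false h.2
      obtain ⟨k, hk, rfl⟩ := bitR27 (hX2 π) hm1
      have hm3 := bitZero27 4 (pre π k)
      change (bitZero 4).testBit _ = _ at hm3
      rw [hm3, decide_eq_true_iff] at hm2
      exact ⟨k, hk, by simp [hm2]⟩
  · intro π j hj
    have hjn : (j : ℕ) < n := by simpa using hj
    have hj4' : (j : ℕ) < 4 := by omega
    have h := (hparts π).2.2.2.1 j hj4'
    rw [if_pos hjn, Bool.and_eq_true] at h
    obtain ⟨ha, hb⟩ := h
    constructor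
    · obtain ⟨m, hm1, hm2⟩ := dis27_false ha
      obtain ⟨k, hk, rfl⟩ := bitR27 (hX2 π) hm1
      rw [bitOne27, decide_eq_true_iff] at hm2
      exact ⟨k, hk, hm2⟩
    · obtain ⟨m, hm1, hm2⟩ := dis27_false hb
      obtain ⟨k, hk, rfl⟩ := bitR27 (hX2 π) hm1
      rw [bitZero27, decide_eq_true_iff] at hm2
      exact ⟨k, hk, hm2⟩

private theorem pre27_five (π : Equiv.Perm (Fin 5)) : pre π 5 = Finset.univ := by
  ext i
  have := (π.symm i).isLt
  simp [mem_pre27]

private theorem disB27 : (tabB.all fun x => dis x.1 x.2) = true := by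
  decide +kernel

theorem cert_base : ∃ (π₀ : Equiv.Perm (Fin 5)) (Φ : Equiv.Perm (Fin 5) → ℕ)
    (R : Equiv.Perm (Fin 5) → Finset ℕ), ∀ π, π ≠ π₀ →
      R π ⊆ Finset.range 6 ∧ (R π).Nonempty ∧ 0 ∉ R π ∧ 5 ∉ R π ∧
      (∀ ρ, ρ ≠ π → (∀ k < 6, k ∉ R π → pre π k = pre ρ k) → ρ = π₀ ∨ Φ ρ < Φ π) ∧
      (∀ ρ, ρ ≠ π → (∀ k ∈ R π, pre π k = pre ρ k) → ρ ≠ π₀ ∧ Φ π < Φ ρ) := by
  have h := tabB_ok
  simp only [Bool.and_eq_true] at h
  obtain ⟨⟨⟨hpw, hfull⟩, hok⟩, -⟩ := h
  have hd := disB27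
  rw [List.all_eq_true] at hok hd
  obtain ⟨Φ, X, hX1, hX2, h0, hA, hB⟩ := main27 hpw hfull
  have hdX : ∀ π, dis (X π).1 (X π).2 = true := fun π => hd _ (List.mem_of_getElem? (hX1 π))
  have hΦ1 : Φ 1 = 0 := h0 1 (2147516555, 0) rfl (by decide)
  have hΦ : ∀ π, π ≠ 1 → Φ π ≠ 0 := by
    intro π hπ h1
    apply hπ
    have h2 := hX1 π
    rw [h1, ← hΦ1, hX1 1] at h2
    apply M27_inj
    rw [← hX2 π, ← hX2 1, Option.some.inj h2]
  have hokX : ∀ π, π ≠ 1 → okB (X π) = true := by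
    intro π hπ
    apply hok
    obtain ⟨j, hj⟩ := Nat.exists_eq_succ_of_ne_zero (hΦ π hπ)
    have h2 := hX1 π
    rw [hj] at h2
    have h3 : tabB.tail[j]? = some (X π) := by
      rw [List.getElem?_tail]
      exact h2
    exact List.mem_of_getElem? h3
  refine ⟨1, Φ, fun π => RR27 (X π) π, ?_⟩
  intro π hπ
  have h := hokX π hπ
  unfold okB at h
  simp only [Bool.and_eq_true] at h
  obtain ⟨⟨⟨ha, hb⟩, hc⟩, he⟩ := h
  refine ⟨Finset.filter_subset _ _, ?_, ?_, ?_, ?_, ?_⟩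
  · obtain ⟨m, hm⟩ := nonzero27 hb
    obtain ⟨k, hk, -⟩ := bitR27 (hX2 π) hm
    exact ⟨k, hk⟩
  · rw [mem_RR27]
    rintro ⟨-, h1⟩
    have h2 : mk27 (pre π 0) = 0 := by rw [pre27_zero]; rfl
    rw [h2] at h1
    have h3 := (sub27_iff.1 hc) 0 (by decide)
    rw [dis27_true ha _ h3] at h1
    exact Bool.noConfusion h1
  · rw [mem_RR27]
    rintro ⟨-, h1⟩
    have h2 : mk27 (pre π 5) = 31 := by rw [pre27_five]; rfl
    rw [h2] at h1
    have h3 := (sub27_iff.1 he) 31 (by decide)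
    rw [dis27_true ha _ h3] at h1
    exact Bool.noConfusion h1
  · intro ρ hρ h
    exact Or.inr (hA π ρ hρ (subA27 (hX2 π) (hdX π) h))
  · intro ρ hρ h
    have h1 := hB π ρ hρ (subR27 (hX2 π) h)
    refine ⟨?_, h1⟩
    rintro rfl
    rw [hΦ1] at h1
    omega

private theorem exists_perm27 (C : Finset (Fin 5)) (i : Fin 5) (hi : i ∉ C) :
    C.card ≤ 4 ∧ ∃ g : Equiv.Perm (Fin 5), g 4 = i ∧ ∀ j : Fin 5, g j ∈ C ↔ (j : ℕ) < C.card := by
  classical
  have hcard : C.card ≤ 4 := by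
    have h1 : (insert i C).card ≤ (Finset.univ : Finset (Fin 5)).card :=
      Finset.card_le_card (Finset.subset_univ _)
    rw [Finset.card_insert_of_notMem hi, Finset.card_univ, Fintype.card_fin] at h1
    omega
  refine ⟨hcard, ?_⟩
  have hc : Fintype.card {j : Fin 5 // (j : ℕ) < C.card} = Fintype.card {x : Fin 5 // x ∈ C} := by
    rw [Fintype.card_coe]
    have h2 : ∀ n ≤ 4, Fintype.card {j : Fin 5 // (j : ℕ) < n} = n := by decide
    exact h2 _ hcard
  let e : {j : Fin 5 // (j : ℕ) < C.card} ≃ {x : Fin 5 // x ∈ C} := Fintype.equivOfCardEq hc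
  let g1 : Equiv.Perm (Fin 5) := e.extendSubtype
  have hg1 : ∀ j : Fin 5, g1 j ∈ C ↔ (j : ℕ) < C.card := by
    intro j
    constructor
    · intro h
      by_contra hcon
      exact Equiv.extendSubtype_not_mem e j hcon h
    · intro h
      exact Equiv.extendSubtype_mem e j h
  have h4 : g1 4 ∉ C := by
    rw [hg1]
    have : ((4 : Fin 5) : ℕ) = 4 := rfl
    omega
  refine ⟨g1.trans (Equiv.swap (g1 4) i), ?_, ?_⟩
  · simp
  · intro j
    rw [← hg1 j, Equiv.trans_apply]
    rcases eq_or_ne (g1 j) (g1 4) with h | h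
    · rw [h, Equiv.swap_apply_left]
      exact ⟨fun h' => absurd h' hi, fun h' => absurd h' h4⟩
    · rcases eq_or_ne (g1 j) i with h' | h'
      · rw [h', Equiv.swap_apply_right]
        exact ⟨fun h' => absurd h' h4, fun h' => absurd h' hi⟩
      · rw [Equiv.swap_apply_of_ne_of_ne h h']

theorem cert_exists (C : Finset (Fin 5)) (i : Fin 5) (hi : i ∉ C) (s : Bool) :
    ∃ Φ R, Cert C i s Φ R := by
  obtain ⟨hcard, g, hg4, hg⟩ := exists_perm27 C i hi
  obtain ⟨Φ, R, hc⟩ := cert_canon C.card hcard s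
  have hpre : ∀ (π : Equiv.Perm (Fin 5)) (k : ℕ) (j : Fin 5),
      j ∈ pre (π.trans g.symm) k ↔ g j ∈ pre π k := by
    intro π k j
    rw [mem_pre27, mem_pre27]
    rfl
  have hpre' : ∀ (π : Equiv.Perm (Fin 5)) (k : ℕ) (j : Fin 5),
      g.symm j ∈ pre (π.trans g.symm) k ↔ j ∈ pre π k := by
    intro π k j
    rw [hpre, Equiv.apply_symm_apply]
  have heq : ∀ (π ρ : Equiv.Perm (Fin 5)) (k : ℕ), pre π k = pre ρ k →
      pre (π.trans g.symm) k = pre (ρ.trans g.symm) k := by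
    intro π ρ k h
    ext j
    rw [hpre, hpre, h]
  have hne : ∀ π ρ : Equiv.Perm (Fin 5), ρ ≠ π → ρ.trans g.symm ≠ π.trans g.symm := by
    intro π ρ h h1
    apply h
    ext x
    have h2 := congrArg (fun σ : Equiv.Perm (Fin 5) => g (σ x)) h1
    simp only [Equiv.trans_apply, Equiv.apply_symm_apply] at h2
    rw [h2]
  have h4 : ∀ (π : Equiv.Perm (Fin 5)) (k : ℕ),
      (4 : Fin 5) ∈ pre (π.trans g.symm) k ↔ i ∈ pre π k := by
    intro π k
    rw [hpre, hg4]
  refine ⟨fun π => Φ (π.trans g.symm), fun π => R (π.trans g.symm), ?_⟩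
  refine ⟨fun π => hc.sub _, fun π => hc.ne _, fun π => hc.ne' _, ?_, ?_, ?_, ?_, ?_, ?_⟩
  · intro π ρ hρ h
    exact hc.hA _ _ (hne π ρ hρ) fun k hk hk' => heq _ _ _ (h k hk hk')
  · intro π ρ hρ h
    exact hc.hB _ _ (hne π ρ hρ) fun k hk => heq _ _ _ (h k hk)
  · intro π j hj hji
    have hj1 : g.symm j ∉ Finset.univ.filter (fun j : Fin 5 => (j : ℕ) < C.card) := by
      rw [Finset.mem_filter, not_and]
      intro _ h
      rw [← hg, Equiv.apply_symm_apply] at h
      exact hj h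
    have hj2 : g.symm j ≠ 4 := by
      intro h
      rw [Equiv.symm_apply_eq, hg4] at h
      exact hji h
    obtain ⟨⟨k, hk1, hk2, hk3⟩, k', hk1', hk2', hk3'⟩ := hc.nA (π.trans g.symm) _ hj1 hj2
    rw [hpre'] at hk3 hk3'
    exact ⟨⟨k, hk1, hk2, hk3⟩, k', hk1', hk2', hk3'⟩
  · intro π
    obtain ⟨k, hk1, hk2, hk3⟩ := hc.iA (π.trans g.symm)
    rw [h4] at hk3
    exact ⟨k, hk1, hk2, hk3⟩
  · intro π
    obtain ⟨k, hk1, hk2⟩ := hc.iB (π.trans g.symm)
    rw [h4] at hk2
    exact ⟨k, hk1, hk2⟩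
  · intro π j hj
    have hj1 : g.symm j ∈ Finset.univ.filter (fun j : Fin 5 => (j : ℕ) < C.card) := by
      rw [Finset.mem_filter]
      refine ⟨Finset.mem_univ _, ?_⟩
      rw [← hg, Equiv.apply_symm_apply]
      exact hj
    obtain ⟨⟨k, hk1, hk2⟩, k', hk1', hk2'⟩ := hc.cB (π.trans g.symm) _ hj1
    rw [hpre'] at hk2 hk2'
    exact ⟨⟨k, hk1, hk2⟩, k', hk1', hk2'⟩

end Pool.Agent.MK
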