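import Pool.Agent.MK.Chain
import Pool.Agent.MK.Cert
import Pool.Agent.MK.Eqv

/-! Module MK/Base. The boundary of a single cube is a combinatorial 4-manifold.

Take π₀, Φ, R from `cert_base`. σ₀ = sig v π₀, T = {σ₀}, S = {sig v π : π ≠ π₀},
T ∪ S = TS {v} (`exists_sig`). `chain` (S₀ = ∅) with R' σ = {vtx v π k : k ∈ R π}, Φ' σ = Φ π for
σ = sig v π:
hA: τ ⊇ σ∖R' σ ∋ v = vtx v π 0, v + 1 = vtx v π 5 (as 0, 5 ∉ R π). So min τ ≤ v and v + 1 ≤ min τ + 1
 (`sig_max` of τ), min τ = v, τ = sig v ρ, ρ ≠ π, pre π k = pre ρ k for k ∉ R π (`vtx_mem_sig`).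
 So ρ = π₀ (τ ∈ T) or Φ ρ < Φ π (and ρ ≠ π₀ or in T).
hB: τ = sig v ρ ⊇ R' σ, so ρ ≠ π₀ and Φ π < Φ ρ.
Hence FE ∅ (Bd {σ₀}) (K {v}), and by `fe_lks` it suffices that Lks false (im (Bd {σ₀})).
im (Bd {σ₀}) = bd (σ₀.image nu) (all facets of σ₀, `nu` injective), and σ₀.image nu has 6 elements.
For |G| = 6 and y ∈ G: lk y (bd G) = bd (G∖y) (the facets G∖x with x ≠ y, without y), and
`sph_bd (G.erase y)`.
-/

namespace Pool.Agent.MK

open Pool.Agent.DT70

theorem lks_bd (G : Finset ℕ) (hG : G.card = 6) : Lks false (bd G) := by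
  rintro y ⟨s, ⟨x, hx, rfl⟩, hy⟩
  left
  have hyG : y ∈ G := Finset.mem_of_mem_erase hy
  have h : lk y (bd G) = bd (G.erase y) := by
    ext t
    constructor
    · rintro ⟨s, ⟨z, hz, rfl⟩, hys, rfl⟩
      refine ⟨z, ?_, Finset.erase_right_comm⟩
      rw [Finset.mem_erase] at hys ⊢
      exact ⟨fun h => hys.1 h.symm, hz⟩
    · rintro ⟨z, hz, rfl⟩
      rw [Finset.mem_erase] at hz
      refine ⟨G.erase z, ⟨z, hz.2, rfl⟩, ?_, Finset.erase_right_comm⟩
      rw [Finset.mem_erase]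
      exact ⟨fun h => hz.1 h.symm, hyG⟩
  rw [h]
  apply sph_bd
  rw [Finset.card_erase_of_mem hyG, hG]

private theorem vtx_zero27 (v : P) (π : Equiv.Perm (Fin 5)) : vtx v π 0 = v := by
  funext i
  simp [vtx]

private theorem vtx_five27 (v : P) (π : Equiv.Perm (Fin 5)) : vtx v π 5 = v + 1 := by
  funext i
  have h : (π.symm i : ℕ) < 5 := (π.symm i).2
  simp [vtx, h]

private theorem bd_one27 (σ : Finset P) : im (Bd {σ}) = bd (σ.image nu) := by
  ext t
  constructor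
  · rintro ⟨s, ⟨F, hF, ⟨x, hx, rfl⟩, -⟩, rfl⟩
    rw [Set.mem_singleton_iff] at hF
    subst hF
    exact ⟨nu x, Finset.mem_image_of_mem nu hx, Finset.image_erase nu_injective F x⟩
  · rintro ⟨y, hy, rfl⟩
    obtain ⟨x, hx, rfl⟩ := Finset.mem_image.1 hy
    exact ⟨σ.erase x, ⟨σ, rfl, ⟨x, hx, rfl⟩, fun F' hF' _ => hF'⟩,
      (Finset.image_erase nu_injective σ x).symm⟩

theorem base_lks (v : P) : Lks false (im (K {v})) := by
  obtain ⟨π₀, Φ, R, hc⟩ := cert_base
  have hinj : Function.Injective (sig v) := fun π ρ h => (sig_inj h).2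
  obtain ⟨inv, hinv⟩ : ∃ inv : Finset P → Equiv.Perm (Fin 5), ∀ π, inv (sig v π) = π :=
    ⟨Function.invFun (sig v), Function.leftInverse_invFun hinj⟩
  have hTS : TS {v} = {sig v π₀} ∪ {σ | ∃ π, π ≠ π₀ ∧ σ = sig v π} := by
    ext F
    constructor
    · rintro ⟨hF, q, hq, hqF, hm⟩
      rw [Set.mem_singleton_iff] at hq
      subst hq
      obtain ⟨π, rfl⟩ := exists_sig hF hqF hm
      by_cases h : π = π₀
      · left
        rw [h]
        rfl
      · right
        exact ⟨π, h, rfl⟩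
    · rintro (h | ⟨π, -, rfl⟩)
      · rw [Set.mem_singleton_iff] at h
        subst h
        exact ⟨top_sig v π₀, v, rfl, (sig_min v π₀).1, (sig_min v π₀).2⟩
      · exact ⟨top_sig v π, v, rfl, (sig_min v π).1, (sig_min v π).2⟩
  have hmemR : ∀ π : Equiv.Perm (Fin 5), π ≠ π₀ → ∀ k < 6,
      vtx v π k ∈ (R π).image (vtx v π) → k ∈ R π := by
    intro π hπ k hk h
    obtain ⟨l, hl, hlk⟩ := Finset.mem_image.1 h
    have hl6 : l < 6 := Finset.mem_range.1 ((hc π hπ).1 hl)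
    have := (vtx_inj hl6 hk hlk).1
    rw [← this]
    exact hl
  have hsigmem : ∀ (π : Equiv.Perm (Fin 5)) (k : ℕ), k < 6 → vtx v π k ∈ sig v π :=
    fun π k hk => Finset.mem_image_of_mem _ (Finset.mem_range.2 hk)
  have key : FE ∅ (Bd {sig v π₀})
      (Bd ({sig v π₀} ∪ {σ | ∃ π, π ≠ π₀ ∧ σ = sig v π})) := by
    refine chain (R := fun σ => (R (inv σ)).image (vtx v (inv σ))) (Φ := fun σ => Φ (inv σ))
      ?_ ?_ ?_ ?_ ?_ ?_ ?_ (Set.empty_subset _) (Set.empty_subset _)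
    · refine (Set.finite_range (sig v)).subset ?_
      rintro _ ⟨π, -, rfl⟩
      exact ⟨π, rfl⟩
    · intro F hF
      rw [Set.mem_singleton_iff] at hF
      subst hF
      exact top_sig v π₀
    · rintro _ ⟨π, -, rfl⟩
      exact top_sig v π
    · rw [Set.disjoint_left]
      rintro F hF ⟨π, hπ, h⟩
      rw [Set.mem_singleton_iff] at hF
      rw [hF] at h
      exact hπ (hinj h).symm
    · rintro _ ⟨π, hπ, rfl⟩
      obtain ⟨h1, h2, h3, h4, h5, h6⟩ := hc π hπ
      simp only [hinv]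
      refine ⟨Finset.image_subset_image h1, h2.image _, vtx v π 0, ?_⟩
      rw [Finset.mem_sdiff]
      exact ⟨hsigmem π 0 (by norm_num), fun h => h3 (hmemR π hπ 0 (by norm_num) h)⟩
    · rintro _ ⟨π, hπ, rfl⟩ τ hτ hsub hne
      obtain ⟨h1, h2, h3, h4, h5, h6⟩ := hc π hπ
      simp only [hinv] at hsub ⊢
      have hin : ∀ k < 6, k ∉ R π → vtx v π k ∈ τ := by
        intro k hk hkR
        apply hsub
        rw [Finset.mem_sdiff]
        exact ⟨hsigmem π k hk, fun h => hkR (hmemR π hπ k hk h)⟩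
      obtain ⟨q, hq, hm⟩ := exists_min hτ
      obtain ⟨ρ, rfl⟩ := exists_sig hτ hq hm
      have hv0 : v ∈ sig q ρ := by
        have := hin 0 (by norm_num) h3
        rwa [vtx_zero27] at this
      have hv1 : v + 1 ∈ sig q ρ := by
        have := hin 5 (by norm_num) h4
        rwa [vtx_five27] at this
      have hqv : q = v := by
        apply le_antisymm (hm v hv0)
        have := (sig_max q ρ).2 (v + 1) hv1
        exact (add_le_add_iff_right 1).1 this
      subst hqv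
      have hρ : ρ ≠ π := fun h => hne (by rw [h])
      have hpre : ∀ k < 6, k ∉ R π → pre π k = pre ρ k := fun k hk hkR =>
        (vtx_mem_sig hk).1 (hin k hk hkR)
      by_cases h : ρ = π₀
      · left
        rw [h]
        rfl
      · right
        refine ⟨⟨ρ, h, rfl⟩, ?_⟩
        rw [hinv]
        exact (h5 ρ hρ hpre).resolve_left h
    · rintro _ ⟨π, hπ, rfl⟩ τ hτ hne hsub
      obtain ⟨h1, h2, h3, h4, h5, h6⟩ := hc π hπ
      simp only [hinv] at hsub ⊢
      obtain ⟨ρ, rfl⟩ : ∃ ρ, τ = sig v ρ := by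
        rcases hτ with h | ⟨ρ, -, h⟩
        · exact ⟨π₀, h⟩
        · exact ⟨ρ, h⟩
      have hρ : ρ ≠ π := fun h => hne (by rw [h])
      have hpre : ∀ k ∈ R π, pre π k = pre ρ k := fun k hk =>
        (vtx_mem_sig (Finset.mem_range.1 (h1 hk))).1 (hsub (Finset.mem_image_of_mem _ hk))
      obtain ⟨h7, h8⟩ := h6 ρ hρ hpre
      refine ⟨⟨ρ, h7, rfl⟩, ?_⟩
      rw [hinv]
      exact h8
  rw [← hTS] at key
  have h1 := fe_lks key
  unfold K
  rw [← h1, bd_one27]
  apply lks_bd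
  rw [Finset.card_image_of_injective _ nu_injective]
  exact (top_sig v π₀).2

end Pool.Agent.MK
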