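import Pool.Agent.MK.Pm

/-! Module MK/Chain. Attaching simplices of dimension 5 one after the other: flips of the boundary.

`bd_flip`. Let A = σ∖R; A and R are disjoint, A ∪ R = σ, |A| + |R| = 6. Facts:
 (*) for x ∈ R the facet G = σ∖x = A ∪ (R∖x) contains A; by `pm` (for σ, x) there is exactly one
 other simplex τ' ⊇ G; it contains A, so τ' ∈ T (hA).
 (**) for x ∈ A the facet σ∖x = (A∖x) ∪ R contains R; the other simplex τ' is not in T (hB).
 h1: G = A ∪ (R∖r) ∈ Bd T with F = τ': G = τ'∖y for some y (cardinalities 5 and 6), and every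
  F' ∈ T with G ⊆ F' is σ or τ' (pm), σ ∉ T.
 h2: G ∈ Bd T, A ⊆ G: G = F∖x with F ∈ T; pm for F, x: there is another simplex F' ≠ F with
  G ⊆ F', F' ∉ T (uniqueness in the definition of Bd); A ⊆ G ⊆ F', so F' = σ by hA
  (otherwise F' ∈ T). So G ⊆ σ, |G| = 5: G = σ∖r, and r ∉ A as A ⊆ G. So r ∈ R, G = A ∪ (R∖r).
 h3: G ∈ Bd T, R ⊆ G ⊆ F ∈ T contradicts hB.
 hY: G ∈ Bd (insert σ T): G = F∖x, F ∈ insert σ T unique. If F = σ: x ∈ R is impossible by (*) (τ' ∈ T
  contains G, τ' ≠ σ), so x ∈ A and G = (A∖x) ∪ R. If F ∈ T: G is in Bd T, and not A ⊆ G: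
  otherwise G ⊆ σ by h2, σ ∈ insert σ T contains G, so σ = F ∈ T, contradiction.
  Conversely: (A∖a) ∪ R = σ∖a is in Bd (insert σ T) by (**). If G ∈ Bd T, G = F∖x and not A ⊆ G,
  then G is not contained in σ: otherwise G = σ∖y with y ∈ A, so R ⊆ G, against h3.
`bd_between`: G ∈ S₀: unique F ∈ T with G = F∖x, unique F'' ∈ T''. F ∈ T'' and G ⊆ F, so F = F''.
 For F' ∈ T' with G ⊆ F': F' ∈ T'', so F' = F'' = F.
`chain`: induction on the number of elements of S (for all T, S). S = ∅: T ∪ ∅ = T. Otherwise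
 choose σ ∈ S with Φ σ maximal, S' = S∖σ. The hypotheses hold for S': hA: the τ ∈ S with
 Φ τ < Φ σ' is not σ (maximality). hB for S' clear. By induction FE (Bd T) (Bd (T ∪ S')), and
 `bd_flip` for T ∪ S', σ, R σ: hA σ gives τ ∈ T or τ ∈ S, τ ≠ σ; hB σ: τ ∈ T ∪ S' with R σ ⊆ τ
 would give Φ σ < Φ τ, against maximality. S₀ ⊆ Bd (T ∪ S') by `bd_between`.
-/

namespace Pool.Agent.MK

open Pool.Agent.DT70

private theorem exists_erase {F G : Finset P} (hF : F.card = 6) (hG : G ⊆ F) (hc : G.card = 5) :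
    ∃ y ∈ F, G = F.erase y := by
  have h1 : (F \ G).card = 1 := by
    rw [Finset.card_sdiff_of_subset hG, hF, hc]
  obtain ⟨y, hy⟩ := Finset.card_eq_one.1 h1
  have hm : y ∈ F \ G := by rw [hy]; exact Finset.mem_singleton_self _
  rw [Finset.mem_sdiff] at hm
  refine ⟨y, hm.1, Finset.eq_of_subset_of_card_le ?_ ?_⟩
  · intro z hz
    refine Finset.mem_erase.2 ⟨?_, hG hz⟩
    rintro rfl
    exact hm.2 hz
  · rw [Finset.card_erase_of_mem hm.1, hF, hc]

theorem bd_flip {T : Set (Finset P)} (hT : ∀ F ∈ T, Top F) {σ R : Finset P} (hσ : Top σ)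
    (hn : σ ∉ T) (hR : R ⊆ σ) (h0 : R.Nonempty) (h0' : (σ \ R).Nonempty)
    (hA : ∀ τ, Top τ → σ \ R ⊆ τ → τ ≠ σ → τ ∈ T) (hB : ∀ τ ∈ T, ¬ R ⊆ τ) :
    Flip (σ \ R) R (Bd T) (Bd (insert σ T)) := by
  have eR : ∀ r ∈ R, (σ \ R) ∪ R.erase r = σ.erase r := by
    intro r hr
    ext z
    simp only [Finset.mem_union, Finset.mem_sdiff, Finset.mem_erase]
    constructor
    · rintro (⟨h1, h2⟩ | ⟨h1, h2⟩)
      · exact ⟨fun h => h2 (h ▸ hr), h1⟩
      · exact ⟨h1, hR h2⟩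
    · rintro ⟨h1, h2⟩
      by_cases hz : z ∈ R
      · exact Or.inr ⟨h1, hz⟩
      · exact Or.inl ⟨h2, hz⟩
  have eA : ∀ a ∈ σ \ R, (σ \ R).erase a ∪ R = σ.erase a := by
    intro a ha
    rw [Finset.mem_sdiff] at ha
    ext z
    simp only [Finset.mem_union, Finset.mem_sdiff, Finset.mem_erase]
    constructor
    · rintro (⟨h1, h2, h3⟩ | h1)
      · exact ⟨h1, h2⟩
      · exact ⟨fun h => ha.2 (h ▸ h1), hR h1⟩
    · rintro ⟨h1, h2⟩
      by_cases hz : z ∈ R
      · exact Or.inr hz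
      · exact Or.inl ⟨h1, h2, hz⟩
  have c5 : ∀ r ∈ σ, (σ.erase r).card = 5 := by
    intro r hr
    rw [Finset.card_erase_of_mem hr, hσ.2]
  -- the second half of `h2`
  have hsub : ∀ G ∈ Bd T, σ \ R ⊆ G → G ⊆ σ ∧ ∃ r ∈ R, G = (σ \ R) ∪ R.erase r := by
    rintro G ⟨F, hF, ⟨x, hx, rfl⟩, hu⟩ hAG
    obtain ⟨F', hF', hne, hs, -⟩ := pm (hT F hF) hx
    have hF'T : F' ∉ T := fun h => hne (hu F' h hs)
    have hF'σ : F' = σ := by
      by_contra hc
      exact hF'T (hA F' hF' (hAG.trans hs) hc)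
    subst hF'σ
    refine ⟨hs, ?_⟩
    have hcard : (F.erase x).card = 5 := by
      rw [Finset.card_erase_of_mem hx, (hT F hF).2]
    obtain ⟨r, hr, he⟩ := exists_erase hσ.2 hs hcard
    have hrR : r ∈ R := by
      by_contra hc
      have h1 : r ∈ F.erase x := hAG (Finset.mem_sdiff.2 ⟨hr, hc⟩)
      rw [he] at h1
      exact Finset.notMem_erase _ _ h1
    exact ⟨r, hrR, by rw [eR r hrR, he]⟩
  have h3 : ∀ F ∈ Bd T, ¬ R ⊆ F := by
    rintro G ⟨F, hF, ⟨x, hx, rfl⟩, hu⟩ hRG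
    exact hB F hF (hRG.trans (Finset.erase_subset _ _))
  refine ⟨Finset.sdiff_disjoint, h0', h0, ?_, fun F hF h => (hsub F hF h).2, h3, ?_⟩
  · intro r hr
    rw [eR r hr]
    obtain ⟨τ, hτ, hne, hs, hu⟩ := pm hσ (hR hr)
    have hAτ : σ \ R ⊆ τ := by
      refine Finset.Subset.trans ?_ hs
      rw [← eR r hr]
      exact Finset.subset_union_left
    have hτT := hA τ hτ hAτ hne
    refine ⟨τ, hτT, exists_erase hτ.2 hs (c5 r (hR hr)), fun F' hF' hGF' => ?_⟩
    rcases hu F' (hT F' hF') hGF' with h | h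
    · exact absurd (h ▸ hF') hn
    · exact h
  · ext G
    constructor
    · rintro ⟨F, hF, ⟨x, hx, rfl⟩, hu⟩
      rcases Set.mem_insert_iff.1 hF with rfl | hF
      · right
        by_cases hxR : x ∈ R
        · exfalso
          obtain ⟨τ, hτ, hne, hs, -⟩ := pm hσ hx
          have hAτ : F \ R ⊆ τ := by
            refine Finset.Subset.trans ?_ hs
            rw [← eR x hxR]
            exact Finset.subset_union_left
          exact hne (hu τ (Set.mem_insert_of_mem _ (hA τ hτ hAτ hne)) hs)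
        · have hxA : x ∈ F \ R := Finset.mem_sdiff.2 ⟨hx, hxR⟩
          exact ⟨x, hxA, (eA x hxA).symm⟩
      · left
        have hbd : F.erase x ∈ Bd T :=
          ⟨F, hF, ⟨x, hx, rfl⟩, fun F' hF' h => hu F' (Set.mem_insert_of_mem _ hF') h⟩
        refine ⟨hbd, fun hc => ?_⟩
        have h1 := (hsub _ hbd hc).1
        have h2 := hu σ (Set.mem_insert _ _) h1
        exact hn (h2 ▸ hF)
    · rintro (⟨hG, hAG⟩ | ⟨a, ha, rfl⟩)
      · obtain ⟨F, hF, ⟨x, hx, rfl⟩, hu⟩ := hG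
        refine ⟨F, Set.mem_insert_of_mem _ hF, ⟨x, hx, rfl⟩, fun F' hF' h => ?_⟩
        rcases Set.mem_insert_iff.1 hF' with rfl | hF'
        · exfalso
          have hcard : (F.erase x).card = 5 := by
            rw [Finset.card_erase_of_mem hx, (hT F hF).2]
          obtain ⟨y, hy, he⟩ := exists_erase hσ.2 h hcard
          have hyR : y ∉ R := by
            intro hyR
            apply hAG
            rw [he, ← eR y hyR]
            exact Finset.subset_union_left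
          have hyA : y ∈ F' \ R := Finset.mem_sdiff.2 ⟨hy, hyR⟩
          refine h3 _ ⟨F, hF, ⟨x, hx, rfl⟩, hu⟩ ?_
          rw [he, ← eA y hyA]
          exact Finset.subset_union_right
        · exact hu F' hF' h
      · have ha' := Finset.mem_sdiff.1 ha
        rw [eA a ha]
        refine ⟨σ, Set.mem_insert _ _, ⟨a, ha'.1, rfl⟩, fun F' hF' h => ?_⟩
        rcases Set.mem_insert_iff.1 hF' with h1 | h1
        · exact h1
        · exfalso
          refine hB F' h1 (Finset.Subset.trans ?_ h)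
          rw [← eA a ha]
          exact Finset.subset_union_right

theorem bd_between {T T' T'' : Set (Finset P)} (h : T ⊆ T') (h' : T' ⊆ T'')
    {S₀ : Set (Finset P)} (h0 : S₀ ⊆ Bd T) (h1 : S₀ ⊆ Bd T'') : S₀ ⊆ Bd T' := by
  intro G hG
  obtain ⟨F, hF, hx, -⟩ := h0 hG
  obtain ⟨F2, hF2, -, hu2⟩ := h1 hG
  refine ⟨F, h hF, hx, fun F' hF' hGF' => ?_⟩
  have hGF : G ⊆ F := by
    obtain ⟨x, -, rfl⟩ := hx
    exact Finset.erase_subset _ _
  rw [hu2 F' (h' hF') hGF', hu2 F (h' (h hF)) hGF]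

private theorem chain_aux (R : Finset P → Finset P) (Φ : Finset P → ℕ) (n : ℕ) :
    ∀ (T S : Set (Finset P)), S.Finite → S.ncard = n → (∀ F ∈ T, Top F) →
    (∀ F ∈ S, Top F) → Disjoint T S →
    (∀ σ ∈ S, R σ ⊆ σ ∧ (R σ).Nonempty ∧ (σ \ R σ).Nonempty) →
    (∀ σ ∈ S, ∀ τ, Top τ → σ \ R σ ⊆ τ → τ ≠ σ → τ ∈ T ∨ (τ ∈ S ∧ Φ τ < Φ σ)) →
    (∀ σ ∈ S, ∀ τ, (τ ∈ T ∨ τ ∈ S) → τ ≠ σ → R σ ⊆ τ → τ ∈ S ∧ Φ σ < Φ τ) →
    ∀ S₀ : Set (Finset P), S₀ ⊆ Bd T → S₀ ⊆ Bd (T ∪ S) → FE S₀ (Bd T) (Bd (T ∪ S)) := by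
  induction n with
  | zero =>
    intro T S hS hn hT hS' hd hR hA hB S₀ h0 h1
    have hE : S = ∅ := (Set.ncard_eq_zero hS).1 hn
    subst hE
    rw [Set.union_empty]
    exact Relation.EqvGen.refl _
  | succ n ih =>
    intro T S hS hn hT hS' hd hR hA hB S₀ h0 h1
    have hne : S.Nonempty := by
      rw [← Set.ncard_pos hS, hn]
      omega
    obtain ⟨σ, hσ, hmax⟩ := Set.exists_max_image S Φ hS hne
    have hσT : σ ∉ T := fun h => Set.disjoint_left.1 hd h hσ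
    have hU : T ∪ S = insert σ (T ∪ (S \ {σ})) := by
      ext τ
      simp only [Set.mem_union, Set.mem_insert_iff, Set.mem_sdiff, Set.mem_singleton_iff]
      constructor
      · rintro (h | h)
        · exact Or.inr (Or.inl h)
        · by_cases hh : τ = σ
          · exact Or.inl hh
          · exact Or.inr (Or.inr ⟨h, hh⟩)
      · rintro (rfl | h | h)
        · exact Or.inr hσ
        · exact Or.inl h
        · exact Or.inr h.1
    have hT' : ∀ F ∈ T ∪ (S \ {σ}), Top F := by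
      rintro F (h | h)
      · exact hT F h
      · exact hS' F h.1
    have hmid : S₀ ⊆ Bd (T ∪ (S \ {σ})) := by
      refine bd_between Set.subset_union_left ?_ h0 h1
      exact Set.union_subset_union_right _ Set.sdiff_subset
    have hstep := ih T (S \ {σ}) (hS.subset Set.sdiff_subset)
      (by rw [Set.ncard_sdiff_singleton_of_mem hσ, hn]; omega) hT
      (fun F hF => hS' F hF.1) (hd.mono_right Set.sdiff_subset)
      (fun τ hτ => hR τ hτ.1)
      (by
        intro τ hτ ρ hρ hs hne'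
        rcases hA τ hτ.1 ρ hρ hs hne' with h | ⟨h, h'⟩
        · exact Or.inl h
        · right
          refine ⟨⟨h, ?_⟩, h'⟩
          intro hh
          have : ρ = σ := hh
          have h2 := hmax τ hτ.1
          rw [this] at h'
          omega)
      (by
        intro τ hτ ρ hρ hne' hs
        have hρ' : ρ ∈ T ∨ ρ ∈ S := hρ.imp id (fun h => h.1)
        have h1 := hB τ hτ.1 ρ hρ' hne' hs
        rcases hρ with h | h
        · exact absurd h1.1 (Set.disjoint_left.1 hd h)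
        · exact ⟨h, h1.2⟩)
      S₀ h0 hmid
    refine Relation.EqvGen.trans _ _ _ hstep (Relation.EqvGen.rel _ _ ?_)
    obtain ⟨hR1, hR2, hR3⟩ := hR σ hσ
    have hfl := bd_flip (T := T ∪ (S \ {σ})) hT' (hS' σ hσ)
      (by
        rintro (h | h)
        · exact hσT h
        · exact h.2 rfl) hR1 hR2 hR3
      (by
        intro τ hτ hs hne'
        rcases hA σ hσ τ hτ hs hne' with h | ⟨h, -⟩
        · exact Or.inl h
        · exact Or.inr ⟨h, hne'⟩)
      (by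
        intro τ hτ hs
        have hne' : τ ≠ σ := by
          rintro rfl
          rcases hτ with h | h
          · exact hσT h
          · exact h.2 rfl
        have hτ' : τ ∈ T ∨ τ ∈ S := hτ.imp id (fun h => h.1)
        have h1 := hB σ hσ τ hτ' hne' hs
        have h2 := hmax τ h1.1
        omega)
    refine ⟨σ \ R σ, R σ, ?_, ?_, hmid, h1⟩
    · rw [hU]
      exact hfl
    · rw [Finset.card_sdiff_of_subset hR1, Nat.sub_add_cancel (Finset.card_le_card hR1)]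
      exact (hS' σ hσ).2

theorem chain {T S : Set (Finset P)} (hS : S.Finite) (hT : ∀ F ∈ T, Top F)
    (hS' : ∀ F ∈ S, Top F) (hd : Disjoint T S) (R : Finset P → Finset P) (Φ : Finset P → ℕ)
    (hR : ∀ σ ∈ S, R σ ⊆ σ ∧ (R σ).Nonempty ∧ (σ \ R σ).Nonempty)
    (hA : ∀ σ ∈ S, ∀ τ, Top τ → σ \ R σ ⊆ τ → τ ≠ σ → τ ∈ T ∨ (τ ∈ S ∧ Φ τ < Φ σ))
    (hB : ∀ σ ∈ S, ∀ τ, (τ ∈ T ∨ τ ∈ S) → τ ≠ σ → R σ ⊆ τ → τ ∈ S ∧ Φ σ < Φ τ)
    {S₀ : Set (Finset P)} (h0 : S₀ ⊆ Bd T) (h1 : S₀ ⊆ Bd (T ∪ S)) :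
    FE S₀ (Bd T) (Bd (T ∪ S)) :=
  chain_aux R Φ _ T S hS rfl hT hS' hd hR hA hB S₀ h0 h1

end Pool.Agent.MK
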