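import Pool.Agent.MK.Lab
import Pool.Agent.DT70.Comp

/-! Module MK/Code (definitions and computability). The facet list of the boundary of the
thickening, computed from a list of cells. A lattice point is given by the list of its five
coordinates (natural numbers, after a shift).

`code_computable`: everything is primitive recursive: `addV` (`Primrec.list_map`,
`Primrec.list_getD`, addition), `tabF` is a constant, membership in a list of lists is primitive
recursive (`l ∈ L ↔ L.idxOf l < L.length`, `Primrec.list_idxOf`), `Primrec.list_flatMap`,
`Primrec.encode`, `List.filter` (`Primrec.list_filter` or as a flatMap), `List.drop`/`List.take` of `t.2.2`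
may be avoided: they can be computed by `(List.range 5).map (fun k => t.2.2.getD (k + 1) [])`
(prove equality on `tabF`, or show that drop and take are primitive recursive). See
`DT70/Comp.lean` for examples.
-/

namespace Pool.Agent.MK

open Pool.Agent.DT70

/-- Sum of the first five coordinates. -/
def addV (l o : List ℕ) : List ℕ := (List.range 5).map (fun j => l.getD j 0 + o.getD j 0)

/-- Unit vector. -/
def un (i : ℕ) : List ℕ := (List.range 5).map (fun j => if j = i then 1 else 0)

/-- The vertex number `k` of the simplex of the cube `[0, 1]⁵` with the order `p`. -/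
def off (p : List ℕ) (k : ℕ) : List ℕ := (List.range 5).map (fun j => if j ∈ p.take k then 1 else 0)

/-- All orders of the directions: first and last direction as unit vectors, and the vertices. -/
def tabF : List (List ℕ × List ℕ × List (List ℕ)) :=
  ([0, 1, 2, 3, 4] : List ℕ).permutations.map
    (fun p => (un (p.getD 0 0), un (p.getD 4 0), (List.range 6).map (off p)))

/-- The boundary facets of the thickening of the cells in the list `L`. -/
def facets (L : List (List ℕ)) : Code :=
  L.flatMap (fun q => tabF.flatMap (fun t =>
    (if addV q t.1 ∈ L then [] else [(t.2.2.drop 1).map (fun o => Encodable.encode (addV q o))]) ++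
    (if q ∈ L.map (fun q' => addV q' t.2.1) then []
      else [(t.2.2.take 5).map (fun o => Encodable.encode (addV q o))])))

/-- The marked facet. -/
def first (q : List ℕ) : List ℕ :=
  (List.range 5).map (fun k => Encodable.encode (addV q (off [0, 1, 2, 3, 4] k)))

/-- The code of the boundary with the marked facet in the first place. -/
def code (L : List (List ℕ)) (q : List ℕ) : Code :=
  first q :: (facets L).filter (fun F => decide (F ≠ first q))

/-- Shifted coordinates. -/
def pos (c x : P) : List ℕ := List.ofFn (fun i => (x i + c i).toNat)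

/-- Name of a lattice point. -/
def nm (c x : P) : ℕ := Encodable.encode (pos c x)

/-- `L` is a list of the cells of `X` with coordinates shifted by `c`. -/
structure Rep (X : Set P) (c : P) (L : List (List ℕ)) : Prop where
  mem : ∀ l, l ∈ L ↔ ∃ q ∈ X, l = pos c q
  pos : ∀ q ∈ X, ∀ i, 1 ≤ q i + c i

private theorem pr_mem {α : Type*} [Primcodable α] [DecidableEq α] :
    PrimrecRel (fun (L : List α) (b : α) => b ∈ L) := by
  have h := PrimrecRel.exists_mem_list (R := fun (a b : α) => a = b) Primrec.eq
  exact h.of_eq fun L b => by simp

private theorem pr_addV : Primrec₂ addV := by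
  have h : Primrec₂ (fun (x : List ℕ × List ℕ) (j : ℕ) => x.1.getD j 0 + x.2.getD j 0) :=
    (Primrec.nat_add.comp
      ((Primrec.list_getD 0).comp (Primrec.fst.comp Primrec.fst) Primrec.snd)
      ((Primrec.list_getD 0).comp (Primrec.snd.comp Primrec.fst) Primrec.snd)).to₂
  exact (Primrec.list_map (Primrec.const (List.range 5)) h).to₂

private theorem pr_enc {α : Type*} [Primcodable α] {q : α → List ℕ} {l : α → List (List ℕ)}
    (hq : Primrec q) (hl : Primrec l) :
    Primrec (fun a => (l a).map (fun o => Encodable.encode (addV (q a) o))) := by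
  have h : Primrec₂ (fun (a : α) (o : List ℕ) => Encodable.encode (addV (q a) o)) :=
    (Primrec.encode.comp (pr_addV.comp (hq.comp Primrec.fst) Primrec.snd)).to₂
  exact Primrec.list_map hl h

private theorem pr_facets : Primrec facets := by
  have hin : Primrec₂ (fun (x : List (List ℕ) × List ℕ) (t : List ℕ × List ℕ × List (List ℕ)) =>
      (if addV x.2 t.1 ∈ x.1 then ([] : Code)
        else [(t.2.2.drop 1).map (fun o => Encodable.encode (addV x.2 o))]) ++
      (if x.2 ∈ x.1.map (fun q' => addV q' t.2.1) then ([] : Code)
        else [(t.2.2.take 5).map (fun o => Encodable.encode (addV x.2 o))])) := by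
    have hL : Primrec (fun y : (List (List ℕ) × List ℕ) × (List ℕ × List ℕ × List (List ℕ)) =>
        y.1.1) := Primrec.fst.comp Primrec.fst
    have hq : Primrec (fun y : (List (List ℕ) × List ℕ) × (List ℕ × List ℕ × List (List ℕ)) =>
        y.1.2) := Primrec.snd.comp Primrec.fst
    have ht1 : Primrec (fun y : (List (List ℕ) × List ℕ) × (List ℕ × List ℕ × List (List ℕ)) =>
        y.2.1) := Primrec.fst.comp Primrec.snd
    have ht2 : Primrec (fun y : (List (List ℕ) × List ℕ) × (List ℕ × List ℕ × List (List ℕ)) =>
        y.2.2.1) := Primrec.fst.comp (Primrec.snd.comp Primrec.snd)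
    have ht3 : Primrec (fun y : (List (List ℕ) × List ℕ) × (List ℕ × List ℕ × List (List ℕ)) =>
        y.2.2.2) := Primrec.snd.comp (Primrec.snd.comp Primrec.snd)
    have hA : Primrec (fun y : (List (List ℕ) × List ℕ) × (List ℕ × List ℕ × List (List ℕ)) =>
        [(y.2.2.2.drop 1).map (fun o => Encodable.encode (addV y.1.2 o))]) :=
      Primrec.list_cons.comp (pr_enc hq (Primrec.list_drop.comp (Primrec.const 1) ht3))
        (Primrec.const [])
    have hB : Primrec (fun y : (List (List ℕ) × List ℕ) × (List ℕ × List ℕ × List (List ℕ)) =>
        [(y.2.2.2.take 5).map (fun o => Encodable.encode (addV y.1.2 o))]) :=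
      Primrec.list_cons.comp (pr_enc hq (Primrec.list_take.comp (Primrec.const 5) ht3))
        (Primrec.const [])
    have hpA : PrimrecPred
        (fun y : (List (List ℕ) × List ℕ) × (List ℕ × List ℕ × List (List ℕ)) =>
          addV y.1.2 y.2.1 ∈ y.1.1) := pr_mem.comp hL (pr_addV.comp hq ht1)
    have hmap : Primrec (fun y : (List (List ℕ) × List ℕ) × (List ℕ × List ℕ × List (List ℕ)) =>
        y.1.1.map (fun q' => addV q' y.2.2.1)) :=
      Primrec.list_map hL (pr_addV.comp Primrec.snd (ht2.comp Primrec.fst)).to₂
    have hpB : PrimrecPred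
        (fun y : (List (List ℕ) × List ℕ) × (List ℕ × List ℕ × List (List ℕ)) =>
          y.1.2 ∈ y.1.1.map (fun q' => addV q' y.2.2.1)) := pr_mem.comp hmap hq
    exact (Primrec.list_append.comp (Primrec.ite hpA (Primrec.const []) hA)
      (Primrec.ite hpB (Primrec.const []) hB)).to₂
  have hout : Primrec₂ (fun (L : List (List ℕ)) (q : List ℕ) => tabF.flatMap (fun t =>
      (if addV q t.1 ∈ L then ([] : Code)
        else [(t.2.2.drop 1).map (fun o => Encodable.encode (addV q o))]) ++
      (if q ∈ L.map (fun q' => addV q' t.2.1) then ([] : Code)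
        else [(t.2.2.take 5).map (fun o => Encodable.encode (addV q o))]))) :=
    (Primrec.list_flatMap (Primrec.const tabF) hin).to₂
  exact Primrec.list_flatMap Primrec.id hout

private theorem pr_first : Primrec first := by
  have h : Primrec₂ (fun (q : List ℕ) (k : ℕ) =>
      Encodable.encode (addV q (off [0, 1, 2, 3, 4] k))) := by
    have hoff : Primrec (fun k : ℕ => off [0, 1, 2, 3, 4] k) := by
      refine Primrec.list_map (Primrec.const (List.range 5)) ?_
      have hp : PrimrecPred (fun x : ℕ × ℕ => x.2 ∈ ([0, 1, 2, 3, 4] : List ℕ).take x.1) :=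
        pr_mem.comp (Primrec.list_take.comp Primrec.fst (Primrec.const [0, 1, 2, 3, 4])) Primrec.snd
      exact (Primrec.ite hp (Primrec.const 1) (Primrec.const 0)).to₂
    exact (Primrec.encode.comp (pr_addV.comp Primrec.fst (hoff.comp Primrec.snd))).to₂
  exact Primrec.list_map (Primrec.const (List.range 5)) h

theorem code_computable : Computable (fun x : List (List ℕ) × List ℕ => code x.1 x.2) := by
  refine Primrec.to_comp ?_
  have hfil : Primrec₂ (fun (K : Code) (F : List ℕ) =>
      K.filter (fun G => decide (G ≠ F))) := by
    have hR : PrimrecRel (fun (a b : List ℕ) => a ≠ b) := Primrec.eq.not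
    exact PrimrecRel.listFilter hR
  exact Primrec.list_cons.comp (pr_first.comp Primrec.snd)
    (hfil.comp (pr_facets.comp Primrec.fst) (pr_first.comp Primrec.snd))

end Pool.Agent.MK
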