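import Pool.Agent.MK.Chain
import Pool.Agent.MK.Cert

/-! Module MK/CubeAdd. Attaching a cube.

TS (insert q X) = TS X ∪ TS {q}; these are disjoint (the smallest element of a simplex is unique);
TS {q} = {sig q π} is finite (`exists_sig`, `sig_min`, `top_sig`). Take Φ, R from `cert_exists`
(s = true iff ε = 1). Apply `chain` with T = TS X, S = TS {q}, and for σ = sig q π (π unique,
`sig_inj`; define π σ by choice) R' σ = {vtx q π k : k ∈ R π}, Φ' σ = Φ π. As the vtx q π k, k < 6, are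
distinct (`vtx_inj`), σ∖R' σ = {vtx q π k : k < 6, k ∉ R π}. (vtx q π k) j = q j + 1 if j ∈ pre π k, else q j.
hA: let τ be a simplex ≠ σ containing σ∖R' σ; q' = min τ, τ = sig q' ρ, q' ≤ x ≤ q' + 1 for x ∈ τ
 (`sig_min`, `sig_max`). So |q' j - q j| ≤ 1 for all j (take any k ∉ R π), q' j = q j if j ∉ C, j ≠ i (nA), and
 ε (q' i - q i) ≤ 0 (iA). If q' ≠ q then q' ∈ X by h1, so τ ∈ T. If q' = q then ρ ≠ π and
 pre π k = pre ρ k for k < 6, k ∉ R π (`vtx_mem_sig`), so Φ ρ < Φ π by hA of the certificate.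
hB: let τ ≠ σ contain R' σ. If τ = sig q ρ ∈ S: pre π k = pre ρ k for k ∈ R π, so Φ π < Φ ρ. If τ ∈ T:
 q' = min τ ∈ X, q' ≤ x ≤ q' + 1 for x ∈ R' σ; R π is nonempty, so |q' j - q j| ≤ 1 for all j. By h2
 either ε (q' i - q i) < 0, i.e. q' i = q i - ε: then all the vtx q π k, k ∈ R π, have the i-th coordinate
 q i (ε = 1) or q i + 1 (ε = -1), against iB; or q' j ≠ q j for some j ∈ C: all the vtx q π k, k ∈ R π,
 have the same j-th coordinate, against cB.
-/

namespace Pool.Agent.MK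

open Pool.Agent.DT70

theorem TS_insert (X : Set P) (q : P) : TS (insert q X) = TS X ∪ TS {q} := by
  ext F
  constructor
  · rintro ⟨hF, q', hq', hqF, hm⟩
    rcases Set.mem_insert_iff.1 hq' with rfl | h
    · exact Or.inr ⟨hF, q', rfl, hqF, hm⟩
    · exact Or.inl ⟨hF, q', h, hqF, hm⟩
  · rintro (⟨hF, q', hq', hqF, hm⟩ | ⟨hF, q', hq', hqF, hm⟩)
    · exact ⟨hF, q', Set.mem_insert_of_mem q hq', hqF, hm⟩
    · refine ⟨hF, q', ?_, hqF, hm⟩
      rw [Set.mem_singleton_iff] at hq'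
      rw [hq']
      exact Set.mem_insert q X

private theorem ts_one9 (q : P) {F : Finset P} : F ∈ TS {q} ↔ ∃ π, F = sig q π := by
  constructor
  · rintro ⟨hF, q', hq', hqF, hm⟩
    rw [Set.mem_singleton_iff] at hq'
    subst hq'
    exact exists_sig hF hqF hm
  · rintro ⟨π, rfl⟩
    exact ⟨top_sig q π, q, rfl, (sig_min q π).1, (sig_min q π).2⟩

private theorem vtx_pre9 {q : P} {π : Equiv.Perm (Fin 5)} {k : ℕ} {j : Fin 5}
    (h : j ∈ pre π k) : vtx q π k j = q j + 1 := by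
  have h1 : (π.symm j : ℕ) < k := by simpa [pre] using h
  simp [vtx, h1]

private theorem vtx_npre9 {q : P} {π : Equiv.Perm (Fin 5)} {k : ℕ} {j : Fin 5}
    (h : j ∉ pre π k) : vtx q π k j = q j := by
  have h1 : ¬ (π.symm j : ℕ) < k := by simpa [pre] using h
  simp [vtx, h1]

private theorem vtx_bounds9 (q : P) (π : Equiv.Perm (Fin 5)) (k : ℕ) (j : Fin 5) :
    q j ≤ vtx q π k j ∧ vtx q π k j ≤ q j + 1 := by
  simp only [vtx]
  split_ifs <;> omega

theorem cube_add {C : Finset (Fin 5)} {i : Fin 5} (hi : i ∉ C) {ε : ℤ} (hε : ε = 1 ∨ ε = -1)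
    {X : Set P} {q : P} (hq : q ∉ X)
    (h1 : ∀ q' : P, q' ≠ q → (∀ j, j ∉ C → j ≠ i → q' j = q j) → (∀ j, |q' j - q j| ≤ 1) →
      ε * (q' i - q i) ≤ 0 → q' ∈ X)
    (h2 : ∀ q' ∈ X, (∀ j, |q' j - q j| ≤ 1) → ε * (q' i - q i) < 0 ∨ ∃ j ∈ C, q' j ≠ q j)
    {S₀ : Set (Finset P)} (h0 : S₀ ⊆ K X) (h0' : S₀ ⊆ K (insert q X)) :
    FE S₀ (K X) (K (insert q X)) := by
  obtain ⟨s, hs⟩ : ∃ s : Bool, (ε = 1 ∧ s = true) ∨ (ε = -1 ∧ s = false) := by
    rcases hε with h | h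
    · exact ⟨true, Or.inl ⟨h, rfl⟩⟩
    · exact ⟨false, Or.inr ⟨h, rfl⟩⟩
  obtain ⟨Φ, R, hc⟩ := cert_exists C i hi s
  have hinj : Function.Injective (sig q) := fun π ρ h => (sig_inj h).2
  obtain ⟨inv, hinv⟩ : ∃ inv : Finset P → Equiv.Perm (Fin 5), ∀ π, inv (sig q π) = π :=
    ⟨Function.invFun (sig q), Function.leftInverse_invFun hinj⟩
  have hmemR : ∀ π : Equiv.Perm (Fin 5), ∀ k < 6,
      vtx q π k ∈ (R π).image (vtx q π) → k ∈ R π := by
    intro π k hk h
    obtain ⟨l, hl, hlk⟩ := Finset.mem_image.1 h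
    have hl6 : l < 6 := Finset.mem_range.1 (hc.sub π hl)
    have := (vtx_inj hl6 hk hlk).1
    rw [← this]
    exact hl
  have hsigmem : ∀ (π : Equiv.Perm (Fin 5)) (k : ℕ), k < 6 → vtx q π k ∈ sig q π :=
    fun π k hk => Finset.mem_image_of_mem _ (Finset.mem_range.2 hk)
  have hK : K (insert q X) = Bd (TS X ∪ TS {q}) := by
    unfold K
    rw [TS_insert]
  rw [hK] at h0' ⊢
  unfold K at h0 ⊢
  refine chain (R := fun σ => (R (inv σ)).image (vtx q (inv σ))) (Φ := fun σ => Φ (inv σ))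
    ?_ ?_ ?_ ?_ ?_ ?_ ?_ h0 h0'
  · refine (Set.finite_range (sig q)).subset ?_
    intro F hF
    obtain ⟨π, rfl⟩ := (ts_one9 q).1 hF
    exact ⟨π, rfl⟩
  · intro F hF
    exact hF.1
  · intro F hF
    exact hF.1
  · rw [Set.disjoint_left]
    rintro F ⟨hF, q₁, hq₁, hqF, hm⟩ hF'
    obtain ⟨π, rfl⟩ := (ts_one9 q).1 hF'
    have h : q₁ = q := le_antisymm (hm q (sig_min q π).1) ((sig_min q π).2 q₁ hqF)
    rw [h] at hq₁
    exact hq hq₁
  · intro σ hσ
    obtain ⟨π, rfl⟩ := (ts_one9 q).1 hσ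
    simp only [hinv]
    obtain ⟨k, hk, hkR⟩ := hc.ne' π
    refine ⟨Finset.image_subset_image (hc.sub π), (hc.ne π).image _, vtx q π k, ?_⟩
    rw [Finset.mem_sdiff]
    exact ⟨hsigmem π k hk, fun h => hkR (hmemR π k hk h)⟩
  · intro σ hσ τ hτ hsub hne
    obtain ⟨π, rfl⟩ := (ts_one9 q).1 hσ
    simp only [hinv] at hsub ⊢
    have hin : ∀ k < 6, k ∉ R π → vtx q π k ∈ τ := by
      intro k hk hkR
      apply hsub
      rw [Finset.mem_sdiff]
      exact ⟨hsigmem π k hk, fun h => hkR (hmemR π k hk h)⟩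
    obtain ⟨q', hq', hm⟩ := exists_min hτ
    obtain ⟨ρ, rfl⟩ := exists_sig hτ hq' hm
    have hlo : ∀ k < 6, k ∉ R π → ∀ j, q' j ≤ vtx q π k j := fun k hk hkR j =>
      hm _ (hin k hk hkR) j
    have hhi : ∀ k < 6, k ∉ R π → ∀ j, vtx q π k j ≤ q' j + 1 := fun k hk hkR j =>
      (sig_max q' ρ).2 _ (hin k hk hkR) j
    by_cases hqq : q' = q
    · right
      subst hqq
      have hρ : ρ ≠ π := fun h => hne (by rw [h])
      refine ⟨(ts_one9 q').2 ⟨ρ, rfl⟩, ?_⟩
      rw [hinv]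
      exact hc.hA π ρ hρ (fun k hk hkR => (vtx_mem_sig hk).1 (hin k hk hkR))
    · left
      refine ⟨hτ, q', ?_, hq', hm⟩
      apply h1 q' hqq
      · intro j hj hji
        obtain ⟨⟨k, hk, hkR, hjk⟩, l, hl, hlR, hjl⟩ := hc.nA π j hj hji
        have a1 := hhi k hk hkR j
        have a2 := hlo l hl hlR j
        rw [vtx_pre9 hjk] at a1
        rw [vtx_npre9 hjl] at a2
        omega
      · intro j
        obtain ⟨k, hk, hkR⟩ := hc.ne' π
        have a1 := hhi k hk hkR j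
        have a2 := hlo k hk hkR j
        have a3 := vtx_bounds9 q π k j
        rw [abs_le]
        constructor <;> omega
      · obtain ⟨k, hk, hkR, hik⟩ := hc.iA π
        have a1 := hhi k hk hkR i
        have a2 := hlo k hk hkR i
        rcases hs with ⟨rfl, rfl⟩ | ⟨rfl, rfl⟩
        · have hn : i ∉ pre π k := fun h => by simpa using hik.1 h
          rw [vtx_npre9 hn] at a2
          omega
        · have hn : i ∈ pre π k := hik.2 rfl
          rw [vtx_pre9 hn] at a1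
          omega
  · intro σ hσ τ hτ hne hsub
    obtain ⟨π, rfl⟩ := (ts_one9 q).1 hσ
    simp only [hinv] at hsub ⊢
    have hk6 : ∀ k ∈ R π, k < 6 := fun k hk => Finset.mem_range.1 (hc.sub π hk)
    have hin : ∀ k ∈ R π, vtx q π k ∈ τ := fun k hk => hsub (Finset.mem_image_of_mem _ hk)
    rcases hτ with hτ | hτ
    · exfalso
      obtain ⟨hτT, q', hq'X, hq', hm⟩ := hτ
      obtain ⟨ρ, rfl⟩ := exists_sig hτT hq' hm
      have hlo : ∀ k ∈ R π, ∀ j, q' j ≤ vtx q π k j := fun k hk j => hm _ (hin k hk) j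
      have hhi : ∀ k ∈ R π, ∀ j, vtx q π k j ≤ q' j + 1 := fun k hk j =>
        (sig_max q' ρ).2 _ (hin k hk) j
      have habs : ∀ j, |q' j - q j| ≤ 1 := by
        intro j
        obtain ⟨k, hk⟩ := hc.ne π
        have a1 := hhi k hk j
        have a2 := hlo k hk j
        have a3 := vtx_bounds9 q π k j
        rw [abs_le]
        constructor <;> omega
      rcases h2 q' hq'X habs with h | ⟨j, hj, hjne⟩
      · obtain ⟨k, hk, hik⟩ := hc.iB π
        have a1 := hhi k hk i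
        have a2 := hlo k hk i
        rcases hs with ⟨rfl, rfl⟩ | ⟨rfl, rfl⟩
        · have hn : i ∈ pre π k := hik.2 rfl
          rw [vtx_pre9 hn] at a1
          omega
        · have hn : i ∉ pre π k := fun h => by simpa using hik.1 h
          rw [vtx_npre9 hn] at a2
          omega
      · obtain ⟨⟨k, hk, hjk⟩, l, hl, hjl⟩ := hc.cB π j hj
        have a1 := hhi k hk j
        have a2 := hlo l hl j
        rw [vtx_pre9 hjk] at a1
        rw [vtx_npre9 hjl] at a2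
        exact hjne (by omega)
    · obtain ⟨ρ, rfl⟩ := (ts_one9 q).1 hτ
      have hρ : ρ ≠ π := fun h => hne (by rw [h])
      refine ⟨hτ, ?_⟩
      rw [hinv]
      exact hc.hB π ρ hρ (fun k hk => (vtx_mem_sig (hk6 k hk)).1 (hin k hk))

end Pool.Agent.MK
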