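import Pool.Agent.DT70.Prob

/-!
# Boundaries of unions of lattice cubes
-/

namespace Pool.Agent.MK

open Pool.Agent.DT70

/-- Points of the lattice `ℤ⁵`. -/
abbrev P := Fin 5 → ℤ

/-- `F` spans a simplex of the Kuhn triangulation of `ℝ⁵`. -/
def Simp (F : Finset P) : Prop :=
  ∀ x ∈ F, ∀ y ∈ F, (x ≤ y ∧ y ≤ x + 1) ∨ (y ≤ x ∧ x ≤ y + 1)

/-- The simplices of dimension 5 of the Kuhn triangulation. -/
def Top (F : Finset P) : Prop := Simp F ∧ F.card = 6

/-- The simplices of dimension 5 which subdivide the cubes `[q, q + 1]⁵`, `q ∈ X`. -/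
def TS (X : Set P) : Set (Finset P) := {F | Top F ∧ ∃ q ∈ X, q ∈ F ∧ ∀ x ∈ F, q ≤ x}

/-- The boundary facets of a set of simplices: the facets of exactly one of them. -/
def Bd (T : Set (Finset P)) : Set (Finset P) :=
  {G | ∃ F ∈ T, (∃ x ∈ F, G = F.erase x) ∧ ∀ F' ∈ T, G ⊆ F' → F' = F}

/-- The triangulated boundary of the union of the cubes `[q, q + 1]⁵`, `q ∈ X`. -/
def K (X : Set P) : Set (Finset P) := Bd (TS X)

/-- `A` is the boundary of the union of the cubes `[q, q + 1]⁵`, `q ∈ X`, with its Kuhn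
triangulation, up to the names of the vertices. -/
def CubeBoundary (X : Set P) (A : Code) : Prop :=
  ∃ ν : P → ℕ, Set.InjOn ν {x | ∃ s ∈ K X, x ∈ s} ∧ fs A = {t | ∃ s ∈ K X, t = s.image ν}

end Pool.Agent.MK
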