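import Pool.Agent.DT70.Sum
import Pool.Agent.DT70.SC
import Pool.Agent.MK.KDefs

/-!
# Definitions for project MK

Cubes of `ℤ⁵`, the Kuhn triangulation, boundaries of unions of cubes, flips, cubical complexes.
A cell of a cubical complex is given by its doubled centre `q : Fin 5 → ℤ`: it extends in the
directions `i` with `q i` odd. The thickening of a cell `q` is the unit cube `[q, q+1]⁵`.
-/

namespace Pool.Agent.MK

open Pool.Agent.DT70

/-- The `i`-th unit vector. -/
def e (i : Fin 5) : P := fun j => if j = i then 1 else 0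

/-- `Y` is obtained from `X` by the flip which replaces `A * ∂R` by `∂A * R`. -/
structure Flip {α : Type} [DecidableEq α] (A R : Finset α) (X Y : Set (Finset α)) : Prop where
  disj : Disjoint A R
  hA : A.Nonempty
  hR : R.Nonempty
  h1 : ∀ r ∈ R, A ∪ R.erase r ∈ X
  h2 : ∀ F ∈ X, A ⊆ F → ∃ r ∈ R, F = A ∪ R.erase r
  h3 : ∀ F ∈ X, ¬ R ⊆ F
  hY : Y = {F | (F ∈ X ∧ ¬ A ⊆ F) ∨ ∃ a ∈ A, F = A.erase a ∪ R}

/-- A flip of 4-dimensional complexes which leaves the facets in `S` alone. -/
def Fl (S : Set (Finset P)) (X Y : Set (Finset P)) : Prop :=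
  ∃ A R : Finset P, Flip A R X Y ∧ A.card + R.card = 6 ∧ S ⊆ X ∧ S ⊆ Y

/-- Equivalence by flips which leave the facets in `S` alone. -/
def FE (S : Set (Finset P)) : Set (Finset P) → Set (Finset P) → Prop := Relation.EqvGen (Fl S)

/-- Names of the lattice points. -/
def nu (x : P) : ℕ := Encodable.encode x

/-- A complex with vertices in `ℤ⁵` as a complex with vertices in `ℕ`. -/
def im (X : Set (Finset P)) : Set (Finset ℕ) := {t | ∃ s ∈ X, t = s.image nu}

/-- A cubical complex: closed under taking faces. -/
def Closed (X : Set P) : Prop := ∀ q ∈ X, ∀ i, Odd (q i) → q + e i ∈ X ∧ q - e i ∈ X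

/-- The directions of a cell. -/
def dirs (q : P) : Finset (Fin 5) := Finset.univ.filter (fun i => Odd (q i))

/-- Position of the direction `i` in the order `π`. The vertex number `k` of the simplex `(q, π)`
is obtained from `q` by adding the first `k` directions. -/
def vtx (q : P) (π : Equiv.Perm (Fin 5)) (k : ℕ) : P :=
  fun i => q i + if (π.symm i : ℕ) < k then 1 else 0

/-- The simplex of the cube `[q, q + 1]⁵` with the order `π` of the directions. -/
def sig (q : P) (π : Equiv.Perm (Fin 5)) : Finset P := (Finset.range 6).image (vtx q π)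

/-- The first `k` directions. -/
def pre (π : Equiv.Perm (Fin 5)) (k : ℕ) : Finset (Fin 5) :=
  Finset.univ.filter (fun i => (π.symm i : ℕ) < k)

end Pool.Agent.MK
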