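import Pool.Agent.MK.Asm
import Pool.Agent.DT70.Sum
import Pool.Agent.DT70.Du
import Pool.Agent.DT70.Comp
import Pool.Agent.DT70.SC

/-! Module MK/Final. The pairs of disconnected manifolds and the undecidability. -/

namespace Pool.Agent.MK

open Pool.Agent.DT70 Pool.Agent.MKE

theorem PLHomeo_symm {K L : Code} (h : PLHomeo K L) : PLHomeo L K := by
  obtain ⟨f, g, hfg⟩ := h
  exact ⟨g, f, hfg.symm⟩

theorem swap_always {b : Bool} {A K R R' : Code} (hA : Marked b A) (hK : Marked b K)
    (hR : Marked b R) (hR' : Marked b R') (h : Rel Cont R R') :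
    Nonempty (real (du (cs A R) (cs K R')) ≃ₜ real (du (cs A R') (cs K R))) := by
  obtain ⟨f, g, hfg⟩ := du_iso cls_cont (cs_right cls_cont hA hR hR' h)
    (by
      obtain ⟨f, g, hfg⟩ := cs_right cls_cont hK hR hR' h
      exact ⟨g, f, hfg.symm⟩)
  exact hfg.homeo

/-- Closed marked manifolds are marked manifolds possibly with boundary. -/
theorem marked_mono {b : Bool} {A : Code} (h : Marked false A) : Marked b A := by
  obtain ⟨⟨h1, h2, h3⟩, h4, h5⟩ := h
  refine ⟨⟨h1, h2, fun v hv => ?_⟩, h4, h5⟩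
  rcases h3 v hv with h | h
  · exact Or.inl h
  · exact absurd h.1 (by decide)

/-- The algorithm on pairs. -/
theorem pairs_computable {A R R' : Code} {M : ℕ → Code} (hM : Computable M) :
    Computable (fun n => (du (cs A R) (cs (M n) R'), du (cs A R') (cs (M n) R))) := by
  have h1 : Computable (fun n => cs (M n) R') := cs_computable.comp (hM.pair (Computable.const R'))
  have h2 : Computable (fun n => cs (M n) R) := cs_computable.comp (hM.pair (Computable.const R))
  exact (du_computable.comp ((Computable.const (cs A R)).pair h1)).pair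
    (du_computable.comp ((Computable.const (cs A R')).pair h2))

/-- A partial recursive function which is total on a computable sequence and decides `p` there. -/
theorem decides {p : ℕ → Prop} {f : Code × Code →. Bool} (hf : Partrec f)
    {g : ℕ → Code × Code} (hg : Computable g)
    (h : ∀ n, ∃ d ∈ f (g n), (d = true ↔ p n)) : ComputablePred p := by
  classical
  have h1 : Partrec (fun n => f (g n)) := hf.comp hg
  have h2 : (fun n => f (g n)) = fun n => Part.some (decide (p n)) := by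
    funext n
    obtain ⟨d, hd, hd'⟩ := h n
    have h3 : d = decide (p n) := by
      rw [Bool.eq_iff_iff, hd', decide_eq_true_iff]
    rw [← h3]
    exact Part.eq_some_iff.2 hd
  rw [h2] at h1
  exact ⟨fun n => Classical.dec _, by
    refine (show Computable fun n => decide (p n) from h1).of_eq fun n => ?_
    congr⟩

theorem final
    (hfam : ∀ (m : ℕ) (rels : List (List (ℕ × Bool))), (∀ r ∈ rels, Let m r) →
      ∃ (q₀ v₀ : P) (XX : ℕ → List (ℕ × Bool) → Set P) (bound : List (ℕ × Bool) → ℕ) (c : ℕ → P)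
        (cells : ℕ → List (ℕ × Bool) → List (List ℕ)), Fam m rels q₀ v₀ XX bound c cells) :
    ∃ (p : ℕ → Prop) (X : Set P) (A : Code) (M : ℕ → Code),
      (REPred p ∧ ∀ q : ℕ → Prop, REPred q → q ≤₀ p) ∧
      (X.Finite ∧ CubeBoundary X A ∧ Marked false A ∧ SimplyConnectedSpace (real A)) ∧
      (Computable M ∧ ∀ n, Marked false (M n) ∧ (p n → Rel PLOn (M n) A) ∧
        (¬ p n → ¬ SimplyConnectedSpace (real (M n)))) ∧
      ∀ (b : Bool) (R R' : Code), Marked b R → Marked b R' → Rel Cont R R' →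
        (∀ x : real R, Finite (FundamentalGroup (real R) x)) →
        ¬ PLHomeo (cs A R) (cs A R') →
        (∀ n, Nonempty (real (du (cs A R) (cs (M n) R')) ≃ₜ real (du (cs A R') (cs (M n) R))) ∧
          (PLHomeo (du (cs A R) (cs (M n) R')) (du (cs A R') (cs (M n) R)) ↔ p n)) ∧
        ¬ ∃ f, Solves b f := by
  obtain ⟨p, m, rels, u0, u, hre, hcomp, hnc, hu, hlr, hl0, hlu, h1, h2, h3⟩ := words
  obtain ⟨q₀, v₀, XX, bound, c, cells, hF⟩ := hfam m rels hlr
  obtain ⟨X, A, M, hXf, hXc, hXd, ⟨ν, hν, hν'⟩, hA, hAs, hM, hMm, hMp, hMn⟩ :=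
    exists_family hu hl0 hlu h1 h2 h3 hF
  refine ⟨p, X, A, M, ⟨hre, hcomp⟩, ⟨hXf, ⟨ν, fun x hx y hy h => hν x y hx hy h, hν'⟩, hA, hAs⟩,
    ⟨hM, fun n => ⟨hMm n, hMp n, hMn n⟩⟩, ?_⟩
  intro b R R' hR hR' hRR hfin hne
  have hA' : Marked b A := marked_mono hA
  have hK : ∀ n, Marked b (M n) := fun n => marked_mono (hMm n)
  have key : ∀ n, Nonempty (real (du (cs A R) (cs (M n) R')) ≃ₜ
      real (du (cs A R') (cs (M n) R))) ∧
      (PLHomeo (du (cs A R) (cs (M n) R')) (du (cs A R') (cs (M n) R)) ↔ p n) := by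
    intro n
    refine ⟨swap_always hA' (hK n) hR hR' hRR, ?_⟩
    constructor
    · intro hpl
      by_contra hn
      rcases du_components2 (cs_conn hA' hR) (cs_conn (hK n) hR') (cs_conn hA' hR')
        (cs_conn (hK n) hR) hpl with ⟨h, -⟩ | ⟨h, -⟩
      · exact hne h
      · exact hMn n hn (sc_of_sum hA' (hK n) hR (PLHomeo_symm h) hAs hfin)
    · intro hn
      have hr := hMp n hn
      obtain ⟨v, w, hvw⟩ := du_swap (cs (M n) R) (cs A R')
      obtain ⟨f2, g2, hfg⟩ := du_iso cls_pl (PLHomeo_symm (cs_left cls_pl (hK n) hA' hR hr))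
        (cs_left cls_pl (hK n) hA' hR' hr)
      exact ⟨_, _, hfg.trans cls_pl hvw⟩
  refine ⟨key, ?_⟩
  rintro ⟨f, hf, hsol⟩
  refine hnc (decides hf (pairs_computable (A := A) (R := R) (R' := R') hM) fun n => ?_)
  obtain ⟨d, hd, hd'⟩ := hsol _ _ (du_mfd (cs_mfd hA' hR) (cs_mfd (hK n) hR'))
    (du_mfd (cs_mfd hA' hR') (cs_mfd (hK n) hR)) (key n).1
  exact ⟨d, hd, hd'.trans (key n).2⟩

end Pool.Agent.MK
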