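import Pool.Agent.MK.Defs

/-! Module MK/Flip. Flips: symmetry, images, and the piecewise linear homeomorphism.

`Flip.symm`: Y = {F ∈ X : not A ⊆ F} ∪ {(A∖a) ∪ R : a ∈ A}.
 h1 for (R, A, Y): R ∪ (A∖a) ∈ Y. h2: F ∈ Y and R ⊆ F: F ∈ X is impossible by h3, so F is new.
 h3: F ∈ Y with A ⊆ F: only (A∖a) ∪ R ⊇ A, impossible since a ∉ R (disjoint).
 hY: X = {F ∈ Y : not R ⊆ F} ∪ {(R∖r) ∪ A : r ∈ R}: if F ∈ X and not A ⊆ F then F ∈ Y and not
 R ⊆ F (h3); if A ⊆ F use h2; conversely h1.
`Flip.image`: f injective, so inclusions, erase and union are compatible with images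
 (`Finset.image_subset_image_iff`, `Finset.image_union`, `Finset.image_erase`-like lemma by ext).
`flip_iso`. Put m x = min of x a over a ∈ A (`Finset.inf'`), n y = min of y r over r ∈ R,
  f x = x - m(x) 1_A + (|A| m(x) / |R|) 1_R,   g y = y - n(y) 1_R + (|R| n(y) / |A|) 1_A.
 Let x ∈ sx F, F ∈ X. If not A ⊆ F then some a ∈ A has x a = 0, all x ≥ 0, so m x = 0, f x = x,
 and F ∈ Y. Moreover not R ⊆ F (h3), so n x = 0 and g x = x = g (f x).
 If A ⊆ F then F = A ∪ (R∖r) by h2. With x a₀ = m x: all coordinates of f x are nonnegative, the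
 coordinate a₀ is 0, the coordinates outside A ∪ R are 0, the total sum is unchanged
 (- |A| m + |R| |A| m / |R| = 0), so f x ∈ sx ((A∖a₀) ∪ R). Since x r = 0 ≤ x r' for r' ∈ R,
 n (f x) = |A| m x / |R|, hence g (f x) = x.
 So f maps Rz X to Rz Y with g (f x) = x; by `Flip.symm` the same holds with the roles of
 (A, R, X, f, m) and (R, A, Y, g, n) exchanged: prove this half as a lemma for a general flip.
 PLOn: for every a₀ ∈ A the piece {x : 0 ≤ x a - x a₀ for all a ∈ A}, on which f is
 x ↦ x - x a₀ 1_A + (|A| x a₀ / |R|) 1_R. See `starPsi_pl`, `starLin`, `star_iso` in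
 `DT70/Star.lean` (the case |R| = 1), whose proofs can be imitated.
-/

namespace Pool.Agent.MK

open Pool.Agent.DT70

theorem Flip.symm {α : Type} [DecidableEq α] {A R : Finset α} {X Y : Set (Finset α)}
    (h : Flip A R X Y) : Flip R A Y X := by
  refine ⟨h.disj.symm, h.hR, h.hA, ?_, ?_, ?_, ?_⟩
  · intro a ha
    rw [h.hY]
    exact Or.inr ⟨a, ha, Finset.union_comm _ _⟩
  · intro F hF hRF
    rw [h.hY] at hF
    rcases hF with hF | ⟨a, ha, rfl⟩
    · exact absurd hRF (h.h3 F hF.1)
    · exact ⟨a, ha, Finset.union_comm _ _⟩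
  · intro F hF hAF
    rw [h.hY] at hF
    rcases hF with hF | ⟨a, ha, rfl⟩
    · exact hF.2 hAF
    · have := hAF ha
      rw [Finset.mem_union] at this
      rcases this with h1 | h1
      · exact Finset.notMem_erase a A h1
      · exact Finset.disjoint_left.1 h.disj ha h1
  · ext F
    constructor
    · intro hF
      by_cases hAF : A ⊆ F
      · obtain ⟨r, hr, rfl⟩ := h.h2 F hF hAF
        exact Or.inr ⟨r, hr, Finset.union_comm _ _⟩
      · refine Or.inl ⟨?_, h.h3 F hF⟩
        rw [h.hY]
        exact Or.inl ⟨hF, hAF⟩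
    · rintro (⟨hF, hRF⟩ | ⟨r, hr, rfl⟩)
      · rw [h.hY] at hF
        rcases hF with hF | ⟨a, ha, rfl⟩
        · exact hF.1
        · exact absurd Finset.subset_union_right hRF
      · rw [Finset.union_comm]
        exact h.h1 r hr

theorem Flip.image {α β : Type} [DecidableEq α] [DecidableEq β] {A R : Finset α}
    {X Y : Set (Finset α)} (h : Flip A R X Y) (f : α → β) (hf : Function.Injective f) :
    Flip (A.image f) (R.image f) {t | ∃ s ∈ X, t = s.image f} {t | ∃ s ∈ Y, t = s.image f} := by
  have e1 : ∀ (S : Finset α) (a : α), (S.erase a).image f = (S.image f).erase (f a) := by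
    intro S a
    ext y
    simp only [Finset.mem_image, Finset.mem_erase]
    constructor
    · rintro ⟨b, ⟨hb1, hb2⟩, rfl⟩
      exact ⟨fun h => hb1 (hf h), b, hb2, rfl⟩
    · rintro ⟨hy, b, hb, rfl⟩
      exact ⟨b, ⟨fun h => hy (by rw [h]), hb⟩, rfl⟩
  have e2 : ∀ S T : Finset α, S.image f ⊆ T.image f ↔ S ⊆ T :=
    fun S T => Finset.image_subset_image_iff hf
  refine ⟨?_, h.hA.image f, h.hR.image f, ?_, ?_, ?_, ?_⟩
  · exact (Finset.disjoint_image hf).2 h.disj
  · intro r hr
    obtain ⟨s, hs, rfl⟩ := Finset.mem_image.1 hr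
    exact ⟨_, h.h1 s hs, by rw [Finset.image_union, e1]⟩
  · rintro F ⟨s, hs, rfl⟩ hAF
    obtain ⟨r, hr, rfl⟩ := h.h2 s hs ((e2 _ _).1 hAF)
    exact ⟨f r, Finset.mem_image_of_mem f hr, by rw [Finset.image_union, e1]⟩
  · rintro F ⟨s, hs, rfl⟩ hRF
    exact h.h3 s hs ((e2 _ _).1 hRF)
  · ext F
    constructor
    · rintro ⟨s, hs, rfl⟩
      rw [h.hY] at hs
      rcases hs with hs | ⟨a, ha, rfl⟩
      · exact Or.inl ⟨⟨s, hs.1, rfl⟩, fun hh => hs.2 ((e2 _ _).1 hh)⟩
      · exact Or.inr ⟨f a, Finset.mem_image_of_mem f ha, by rw [Finset.image_union, e1]⟩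
    · rintro (⟨⟨s, hs, rfl⟩, hh⟩ | ⟨b, hb, rfl⟩)
      · refine ⟨s, ?_, rfl⟩
        rw [h.hY]
        exact Or.inl ⟨hs, fun h1 => hh ((e2 _ _).2 h1)⟩
      · obtain ⟨a, ha, rfl⟩ := Finset.mem_image.1 hb
        refine ⟨A.erase a ∪ R, ?_, by rw [Finset.image_union, e1]⟩
        rw [h.hY]
        exact Or.inr ⟨a, ha, rfl⟩

/-- the flip map -/
noncomputable def flipMap (A R : Finset ℕ) (hA : A.Nonempty) (x : E) : E := fun w =>
  if w ∈ A then x w - A.inf' hA x else
    if w ∈ R then x w + A.card * A.inf' hA x / R.card else x w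

/-- the linear branch of the flip map -/
noncomputable def flipLin (A R : Finset ℕ) (u : ℕ) : E →L[ℝ] E :=
  ContinuousLinearMap.pi (fun w => if w ∈ A then starPr w - starPr u else
    if w ∈ R then starPr w + ((A.card : ℝ) / R.card) • starPr u else starPr w)

theorem flipLin_eq (A R : Finset ℕ) (hA : A.Nonempty) (y : E) {u : ℕ} (hu : u ∈ A)
    (h : ∀ v ∈ A, y u ≤ y v) : flipMap A R hA y = flipLin A R u y := by
  funext w
  simp only [flipMap, flipLin, ContinuousLinearMap.coe_pi', star_inf A hA y hu h]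
  split_ifs
  · simp [starPr_apply]
  · simp [starPr_apply]
    ring
  · simp [starPr_apply]

theorem flipMap_pl (A R : Finset ℕ) (hA : A.Nonempty) (S : Set E) :
    PLOn S (flipMap A R hA) := by
  refine ⟨A.toList.map (fun u => (A.toList.map (fun v =>
    (starPr v - starPr u).toContinuousAffineMap),
    (flipLin A R u).toContinuousAffineMap)), ?_⟩
  have key : ∀ (x : E) (u : ℕ),
      (∀ φ ∈ A.toList.map (fun v =>
        (starPr v - starPr u).toContinuousAffineMap), 0 ≤ φ x) ↔ ∀ v ∈ A, x u ≤ x v := by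
    intro x u
    constructor
    · intro h v hv
      have := h _ (List.mem_map.2 ⟨v, Finset.mem_toList.2 hv, rfl⟩)
      simp [starPr_apply] at this
      exact this
    · intro h φ hφ
      obtain ⟨v, hv, rfl⟩ := List.mem_map.1 hφ
      have := h v (Finset.mem_toList.1 hv)
      simp [starPr_apply]
      exact this
  intro x _
  constructor
  · obtain ⟨u, hu, hu2⟩ := A.exists_min_image x hA
    refine ⟨_, List.mem_map.2 ⟨u, Finset.mem_toList.2 hu, rfl⟩, ?_⟩
    exact (key x u).2 hu2
  · intro q hq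
    obtain ⟨u, hu, rfl⟩ := List.mem_map.1 hq
    intro h
    exact flipLin_eq A R hA x (Finset.mem_toList.1 hu) ((key x u).1 h)

theorem flipMap_id (A R : Finset ℕ) (hA : A.Nonempty) {F : Finset ℕ} (hAF : ¬ A ⊆ F) {x : E}
    (hx : x ∈ sx F) : flipMap A R hA x = x := by
  rw [Finset.not_subset] at hAF
  obtain ⟨u, hu, huF⟩ := hAF
  have h2 : x u = 0 := hx.2.1 u huF
  have hm : A.inf' hA x = 0 := by
    rw [star_inf A hA x hu (fun v _ => by rw [h2]; exact hx.1 v), h2]
  funext w
  simp only [flipMap, hm]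
  split_ifs <;> simp

theorem flip_half {A R : Finset ℕ} {X Y : Set (Finset ℕ)} (h : Flip A R X Y) :
    ∀ x ∈ Rz X, flipMap A R h.hA x ∈ Rz Y ∧ flipMap R A h.hR (flipMap A R h.hA x) = x := by
  rintro x ⟨F, hF, hx⟩
  by_cases hAF : A ⊆ F
  · obtain ⟨r, hr, rfl⟩ := h.h2 F hF hAF
    obtain ⟨hx1, hx2, hx3⟩ := hx
    obtain ⟨u, hu, hu2⟩ := A.exists_min_image x h.hA
    have hm : A.inf' h.hA x = x u := star_inf A h.hA x hu hu2
    have dj : ∀ w, w ∈ R → w ∉ A := fun w hw hw2 => Finset.disjoint_left.1 h.disj hw2 hw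
    have hcA : (0 : ℝ) < A.card := by exact_mod_cast h.hA.card_pos
    have hcR : (0 : ℝ) < R.card := by exact_mod_cast h.hR.card_pos
    have hxr : x r = 0 := by
      apply hx2
      rw [Finset.mem_union, not_or]
      exact ⟨dj r hr, Finset.notMem_erase r R⟩
    have fA : ∀ w ∈ A, flipMap A R h.hA x w = x w - x u := by
      intro w hw
      simp only [flipMap, if_pos hw, hm]
    have fR : ∀ w ∈ R, flipMap A R h.hA x w = x w + A.card * x u / R.card := by
      intro w hw
      simp only [flipMap, if_neg (dj w hw), if_pos hw, hm]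
    have fO : ∀ w, w ∉ A → w ∉ R → flipMap A R h.hA x w = x w := by
      intro w hw hw2
      simp only [flipMap, if_neg hw, if_neg hw2]
    have hdis1 : Disjoint A (R.erase r) :=
      Finset.disjoint_of_subset_right (Finset.erase_subset r R) h.disj
    have hdis2 : Disjoint (A.erase u) R :=
      Finset.disjoint_of_subset_left (Finset.erase_subset u A) h.disj
    rw [Finset.sum_union hdis1] at hx3
    have hs1 : ∑ w ∈ R, x w = ∑ w ∈ R.erase r, x w := by
      rw [← Finset.sum_erase_add R x hr, hxr, add_zero]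
    have hs2 : ∑ w ∈ A.erase u, x w = ∑ w ∈ A, x w - x u := by
      rw [← Finset.sum_erase_add A x hu]
      ring
    constructor
    · refine ⟨A.erase u ∪ R, ?_, ?_, ?_, ?_⟩
      · rw [h.hY]
        exact Or.inr ⟨u, hu, rfl⟩
      · intro w
        by_cases hwA : w ∈ A
        · rw [fA w hwA]
          linarith [hu2 w hwA]
        · by_cases hwR : w ∈ R
          · rw [fR w hwR]
            have := hx1 w
            have := hx1 u
            positivity
          · rw [fO w hwA hwR]
            exact hx1 w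
      · intro w hw
        rw [Finset.mem_union, not_or, Finset.mem_erase, not_and_or, not_not] at hw
        rcases hw.1 with h1 | h1
        · rw [h1, fA u hu]
          ring
        · rw [fO w h1 hw.2]
          apply hx2
          rw [Finset.mem_union, not_or]
          exact ⟨h1, fun h2 => hw.2 (Finset.mem_of_mem_erase h2)⟩
      · rw [Finset.sum_union hdis2,
          Finset.sum_congr rfl (fun w hw => fA w (Finset.mem_of_mem_erase hw)),
          Finset.sum_congr rfl fR, Finset.sum_sub_distrib, Finset.sum_add_distrib,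
          Finset.sum_const, Finset.sum_const, nsmul_eq_mul, nsmul_eq_mul,
          Finset.card_erase_of_mem hu, Nat.cast_sub (Finset.one_le_card.2 h.hA), hs2, hs1]
        have : (R.card : ℝ) * (A.card * x u / R.card) = A.card * x u := by
          field_simp
        rw [this]
        push_cast
        linarith
    · have hn : R.inf' h.hR (flipMap A R h.hA x) = A.card * x u / R.card := by
        rw [star_inf R h.hR (flipMap A R h.hA x) hr]
        · rw [fR r hr, hxr, zero_add]
        · intro v hv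
          rw [fR r hr, fR v hv, hxr]
          linarith [hx1 v]
      funext w
      by_cases hwR : w ∈ R
      · have : flipMap R A h.hR (flipMap A R h.hA x) w =
            flipMap A R h.hA x w - R.inf' h.hR (flipMap A R h.hA x) := by
          show (if w ∈ R then _ else _) = _
          rw [if_pos hwR]
        rw [this, hn, fR w hwR]
        ring
      · by_cases hwA : w ∈ A
        · have : flipMap R A h.hR (flipMap A R h.hA x) w =
              flipMap A R h.hA x w + R.card * R.inf' h.hR (flipMap A R h.hA x) / A.card := by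
            show (if w ∈ R then _ else if w ∈ A then _ else _) = _
            rw [if_neg hwR, if_pos hwA]
          rw [this, hn, fA w hwA]
          field_simp
          ring
        · have : flipMap R A h.hR (flipMap A R h.hA x) w = flipMap A R h.hA x w := by
            show (if w ∈ R then _ else if w ∈ A then _ else _) = _
            rw [if_neg hwR, if_neg hwA]
          rw [this, fO w hwA hwR]
  · rw [flipMap_id A R h.hA hAF hx, flipMap_id R A h.hR (h.h3 F hF) hx]
    refine ⟨⟨F, ?_, hx⟩, rfl⟩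
    rw [h.hY]
    exact Or.inl ⟨hF, hAF⟩

theorem flip_iso {A R : Finset ℕ} {X Y : Set (Finset ℕ)} (h : Flip A R X Y) :
    ∃ f g : E → E, Iso PLOn (Rz X) (Rz Y) f g ∧ ∀ F ∈ X, ¬ A ⊆ F → ∀ x ∈ sx F, f x = x := by
  refine ⟨flipMap A R h.hA, flipMap R A h.hR, ⟨flip_half h, flip_half h.symm,
    flipMap_pl A R h.hA _, flipMap_pl R A h.hR _⟩, ?_⟩
  intro F _ hAF x hx
  exact flipMap_id A R h.hA hAF hx

end Pool.Agent.MK
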