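import Pool.Agent.MK.Flip

/-! Module MK/FlipLk. A flip of 4-dimensional complexes preserves the property that all vertex
links are PL 3-spheres.

Let v be a vertex of Y (v ∈ s ∈ Y). `LkOK false Z` means `Sph Z` (the second alternative needs
false = true).
(1) v ∉ A, v ∉ R: lk v Y = lk v X: the removed facets A ∪ (R∖r) and the new ones (A∖a) ∪ R do not
 contain v. Moreover v is a vertex of X. So hX.
(2) v ∈ A. If A = {v}: no facet of Y contains v (F ∈ X, not {v} ⊆ F; or ∅ ∪ R with v ∉ R): there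
 is nothing to prove. Otherwise (A∖v nonempty) `Flip (A.erase v) R (lk v X) (lk v Y)`:
 h1: from A ∪ (R∖r) ∋ v, erase v. h2: t = F∖v, v ∈ F ∈ X, A∖v ⊆ t, so A ⊆ F, F = A ∪ (R∖r).
 h3: R ⊆ t ⊆ F is impossible. hY: F ∈ Y, v ∈ F: F ∈ X with not A ⊆ F iff not A∖v ⊆ F∖v; or
 F = (A∖a) ∪ R with a ≠ v, F∖v = ((A∖v)∖a) ∪ R (v ∉ R).
 v is a vertex of X (take r ∈ R: A ∪ (R∖r)); hX gives Sph (lk v X); `flip_iso` gives
 PLh (lk v X) (lk v Y); conclude with `LkOK.of_plh` and `PLh.symm`.
(3) v ∈ R. If R = {v}: |A| = 5, and lk v Y = bd A (F ∈ X does not contain R = {v}; the others are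
 (A∖a) ∪ {v}); `sph_bd`. Otherwise `Flip A (R.erase v) (lk v X) (lk v Y)`:
 h1: r ∈ R∖v: A ∪ (R∖r) contains v; erase v. h2: A ⊆ F∖v gives F = A ∪ (R∖r), v ∈ F so r ≠ v.
 h3: R∖v ⊆ F∖v and v ∈ F would give R ⊆ F. hY: as before. v is a vertex of X: take r ∈ R∖v.
-/

namespace Pool.Agent.MK

open Pool.Agent.DT70

private theorem e1 {A B : Finset ℕ} {v : ℕ} (hB : v ∉ B) :
    (A ∪ B).erase v = A.erase v ∪ B := by
  ext x
  simp only [Finset.mem_erase, Finset.mem_union]
  constructor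
  · rintro ⟨h1, h2 | h2⟩
    · exact Or.inl ⟨h1, h2⟩
    · exact Or.inr h2
  · rintro (⟨h1, h2⟩ | h2)
    · exact ⟨h1, Or.inl h2⟩
    · exact ⟨fun h => hB (h ▸ h2), Or.inr h2⟩

private theorem sub_of_erase {A F : Finset ℕ} {v : ℕ} (hv : v ∈ F) (h : A.erase v ⊆ F.erase v) :
    A ⊆ F := by
  intro x hx
  by_cases hxv : x = v
  · rw [hxv]; exact hv
  · exact Finset.mem_of_mem_erase (h (Finset.mem_erase.mpr ⟨hxv, hx⟩))

private theorem sub_iff_erase {A F : Finset ℕ} {v : ℕ} (hv : v ∈ F) :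
    A.erase v ⊆ F.erase v ↔ A ⊆ F :=
  ⟨sub_of_erase hv, fun h => Finset.erase_subset_erase v h⟩

private theorem flip_lk_A {A R : Finset ℕ} {X Y : Set (Finset ℕ)} (h : Flip A R X Y) {v : ℕ}
    (hv : v ∈ A) (hne : (A.erase v).Nonempty) : Flip (A.erase v) R (lk v X) (lk v Y) := by
  have hvR : v ∉ R := fun h1 => Finset.disjoint_left.mp h.disj hv h1
  have hvR' : ∀ r, v ∉ R.erase r := fun r h1 => hvR (Finset.mem_of_mem_erase h1)
  refine ⟨h.disj.mono_left (Finset.erase_subset _ _), hne, h.hR, ?_, ?_, ?_, ?_⟩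
  · intro r hr
    exact ⟨A ∪ R.erase r, h.h1 r hr, Finset.mem_union_left _ hv, (e1 (hvR' r)).symm⟩
  · rintro _ ⟨F, hF, hvF, rfl⟩ hsub
    obtain ⟨r, hr, rfl⟩ := h.h2 F hF (sub_of_erase hvF hsub)
    exact ⟨r, hr, e1 (hvR' r)⟩
  · rintro _ ⟨F, hF, hvF, rfl⟩ hsub
    exact h.h3 F hF (hsub.trans (Finset.erase_subset _ _))
  · ext t
    rw [h.hY]
    constructor
    · rintro ⟨F, hF, hvF, rfl⟩
      rcases hF with ⟨hFX, hAF⟩ | ⟨a, ha, rfl⟩
      · exact Or.inl ⟨⟨F, hFX, hvF, rfl⟩, fun hs => hAF (sub_of_erase hvF hs)⟩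
      · right
        have hav : a ≠ v := by
          rintro rfl
          rcases Finset.mem_union.mp hvF with h1 | h1
          · exact (Finset.mem_erase.mp h1).1 rfl
          · exact hvR h1
        exact ⟨a, Finset.mem_erase.mpr ⟨hav, ha⟩, by rw [e1 hvR, Finset.erase_right_comm]⟩
    · rintro (⟨⟨F, hF, hvF, rfl⟩, hs⟩ | ⟨a, ha, rfl⟩)
      · exact ⟨F, Or.inl ⟨hF, fun hAF => hs (Finset.erase_subset_erase v hAF)⟩, hvF, rfl⟩
      · obtain ⟨hav, ha⟩ := Finset.mem_erase.mp ha
        refine ⟨A.erase a ∪ R, Or.inr ⟨a, ha, rfl⟩, ?_, by rw [e1 hvR, Finset.erase_right_comm]⟩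
        exact Finset.mem_union_left _ (Finset.mem_erase.mpr ⟨hav.symm, hv⟩)

private theorem flip_lk_R {A R : Finset ℕ} {X Y : Set (Finset ℕ)} (h : Flip A R X Y) {v : ℕ}
    (hv : v ∈ R) (hne : (R.erase v).Nonempty) : Flip A (R.erase v) (lk v X) (lk v Y) := by
  have hvA : v ∉ A := fun h1 => Finset.disjoint_left.mp h.disj h1 hv
  have hvA' : ∀ r, v ∉ A.erase r := fun r h1 => hvA (Finset.mem_of_mem_erase h1)
  have e2 : ∀ B C : Finset ℕ, v ∉ B → (B ∪ C).erase v = B ∪ C.erase v := by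
    intro B C hB
    rw [Finset.union_comm, e1 hB, Finset.union_comm]
  refine ⟨h.disj.mono_right (Finset.erase_subset _ _), h.hA, hne, ?_, ?_, ?_, ?_⟩
  · intro r hr
    obtain ⟨hrv, hr⟩ := Finset.mem_erase.mp hr
    refine ⟨A ∪ R.erase r, h.h1 r hr, ?_, ?_⟩
    · exact Finset.mem_union_right _ (Finset.mem_erase.mpr ⟨hrv.symm, hv⟩)
    · rw [e2 _ _ hvA, Finset.erase_right_comm]
  · rintro _ ⟨F, hF, hvF, rfl⟩ hsub
    obtain ⟨r, hr, rfl⟩ := h.h2 F hF (hsub.trans (Finset.erase_subset _ _))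
    have hrv : r ≠ v := by
      rintro rfl
      rcases Finset.mem_union.mp hvF with h1 | h1
      · exact hvA h1
      · exact (Finset.mem_erase.mp h1).1 rfl
    exact ⟨r, Finset.mem_erase.mpr ⟨hrv, hr⟩, by rw [e2 _ _ hvA, Finset.erase_right_comm]⟩
  · rintro _ ⟨F, hF, hvF, rfl⟩ hsub
    exact h.h3 F hF (sub_of_erase hvF hsub)
  · ext t
    rw [h.hY]
    constructor
    · rintro ⟨F, hF, hvF, rfl⟩
      rcases hF with ⟨hFX, hAF⟩ | ⟨a, ha, rfl⟩
      · exact Or.inl ⟨⟨F, hFX, hvF, rfl⟩, fun hs => hAF (hs.trans (Finset.erase_subset _ _))⟩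
      · exact Or.inr ⟨a, ha, e2 _ _ (hvA' a)⟩
    · rintro (⟨⟨F, hF, hvF, rfl⟩, hs⟩ | ⟨a, ha, rfl⟩)
      · refine ⟨F, Or.inl ⟨hF, fun hAF => hs fun x hx => ?_⟩, hvF, rfl⟩
        exact Finset.mem_erase.mpr ⟨fun h1 => hvA (h1 ▸ hx), hAF hx⟩
      · exact ⟨A.erase a ∪ R, Or.inr ⟨a, ha, rfl⟩, Finset.mem_union_right _ hv,
          (e2 _ _ (hvA' a)).symm⟩

theorem flip_lks {A R : Finset ℕ} {X Y : Set (Finset ℕ)} (h : Flip A R X Y)
    (hc : A.card + R.card = 6) (hX : Lks false X) : Lks false Y := by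
  intro v hvY
  have key : ∀ {A' R' : Finset ℕ}, Flip A' R' (lk v X) (lk v Y) → (∃ s ∈ X, v ∈ s) →
      LkOK false (lk v Y) := by
    intro A' R' hf hvX
    obtain ⟨f, g, hfg, -⟩ := flip_iso hf
    exact LkOK.of_plh (PLh.symm ⟨f, g, hfg⟩) (hX v hvX)
  by_cases hvA : v ∈ A
  · have hvR : v ∉ R := fun h1 => Finset.disjoint_left.mp h.disj hvA h1
    by_cases hne : (A.erase v).Nonempty
    · obtain ⟨r, hr⟩ := h.hR
      exact key (flip_lk_A h hvA hne) ⟨A ∪ R.erase r, h.h1 r hr, Finset.mem_union_left _ hvA⟩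
    · exfalso
      rw [Finset.not_nonempty_iff_eq_empty] at hne
      obtain ⟨F, hF, hvF⟩ := hvY
      rw [h.hY] at hF
      rcases hF with ⟨hFX, hAF⟩ | ⟨a, ha, rfl⟩
      · apply hAF
        intro x hx
        by_cases hxv : x = v
        · rw [hxv]; exact hvF
        · have : x ∈ A.erase v := Finset.mem_erase.mpr ⟨hxv, hx⟩
          rw [hne] at this
          exact absurd this (Finset.notMem_empty _)
      · have hav : a = v := by
          by_contra hav
          have : a ∈ A.erase v := Finset.mem_erase.mpr ⟨hav, ha⟩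
          rw [hne] at this
          exact absurd this (Finset.notMem_empty _)
        subst hav
        rcases Finset.mem_union.mp hvF with h1 | h1
        · exact (Finset.mem_erase.mp h1).1 rfl
        · exact hvR h1
  · by_cases hvR : v ∈ R
    · by_cases hne : (R.erase v).Nonempty
      · obtain ⟨r, hr⟩ := hne
        have hr' := Finset.mem_erase.mp hr
        exact key (flip_lk_R h hvR ⟨r, hr⟩) ⟨A ∪ R.erase r, h.h1 r hr'.2,
          Finset.mem_union_right _ (Finset.mem_erase.mpr ⟨hr'.1.symm, hvR⟩)⟩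
      · rw [Finset.not_nonempty_iff_eq_empty] at hne
        have hR1 : R = {v} := by
          rw [← Finset.insert_erase hvR, hne]
          rfl
        have hlk : lk v Y = bd A := by
          ext t
          constructor
          · rintro ⟨F, hF, hvF, rfl⟩
            rw [h.hY] at hF
            rcases hF with ⟨hFX, hAF⟩ | ⟨a, ha, rfl⟩
            · exact absurd (by rw [hR1]; exact Finset.singleton_subset_iff.mpr hvF) (h.h3 F hFX)
            · refine ⟨a, ha, ?_⟩
              rw [hR1]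
              ext x
              simp only [Finset.mem_erase, Finset.mem_union, Finset.mem_singleton]
              constructor
              · rintro ⟨h1, h2 | h2⟩
                · exact h2
                · exact absurd h2 h1
              · rintro ⟨h1, h2⟩
                exact ⟨fun h3 => hvA (h3 ▸ h2), Or.inl ⟨h1, h2⟩⟩
          · rintro ⟨a, ha, rfl⟩
            refine ⟨A.erase a ∪ R, by rw [h.hY]; exact Or.inr ⟨a, ha, rfl⟩,
              Finset.mem_union_right _ hvR, ?_⟩
            rw [hR1]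
            ext x
            simp only [Finset.mem_erase, Finset.mem_union, Finset.mem_singleton]
            constructor
            · rintro ⟨h1, h2⟩
              exact ⟨fun h3 => hvA (h3 ▸ h2), Or.inl ⟨h1, h2⟩⟩
            · rintro ⟨h1, h2 | h2⟩
              · exact h2
              · exact absurd h2 h1
        rw [hlk]
        refine Or.inl (sph_bd A ?_)
        rw [hR1, Finset.card_singleton] at hc
        omega
    · have hlk : lk v Y = lk v X := by
        ext t
        constructor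
        · rintro ⟨F, hF, hvF, rfl⟩
          rw [h.hY] at hF
          rcases hF with ⟨hFX, hAF⟩ | ⟨a, ha, rfl⟩
          · exact ⟨F, hFX, hvF, rfl⟩
          · exfalso
            rcases Finset.mem_union.mp hvF with h1 | h1
            · exact hvA (Finset.mem_of_mem_erase h1)
            · exact hvR h1
        · rintro ⟨F, hF, hvF, rfl⟩
          refine ⟨F, ?_, hvF, rfl⟩
          rw [h.hY]
          left
          refine ⟨hF, fun hAF => ?_⟩
          obtain ⟨r, hr, rfl⟩ := h.h2 F hF hAF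
          rcases Finset.mem_union.mp hvF with h1 | h1
          · exact hvA h1
          · exact hvR (Finset.mem_of_mem_erase h1)
      rw [hlk]
      apply hX
      obtain ⟨F, hF, hvF⟩ := hvY
      rw [h.hY] at hF
      rcases hF with ⟨hFX, hAF⟩ | ⟨a, ha, rfl⟩
      · exact ⟨F, hFX, hvF⟩
      · exfalso
        rcases Finset.mem_union.mp hvF with h1 | h1
        · exact hvA (Finset.mem_of_mem_erase h1)
        · exact hvR h1

end Pool.Agent.MK
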