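import Pool.Agent.MK.Pm

/-! Module MK/KIff. Explicit description of the boundary facets; extension of chains.

`top_cases`: (v_k = vtx q π k; sig q π = {v_0, .., v_5}, v_0 = q, v_5 = q + 1.) A 5-element subset
 (sig q π)∖v_k: for k = 0 the only other simplex containing it has the smallest element q + e (π 0);
 for k = 5 the only other one has the smallest element q - e (π 4); for 1 ≤ k ≤ 4 a simplex which
 contains it contains q and q + 1, so its smallest element is q. Proof: let F' be a simplex which contains
 (sig q π)∖v_k, q' = min F', so q' ≤ x ≤ q' + 1 for x ∈ F' (`sig_max`).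
 1 ≤ k ≤ 4: q' ≤ q and q + 1 ≤ q' + 1, q' = q.
 k = 0: v_1 = q + e (π 0), v_5 = q + 1 are in F': q' ≤ q + e (π 0), q + 1 ≤ q' + 1: q ≤ q' ≤ q + e (π 0).
  So q' = q or q' = q + e (π 0). If q' = q then F' = {q} ∪ ((sig q π)∖v_0) = sig q π (6 elements).
  k = 5 similarly with v_0 = q, v_4 = q + 1 - e (π 4).
`K_iff`: G ∈ K X = Bd (TS X): G = F∖x with F = sig q π, q ∈ X, x = v_k, and no other simplex of TS X
 contains G. By `pm` there is exactly one other simplex F' ⊇ G. If 1 ≤ k ≤ 4: F' has minimum q ∈ X,
 contradiction. If k = 0 its minimum is q + e (π 0): so this is not in X; if k = 5: q - e (π 4).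
 Conversely such a G is in K X: the other simplex F' ⊇ G is not in TS X, since its minimum is not
 in X (the minimum of a simplex is unique).
`ext_chain`: for i let key i = number of x ∈ G with x i = q i. Let π be a permutation such that
 key (π 0) ≤ .. ≤ key (π 4) (sort; `Tuple.sort`, `Tuple.monotone_sort`). For x ∈ G let
 D = {i : x i = q i + 1}. If i ∈ D, j ∉ D then key i < key j: y ∈ G with y i = q i is not ≥ x, so
 y ≤ x (Simp) and y j = q j; and x is counted for j but not for i. So D is an initial segment for
 π: D = pre π |D|, x = vtx q π |D|, |D| ≤ 5.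
`ext_low`: apply `ext_chain` to G ∪ {q, q + e k}: q + e k ∈ sig q π, sum of coordinates: it is vtx q π 1,
 so π 0 = k; q ∉ G. `ext_high`: apply it to G ∪ {q + 1, q + 1 - e k}: this is vtx q π 4, π 4 = k.
-/

namespace Pool.Agent.MK

open Pool.Agent.DT70

private theorem kvtx_apply (q : P) (π : Equiv.Perm (Fin 5)) (k : ℕ) (i : Fin 5) :
    vtx q π k i = q i + if (π.symm i : ℕ) < k then 1 else 0 := rfl

private theorem kvtx_zero (q : P) (π : Equiv.Perm (Fin 5)) : vtx q π 0 = q := by
  funext i
  simp [vtx]

private theorem kvtx_five (q : P) (π : Equiv.Perm (Fin 5)) : vtx q π 5 = q + 1 := by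
  funext i
  have := (π.symm i).isLt
  simp [vtx]

private theorem kvtx_one (q : P) (π : Equiv.Perm (Fin 5)) : vtx q π 1 = q + e (π 0) := by
  funext i
  simp only [vtx, e, Pi.add_apply]
  have h : ((π.symm i : ℕ) < 1) ↔ i = π 0 := by
    rw [Nat.lt_one_iff]
    constructor
    · intro h
      have h0 : π.symm i = 0 := Fin.ext (by simpa using h)
      rw [← h0]
      simp
    · rintro rfl
      simp
  by_cases hi : i = π 0
  · rw [if_pos (h.2 hi), if_pos hi]
  · rw [if_neg (fun hh => hi (h.1 hh)), if_neg hi]

private theorem kvtx_four (q : P) (π : Equiv.Perm (Fin 5)) : vtx q π 4 = q + 1 - e (π 4) := by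
  funext i
  simp only [vtx, e, Pi.add_apply, Pi.sub_apply, Pi.one_apply]
  have h : ((π.symm i : ℕ) < 4) ↔ i ≠ π 4 := by
    constructor
    · rintro h rfl
      simp at h
    · intro h
      by_contra hcon
      apply h
      have h0 : π.symm i = 4 := Fin.ext (by
        have := (π.symm i).isLt
        show (π.symm i : ℕ) = 4
        omega)
      rw [← h0]
      simp
  by_cases hi : i = π 4
  · rw [if_neg (fun hh => (h.1 hh) hi), if_pos hi]
    ring
  · rw [if_pos (h.2 hi), if_neg hi]
    ring

private theorem keq_of_card {A B : Finset P} (hA : Top A) (hB : Top B) (h : A ⊆ B) : A = B :=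
  Finset.eq_of_subset_of_card_le h (by rw [hA.2, hB.2])

private theorem top_cases {q : P} {π : Equiv.Perm (Fin 5)} {k : ℕ} (hk : k < 6)
    {F' : Finset P} (hF' : Top F') (hne : F' ≠ sig q π)
    (hs : (sig q π).erase (vtx q π k) ⊆ F') {q' : P} (hq' : q' ∈ F') (hm : ∀ x ∈ F', q' ≤ x) :
    (k = 0 ∧ q' = q + e (π 0)) ∨ (k = 5 ∧ q' = q - e (π 4)) ∨ (0 < k ∧ k < 5 ∧ q' = q) := by
  obtain ⟨ρ, rfl⟩ := exists_sig hF' hq' hm
  have hmax := (sig_max q' ρ).2
  have hmem : ∀ l, l < 6 → l ≠ k → vtx q π l ∈ sig q' ρ := by
    intro l hl hlk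
    refine hs (Finset.mem_erase.2 ⟨?_, mem_sig.2 ⟨l, hl, rfl⟩⟩)
    intro h
    exact hlk (vtx_inj hl hk h).1
  rcases Nat.eq_zero_or_pos k with h0 | h0
  · left
    refine ⟨h0, ?_⟩
    subst h0
    have h1 := hm _ (hmem 1 (by norm_num) (by norm_num))
    have h5 := hmax _ (hmem 5 (by norm_num) (by norm_num))
    rw [kvtx_one] at h1
    rw [kvtx_five] at h5
    by_cases hc : q' (π 0) = q (π 0)
    · exfalso
      have hqq : q' = q := by
        funext i
        have ha := Pi.le_def.1 h1 i
        have hb := Pi.le_def.1 h5 i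
        simp only [Pi.add_apply, Pi.one_apply, e] at ha hb
        by_cases hi : i = π 0
        · subst hi
          exact hc
        · rw [if_neg hi] at ha
          omega
      subst hqq
      apply hne
      symm
      refine keq_of_card (top_sig _ _) (top_sig _ _) ?_
      intro x hx
      by_cases hx0 : x = vtx q' π 0
      · rw [hx0, kvtx_zero]
        exact (sig_min q' ρ).1
      · exact hs (Finset.mem_erase.2 ⟨hx0, hx⟩)
    · funext i
      have ha := Pi.le_def.1 h1 i
      have hb := Pi.le_def.1 h5 i
      simp only [Pi.add_apply, Pi.one_apply, e] at ha hb ⊢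
      by_cases hi : i = π 0
      · subst hi
        simp only [if_true] at ha ⊢
        omega
      · rw [if_neg hi] at ha ⊢
        omega
  · right
    rcases Nat.lt_or_ge k 5 with h5 | h5
    · right
      refine ⟨h0, h5, ?_⟩
      have ha := hm _ (hmem 0 (by norm_num) (by omega))
      have hb := hmax _ (hmem 5 (by norm_num) (by omega))
      rw [kvtx_zero] at ha
      rw [kvtx_five] at hb
      funext i
      have ha' := Pi.le_def.1 ha i
      have hb' := Pi.le_def.1 hb i
      simp only [Pi.add_apply, Pi.one_apply] at hb'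
      omega
    · left
      have hk5 : k = 5 := by omega
      refine ⟨hk5, ?_⟩
      subst hk5
      have h1 := hm _ (hmem 0 (by norm_num) (by norm_num))
      have h4 := hmax _ (hmem 4 (by norm_num) (by norm_num))
      rw [kvtx_zero] at h1
      rw [kvtx_four] at h4
      by_cases hc : q' (π 4) = q (π 4)
      · exfalso
        have hqq : q' = q := by
          funext i
          have ha := Pi.le_def.1 h1 i
          have hb := Pi.le_def.1 h4 i
          simp only [Pi.add_apply, Pi.sub_apply, Pi.one_apply, e] at hb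
          by_cases hi : i = π 4
          · subst hi
            exact hc
          · rw [if_neg hi] at hb
            omega
        subst hqq
        apply hne
        symm
        refine keq_of_card (top_sig _ _) (top_sig _ _) ?_
        intro x hx
        by_cases hx0 : x = vtx q' π 5
        · rw [hx0, kvtx_five]
          exact (sig_max q' ρ).1
        · exact hs (Finset.mem_erase.2 ⟨hx0, hx⟩)
      · funext i
        have ha := Pi.le_def.1 h1 i
        have hb := Pi.le_def.1 h4 i
        simp only [Pi.add_apply, Pi.sub_apply, Pi.one_apply, e] at hb ⊢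
        by_cases hi : i = π 4
        · subst hi
          simp only [if_true] at hb ⊢
          omega
        · rw [if_neg hi] at hb ⊢
          omega

private theorem sig_TS {X : Set P} {q : P} (hq : q ∈ X) (π : Equiv.Perm (Fin 5)) :
    sig q π ∈ TS X :=
  ⟨top_sig q π, q, hq, (sig_min q π).1, (sig_min q π).2⟩

theorem K_iff {X : Set P} {G : Finset P} :
    G ∈ K X ↔ ∃ q ∈ X, ∃ π : Equiv.Perm (Fin 5),
      (q + e (π 0) ∉ X ∧ G = (sig q π).erase q) ∨
      (q - e (π 4) ∉ X ∧ G = (sig q π).erase (q + 1)) := by
  constructor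
  · rintro ⟨F, ⟨hF, q, hqX, hq, hm⟩, ⟨x, hx, rfl⟩, huniq⟩
    obtain ⟨π, rfl⟩ := exists_sig hF hq hm
    obtain ⟨k, hk, rfl⟩ := mem_sig.1 hx
    obtain ⟨F', hF', hne, hsub, -⟩ := pm hF hx
    obtain ⟨q', hq', hm'⟩ := exists_min hF'
    have hnX : q' ∉ X := fun h => hne (huniq F' ⟨hF', q', h, hq', hm'⟩ hsub)
    refine ⟨q, hqX, π, ?_⟩
    rcases top_cases hk hF' hne hsub hq' hm' with ⟨h0, h⟩ | ⟨h5, h⟩ | ⟨-, -, h⟩
    · left
      rw [← h]
      refine ⟨hnX, ?_⟩
      rw [h0, kvtx_zero]
    · right
      rw [← h]
      refine ⟨hnX, ?_⟩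
      rw [h5, kvtx_five]
    · exact absurd (h ▸ hqX) hnX
  · rintro ⟨q, hqX, π, h | h⟩
    · obtain ⟨hn, rfl⟩ := h
      refine ⟨sig q π, sig_TS hqX π, ⟨q, (sig_min q π).1, rfl⟩, ?_⟩
      rintro F' ⟨hF', p, hpX, hp, hpm⟩ hsub
      by_contra hne
      have hsub' : (sig q π).erase (vtx q π 0) ⊆ F' := by rwa [kvtx_zero]
      rcases top_cases (by norm_num) hF' hne hsub' hp hpm with ⟨-, h⟩ | ⟨h0, -⟩ | ⟨h0, -, -⟩
      · exact hn (h ▸ hpX)
      · omega
      · omega
    · obtain ⟨hn, rfl⟩ := h
      refine ⟨sig q π, sig_TS hqX π, ⟨q + 1, (sig_max q π).1, rfl⟩, ?_⟩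
      rintro F' ⟨hF', p, hpX, hp, hpm⟩ hsub
      by_contra hne
      have hsub' : (sig q π).erase (vtx q π 5) ⊆ F' := by rwa [kvtx_five]
      rcases top_cases (by norm_num) hF' hne hsub' hp hpm with ⟨h0, -⟩ | ⟨-, h⟩ | ⟨-, h0, -⟩
      · omega
      · exact hn (h ▸ hpX)
      · omega

private theorem kseg : ∀ S : Finset (Fin 5), (∀ a ∈ S, ∀ b, b ∉ S → a < b) →
    ∀ a : Fin 5, a ∈ S ↔ (a : ℕ) < S.card := by
  decide

theorem ext_chain {G : Finset P} (hG : Simp G) {q : P} (h : ∀ x ∈ G, q ≤ x ∧ x ≤ q + 1) :
    ∃ π, G ⊆ sig q π := by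
  classical
  let key : Fin 5 → ℕ := fun i => (G.filter (fun x => x i = q i)).card
  have hmono : Monotone (key ∘ Tuple.sort key) := Tuple.monotone_sort key
  refine ⟨Tuple.sort key, ?_⟩
  set π : Equiv.Perm (Fin 5) := Tuple.sort key with hπ
  intro x hx
  have hx1 : ∀ i, x i = q i ∨ x i = q i + 1 := by
    intro i
    have h1 := Pi.le_def.1 (h x hx).1 i
    have h2 := Pi.le_def.1 (h x hx).2 i
    simp only [Pi.add_apply, Pi.one_apply] at h2
    omega
  have hkey : ∀ i j, x i = q i + 1 → x j = q j → key i < key j := by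
    intro i j hi hj
    refine Finset.card_lt_card ?_
    rw [Finset.ssubset_iff_of_subset]
    · refine ⟨x, Finset.mem_filter.2 ⟨hx, hj⟩, ?_⟩
      intro hh
      have := (Finset.mem_filter.1 hh).2
      omega
    · intro y hy
      obtain ⟨hyG, hyi⟩ := Finset.mem_filter.1 hy
      refine Finset.mem_filter.2 ⟨hyG, ?_⟩
      have hyi' : y i = q i := hyi
      show y j = q j
      rcases hG x hx y hyG with hxy | hxy
      · have := Pi.le_def.1 hxy.1 i
        omega
      · have h1 := Pi.le_def.1 hxy.1 j
        have h2 := Pi.le_def.1 (h y hyG).1 j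
        omega
  let D : Finset (Fin 5) := Finset.univ.filter (fun a => x (π a) = q (π a) + 1)
  have hD : ∀ a ∈ D, ∀ b, b ∉ D → a < b := by
    intro a ha b hb
    have ha' : x (π a) = q (π a) + 1 := (Finset.mem_filter.1 ha).2
    have hb' : x (π b) = q (π b) := by
      rcases hx1 (π b) with h | h
      · exact h
      · exact absurd (Finset.mem_filter.2 ⟨Finset.mem_univ b, h⟩ : b ∈ D) hb
    have hlt := hkey _ _ ha' hb'
    by_contra hcon
    push Not at hcon
    have := hmono hcon
    simp only [Function.comp] at this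
    omega
  have hseg := kseg D hD
  refine mem_sig.2 ⟨D.card, ?_, ?_⟩
  · have := Finset.card_le_univ D
    rw [Fintype.card_fin] at this
    omega
  · funext i
    rw [kvtx_apply]
    have hi := hseg (π.symm i)
    by_cases hc : x i = q i + 1
    · rw [if_pos (hi.1 (Finset.mem_filter.2 ⟨Finset.mem_univ _, by simpa using hc⟩))]
      exact hc
    · rw [if_neg (fun hh => hc (by simpa using (Finset.mem_filter.1 (hi.2 hh)).2))]
      rcases hx1 i with h | h
      · omega
      · exact absurd h hc

theorem ext_low {G : Finset P} (hG : Simp G) {q : P} {k : Fin 5}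
    (h : ∀ x ∈ G, q + e k ≤ x ∧ x ≤ q + 1) :
    ∃ π : Equiv.Perm (Fin 5), π 0 = k ∧ G ⊆ (sig q π).erase q := by
  classical
  have hek0 : ∀ i, 0 ≤ e k i := fun i => by simp only [e]; split_ifs <;> omega
  have hek1 : ∀ i, e k i ≤ 1 := fun i => by simp only [e]; split_ifs <;> omega
  have hS : Simp (insert q (insert (q + e k) G)) := by
    have h1 : ∀ y ∈ insert q (insert (q + e k) G), q ≤ y ∧ y ≤ q + 1 := by
      intro y hy
      rcases Finset.mem_insert.1 hy with rfl | hy
      · exact ⟨le_rfl, fun i => by simp⟩
      · rcases Finset.mem_insert.1 hy with rfl | hy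
        · refine ⟨fun i => ?_, fun i => ?_⟩
          · have := hek0 i
            simp only [Pi.add_apply]
            omega
          · have := hek1 i
            simp only [Pi.add_apply, Pi.one_apply]
            omega
        · refine ⟨Pi.le_def.2 fun i => ?_, (h y hy).2⟩
          have h1 := Pi.le_def.1 (h y hy).1 i
          have := hek0 i
          simp only [Pi.add_apply] at h1
          omega
    have h2 : ∀ y ∈ insert (q + e k) G, q + e k ≤ y := by
      intro y hy
      rcases Finset.mem_insert.1 hy with rfl | hy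
      · exact le_rfl
      · exact (h y hy).1
    have hle : ∀ x ∈ insert q (insert (q + e k) G), ∀ y ∈ insert q (insert (q + e k) G),
        y ≤ x + 1 := by
      intro x hx y hy
      refine Pi.le_def.2 fun i => ?_
      have a := Pi.le_def.1 (h1 x hx).1 i
      have b := Pi.le_def.1 (h1 y hy).2 i
      simp only [Pi.add_apply, Pi.one_apply] at b ⊢
      omega
    intro x hx y hy
    have hcomp : x ≤ y ∨ y ≤ x := by
      rcases Finset.mem_insert.1 hx with hxq | hx'
      · left
        rw [hxq]
        exact (h1 y hy).1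
      · rcases Finset.mem_insert.1 hy with hyq | hy'
        · right
          rw [hyq]
          exact (h1 x hx).1
        · rcases Finset.mem_insert.1 hx' with hxk | hxG
          · left
            rw [hxk]
            exact h2 y hy'
          · rcases Finset.mem_insert.1 hy' with hyk | hyG
            · right
              rw [hyk]
              exact h2 x hx'
            · rcases hG x hxG y hyG with hh | hh
              · exact Or.inl hh.1
              · exact Or.inr hh.1
    rcases hcomp with hh | hh
    · exact Or.inl ⟨hh, hle x hx y hy⟩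
    · exact Or.inr ⟨hh, hle y hy x hx⟩
  obtain ⟨π, hπ⟩ := ext_chain hS (q := q) (by
    intro y hy
    rcases Finset.mem_insert.1 hy with rfl | hy
    · exact ⟨le_rfl, fun i => by simp⟩
    · rcases Finset.mem_insert.1 hy with rfl | hy
      · refine ⟨fun i => ?_, fun i => ?_⟩
        · have := hek0 i
          simp only [Pi.add_apply]
          omega
        · have := hek1 i
          simp only [Pi.add_apply, Pi.one_apply]
          omega
      · refine ⟨Pi.le_def.2 fun i => ?_, (h y hy).2⟩
        have h1 := Pi.le_def.1 (h y hy).1 i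
        have := hek0 i
        simp only [Pi.add_apply] at h1
        omega)
  refine ⟨π, ?_, ?_⟩
  · obtain ⟨l, hl, hv⟩ := mem_sig.1
      (hπ (Finset.mem_insert_of_mem (Finset.mem_insert_self (q + e k) G)))
    have hk := congrFun hv k
    rw [kvtx_apply] at hk
    simp only [Pi.add_apply, e, if_true] at hk
    have hkl : (π.symm k : ℕ) < l := by
      by_contra hcon
      rw [if_neg hcon] at hk
      omega
    have h0 := congrFun hv (π 0)
    rw [kvtx_apply] at h0
    simp only [Pi.add_apply, e, Equiv.symm_apply_apply] at h0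
    rw [if_pos (show ((0 : Fin 5) : ℕ) < l by simp; omega)] at h0
    by_contra hcon
    rw [if_neg hcon] at h0
    omega
  · intro x hx
    refine Finset.mem_erase.2 ⟨?_, hπ (Finset.mem_insert_of_mem (Finset.mem_insert_of_mem hx))⟩
    rintro rfl
    have := (h x hx).1 k
    simp [e] at this

theorem ext_high {G : Finset P} (hG : Simp G) {q : P} {k : Fin 5}
    (h : ∀ x ∈ G, q ≤ x ∧ x ≤ q + 1 - e k) :
    ∃ π : Equiv.Perm (Fin 5), π 4 = k ∧ G ⊆ (sig q π).erase (q + 1) := by
  classical
  have hek0 : ∀ i, 0 ≤ e k i := fun i => by simp only [e]; split_ifs <;> omega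
  have hek1 : ∀ i, e k i ≤ 1 := fun i => by simp only [e]; split_ifs <;> omega
  have h1 : ∀ y ∈ insert (q + 1) (insert (q + 1 - e k) G), q ≤ y ∧ y ≤ q + 1 := by
    intro y hy
    rcases Finset.mem_insert.1 hy with rfl | hy
    · exact ⟨fun i => by simp, le_rfl⟩
    · rcases Finset.mem_insert.1 hy with rfl | hy
      · refine ⟨fun i => ?_, fun i => ?_⟩
        · have := hek1 i
          simp only [Pi.add_apply, Pi.sub_apply, Pi.one_apply]
          omega
        · have := hek0 i
          simp only [Pi.add_apply, Pi.sub_apply, Pi.one_apply]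
          omega
      · refine ⟨(h y hy).1, fun i => ?_⟩
        have h1 := Pi.le_def.1 (h y hy).2 i
        have := hek0 i
        simp only [Pi.add_apply, Pi.sub_apply, Pi.one_apply] at h1 ⊢
        omega
  have hS : Simp (insert (q + 1) (insert (q + 1 - e k) G)) := by
    have h2 : ∀ y ∈ insert (q + 1 - e k) G, y ≤ q + 1 - e k := by
      intro y hy
      rcases Finset.mem_insert.1 hy with rfl | hy
      · exact le_rfl
      · exact (h y hy).2
    have hle : ∀ x ∈ insert (q + 1) (insert (q + 1 - e k) G),
        ∀ y ∈ insert (q + 1) (insert (q + 1 - e k) G), y ≤ x + 1 := by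
      intro x hx y hy
      refine Pi.le_def.2 fun i => ?_
      have a := Pi.le_def.1 (h1 x hx).1 i
      have b := Pi.le_def.1 (h1 y hy).2 i
      simp only [Pi.add_apply, Pi.one_apply] at b ⊢
      omega
    intro x hx y hy
    have hcomp : x ≤ y ∨ y ≤ x := by
      rcases Finset.mem_insert.1 hx with hxq | hx'
      · right
        rw [hxq]
        exact (h1 y hy).2
      · rcases Finset.mem_insert.1 hy with hyq | hy'
        · left
          rw [hyq]
          exact (h1 x hx).2
        · rcases Finset.mem_insert.1 hx' with hxk | hxG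
          · right
            rw [hxk]
            exact h2 y hy'
          · rcases Finset.mem_insert.1 hy' with hyk | hyG
            · left
              rw [hyk]
              exact h2 x hx'
            · rcases hG x hxG y hyG with hh | hh
              · exact Or.inl hh.1
              · exact Or.inr hh.1
    rcases hcomp with hh | hh
    · exact Or.inl ⟨hh, hle x hx y hy⟩
    · exact Or.inr ⟨hh, hle y hy x hx⟩
  obtain ⟨π, hπ⟩ := ext_chain hS (q := q) h1
  refine ⟨π, ?_, ?_⟩
  · obtain ⟨l, hl, hv⟩ := mem_sig.1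
      (hπ (Finset.mem_insert_of_mem (Finset.mem_insert_self (q + 1 - e k) G)))
    have hk := congrFun hv k
    rw [kvtx_apply] at hk
    simp only [Pi.add_apply, Pi.sub_apply, Pi.one_apply, e, if_true] at hk
    have hkl : ¬ (π.symm k : ℕ) < l := by
      intro hcon
      rw [if_pos hcon] at hk
      omega
    have hk5 := (π.symm k).isLt
    have h0 := congrFun hv (π 4)
    rw [kvtx_apply] at h0
    simp only [Pi.add_apply, Pi.sub_apply, Pi.one_apply, e, Equiv.symm_apply_apply] at h0
    rw [if_neg (show ¬ ((4 : Fin 5) : ℕ) < l by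
      show ¬ (4 < l)
      omega)] at h0
    by_contra hcon
    rw [if_neg hcon] at h0
    omega
  · intro x hx
    refine Finset.mem_erase.2 ⟨?_, hπ (Finset.mem_insert_of_mem (Finset.mem_insert_of_mem hx))⟩
    rintro rfl
    have := (h _ hx).2 k
    simp [e] at this

end Pool.Agent.MK
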