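import Pool.Agent.MK.Defs

/-! Module MK/Kuhn. The simplices of dimension 5 of the Kuhn triangulation are the `sig q π`.

`vtx q π k` is q plus the indicator of `pre π k`; `pre π k` has k elements for k ≤ 5
(`pre π k` = image of {j < k} under π). So for k ≤ l ≤ 5: vtx k ≤ vtx l ≤ vtx k + 1, and the
vtx k, k ≤ 5, are distinct (the sum of the coordinates of vtx q π k is (sum of q) + k): `top_sig`.
`exists_min`: a finite nonempty chain has a smallest element (take an element of F with minimal
 coordinate sum; for comparable x ≤ y, x ≠ y the sum of x is smaller).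
`exists_sig`: let S x = sum of the coordinates. On F the function S is injective (chain), with
 values between S q and S q + 5 (x ≤ q + 1 for x ∈ F: since q ≤ x, Simp gives x ≤ q + 1 in both
 cases: in the second case x ≤ q so x = q). As F has 6 elements, for every k ≤ 5 there is exactly
 one x_k ∈ F with S x_k = S q + k, x_0 = q, and x_k ≤ x_{k+1} ≤ x_k + 1 with sum difference 1: so
 x_{k+1} = x_k + e (p k) for exactly one direction p k. x_5 = q + 1, so all the p k, k < 5, are
 distinct (each coordinate increases by exactly 1 in total), π = p is a permutation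
 (`Equiv.ofBijective`, injective functions on Fin 5 are bijective), and x_k = vtx q π k.
 An alternative: define π.symm i + 1 = the smallest k with x_k i = q i + 1.
`vtx_mem_sig`: vtx q π k = vtx q ρ l iff pre π k = pre ρ l; for k, l ≤ 5 this forces k = l
 (cardinalities).
`sig_inj`: q is the smallest element; pre π k = pre ρ k for all k ≤ 5 gives π = ρ: the direction
 number k is the unique element of pre (k+1) not in pre k.
-/

namespace Pool.Agent.MK

open Pool.Agent.DT70

private theorem mem_pre {π : Equiv.Perm (Fin 5)} {k : ℕ} {i : Fin 5} :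
    i ∈ pre π k ↔ (π.symm i : ℕ) < k := by
  simp [pre]

theorem pre_card (π : Equiv.Perm (Fin 5)) {k : ℕ} (hk : k ≤ 5) : (pre π k).card = k := by
  have h : pre π k = (Finset.univ.filter fun j : Fin 5 => (j : ℕ) < k).map π.toEmbedding := by
    ext i
    rw [mem_pre, Finset.mem_map]
    constructor
    · intro h
      exact ⟨π.symm i, by simpa using h, by simp⟩
    · rintro ⟨j, hj, rfl⟩
      simpa using hj
  rw [h, Finset.card_map]
  interval_cases k <;> decide

theorem mem_sig {q : P} {π : Equiv.Perm (Fin 5)} {x : P} :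
    x ∈ sig q π ↔ ∃ k < 6, x = vtx q π k := by
  simp only [sig, Finset.mem_image, Finset.mem_range]
  constructor
  · rintro ⟨k, hk, rfl⟩
    exact ⟨k, hk, rfl⟩
  · rintro ⟨k, hk, rfl⟩
    exact ⟨k, hk, rfl⟩

private theorem vtx_apply_mem {q : P} {π : Equiv.Perm (Fin 5)} {k : ℕ} {i : Fin 5} :
    vtx q π k i = q i + if i ∈ pre π k then 1 else 0 := by
  simp only [vtx, mem_pre]

theorem vtx_inj {q : P} {π ρ : Equiv.Perm (Fin 5)} {k l : ℕ} (hk : k < 6) (hl : l < 6)
    (h : vtx q π k = vtx q ρ l) : k = l ∧ pre π k = pre ρ l := by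
  have hpre : pre π k = pre ρ l := by
    ext i
    have hi := congrFun h i
    rw [vtx_apply_mem, vtx_apply_mem] at hi
    by_cases h1 : i ∈ pre π k <;> by_cases h2 : i ∈ pre ρ l <;> simp [h1, h2] at hi ⊢
  refine ⟨?_, hpre⟩
  rw [← pre_card π (show k ≤ 5 by omega), ← pre_card ρ (show l ≤ 5 by omega), hpre]

theorem vtx_mem_sig {q : P} {π ρ : Equiv.Perm (Fin 5)} {k : ℕ} (hk : k < 6) :
    vtx q π k ∈ sig q ρ ↔ pre π k = pre ρ k := by
  rw [mem_sig]
  constructor
  · rintro ⟨l, hl, h⟩
    obtain ⟨h1, h2⟩ := vtx_inj hk hl h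
    rw [h2, h1]
  · intro h
    refine ⟨k, hk, ?_⟩
    funext i
    rw [vtx_apply_mem, vtx_apply_mem, h]

private theorem vtx_mono {q : P} {π : Equiv.Perm (Fin 5)} {k l : ℕ} (h : k ≤ l) :
    vtx q π k ≤ vtx q π l := by
  intro i
  simp only [vtx]
  split_ifs <;> omega

private theorem vtx_le_add {q : P} {π : Equiv.Perm (Fin 5)} {k l : ℕ} :
    vtx q π l ≤ vtx q π k + 1 := by
  intro i
  simp only [vtx, Pi.add_apply, Pi.one_apply]
  split_ifs <;> omega

theorem top_sig (q : P) (π : Equiv.Perm (Fin 5)) : Top (sig q π) := by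
  constructor
  · intro x hx y hy
    obtain ⟨k, hk, rfl⟩ := mem_sig.mp hx
    obtain ⟨l, hl, rfl⟩ := mem_sig.mp hy
    rcases le_total k l with h | h
    · exact Or.inl ⟨vtx_mono h, vtx_le_add⟩
    · exact Or.inr ⟨vtx_mono h, vtx_le_add⟩
  · unfold sig
    rw [Finset.card_image_of_injOn, Finset.card_range]
    intro k hk l hl h
    exact (vtx_inj (by simpa using hk) (by simpa using hl) h).1

private theorem vtx_zero (q : P) (π : Equiv.Perm (Fin 5)) : vtx q π 0 = q := by
  funext i
  simp [vtx]

private theorem vtx_five (q : P) (π : Equiv.Perm (Fin 5)) : vtx q π 5 = q + 1 := by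
  funext i
  have := (π.symm i).isLt
  simp [vtx]

theorem sig_min (q : P) (π : Equiv.Perm (Fin 5)) : q ∈ sig q π ∧ ∀ x ∈ sig q π, q ≤ x := by
  constructor
  · exact mem_sig.mpr ⟨0, by norm_num, (vtx_zero q π).symm⟩
  · intro x hx
    obtain ⟨k, hk, rfl⟩ := mem_sig.mp hx
    have := vtx_mono (q := q) (π := π) (Nat.zero_le k)
    rwa [vtx_zero] at this

theorem sig_max (q : P) (π : Equiv.Perm (Fin 5)) : q + 1 ∈ sig q π ∧ ∀ x ∈ sig q π, x ≤ q + 1 := by
  constructor
  · exact mem_sig.mpr ⟨5, by norm_num, (vtx_five q π).symm⟩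
  · intro x hx
    obtain ⟨k, hk, rfl⟩ := mem_sig.mp hx
    have := vtx_mono (q := q) (π := π) (show k ≤ 5 by omega)
    rwa [vtx_five] at this

private theorem eq_of_le_of_sum {x y : P} (h : y ≤ x) (hs : ∑ i, x i ≤ ∑ i, y i) : y = x := by
  funext i
  by_contra hne
  have hlt : y i < x i := lt_of_le_of_ne (h i) hne
  have : ∑ i, y i < ∑ i, x i :=
    Finset.sum_lt_sum (fun j _ => h j) ⟨i, Finset.mem_univ i, hlt⟩
  omega

theorem exists_min {F : Finset P} (hF : Top F) : ∃ q ∈ F, ∀ x ∈ F, q ≤ x := by
  have hne : F.Nonempty := by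
    rw [← Finset.card_pos, hF.2]; norm_num
  obtain ⟨q, hq, hmin⟩ := Finset.exists_min_image F (fun x : P => ∑ i, x i) hne
  refine ⟨q, hq, fun x hx => ?_⟩
  rcases hF.1 q hq x hx with h | h
  · exact h.1
  · exact (eq_of_le_of_sum h.1 (hmin x hx)).ge

theorem exists_sig {F : Finset P} (hF : Top F) {q : P} (hq : q ∈ F) (hm : ∀ x ∈ F, q ≤ x) :
    ∃ π, F = sig q π := by
  classical
  -- all points lie in the cube
  have hcube : ∀ x ∈ F, x ≤ q + 1 := by
    intro x hx
    rcases hF.1 q hq x hx with h | h
    · exact h.2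
    · refine h.1.trans ?_
      intro i
      simp
  let sup : P → Finset (Fin 5) := fun x => Finset.univ.filter fun i => x i = q i + 1
  have hsup : ∀ x ∈ F, ∀ i, x i = q i + if i ∈ sup x then 1 else 0 := by
    intro x hx i
    have h1 : q i ≤ x i := hm x hx i
    have h2 : x i ≤ q i + 1 := hcube x hx i
    simp only [sup, Finset.mem_filter, Finset.mem_univ, true_and]
    split_ifs <;> omega
  have hinj : ∀ x ∈ F, ∀ y ∈ F, sup x = sup y → x = y := by
    intro x hx y hy h
    funext i
    rw [hsup x hx, hsup y hy, h]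
  have hsub : ∀ x ∈ F, ∀ y ∈ F, (sup x).card ≤ (sup y).card → sup x ⊆ sup y := by
    intro x hx y hy hc
    rcases hF.1 x hx y hy with h | h
    · intro i hi
      have h1 : x i ≤ y i := h.1 i
      have h2 := hsup x hx i
      rw [if_pos hi] at h2
      have h3 : y i ≤ q i + 1 := hcube y hy i
      simp only [sup, Finset.mem_filter, Finset.mem_univ, true_and]
      omega
    · have hyx : sup y ⊆ sup x := by
        intro i hi
        have h1 : y i ≤ x i := h.1 i
        have h2 := hsup y hy i
        rw [if_pos hi] at h2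
        have h3 : x i ≤ q i + 1 := hcube x hx i
        simp only [sup, Finset.mem_filter, Finset.mem_univ, true_and]
        omega
      exact (Finset.eq_of_subset_of_card_le hyx hc).ge
  have hcinj : ∀ x ∈ F, ∀ y ∈ F, (sup x).card = (sup y).card → x = y := by
    intro x hx y hy h
    exact hinj x hx y hy (Finset.Subset.antisymm (hsub x hx y hy h.le) (hsub y hy x hx h.ge))
  have hsurj : ∀ k < 6, ∃ x ∈ F, (sup x).card = k := by
    intro k hk
    have himg : F.image (fun x => (sup x).card) = Finset.range 6 := by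
      refine Finset.eq_of_subset_of_card_le ?_ ?_
      · intro j hj
        obtain ⟨x, -, rfl⟩ := Finset.mem_image.mp hj
        have : (sup x).card ≤ (Finset.univ : Finset (Fin 5)).card :=
          Finset.card_le_card (Finset.subset_univ _)
        rw [Finset.card_univ, Fintype.card_fin] at this
        rw [Finset.mem_range]
        omega
      · rw [Finset.card_image_of_injOn (fun x hx y hy h => hcinj x hx y hy h), hF.2,
          Finset.card_range]
    have : k ∈ F.image (fun x => (sup x).card) := by
      rw [himg]; exact Finset.mem_range.mpr hk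
    obtain ⟨x, hx, rfl⟩ := Finset.mem_image.mp this
    exact ⟨x, hx, rfl⟩
  choose! X hXF hXc using hsurj
  -- the directions
  have hstep : ∀ k < 5, ∃ i, i ∉ sup (X k) ∧ sup (X (k + 1)) = insert i (sup (X k)) := by
    intro k hk
    have hss := hsub (X k) (hXF k (by omega)) (X (k + 1)) (hXF (k + 1) (by omega))
      (by rw [hXc k (by omega), hXc (k + 1) (by omega)]; omega)
    have hcard : (sup (X (k + 1)) \ sup (X k)).card = 1 := by
      rw [Finset.card_sdiff_of_subset hss, hXc k (by omega), hXc (k + 1) (by omega)]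
      omega
    obtain ⟨i, hi⟩ := Finset.card_eq_one.mp hcard
    have hmem : i ∈ sup (X (k + 1)) \ sup (X k) := by rw [hi]; simp
    refine ⟨i, (Finset.mem_sdiff.mp hmem).2, ?_⟩
    rw [Finset.insert_eq, ← hi, Finset.sdiff_union_of_subset hss]
  choose! p hp1 hp2 using hstep
  have hmono : ∀ k l, k ≤ l → l < 6 → sup (X k) ⊆ sup (X l) := by
    intro k l hkl hl
    refine hsub _ (hXF k (by omega)) _ (hXF l hl) ?_
    rw [hXc k (by omega), hXc l hl]
    exact hkl
  have hpinj : ∀ k l, k < l → l < 5 → p k ≠ p l := by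
    intro k l hkl hl h
    have h1 : p k ∈ sup (X (k + 1)) := by
      rw [hp2 k (by omega)]; exact Finset.mem_insert_self _ _
    exact hp1 l hl (h ▸ hmono (k + 1) l (by omega) (by omega) h1)
  have hbij : Function.Bijective (fun k : Fin 5 => p (k : ℕ)) := by
    refine Finite.injective_iff_bijective.mp ?_
    intro k l hkl
    rcases lt_trichotomy k l with h | h | h
    · exact absurd hkl (hpinj k l h l.isLt)
    · exact h
    · exact absurd hkl.symm (hpinj l k h k.isLt)
  let π : Equiv.Perm (Fin 5) := Equiv.ofBijective _ hbij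
  have hπ : ∀ k : Fin 5, π k = p k := fun k => rfl
  have hpre : ∀ k < 6, sup (X k) = pre π k := by
    intro k
    induction k with
    | zero =>
      intro _
      have h0 := hXc 0 (by omega)
      rw [Finset.card_eq_zero] at h0
      rw [h0]
      ext i
      simp [mem_pre]
    | succ k ih =>
      intro hk
      rw [hp2 k (by omega), ih (by omega)]
      ext i
      rw [Finset.mem_insert, mem_pre, mem_pre]
      have hpk : π.symm (p k) = ⟨k, by omega⟩ := by
        rw [Equiv.symm_apply_eq]
        exact (hπ ⟨k, by omega⟩).symm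
      constructor
      · rintro (rfl | h)
        · rw [hpk]; simp
        · omega
      · intro h
        rcases Nat.lt_succ_iff_lt_or_eq.mp h with h | h
        · exact Or.inr h
        · left
          have : π.symm i = ⟨k, by omega⟩ := Fin.ext h
          rw [← hpk] at this
          exact π.symm.injective this
  refine ⟨π, Finset.eq_of_subset_of_card_le ?_ ?_⟩
  · intro x hx
    have hlt : (sup x).card < 6 := by
      have : (sup x).card ≤ (Finset.univ : Finset (Fin 5)).card :=
        Finset.card_le_card (Finset.subset_univ _)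
      rw [Finset.card_univ, Fintype.card_fin] at this
      omega
    have hxX : x = X (sup x).card := hcinj x hx _ (hXF _ hlt) (hXc _ hlt).symm
    refine mem_sig.mpr ⟨(sup x).card, hlt, ?_⟩
    funext i
    rw [vtx_apply_mem, ← hpre _ hlt, ← hxX]
    exact hsup x hx i
  · rw [(top_sig q π).2, hF.2]

theorem sig_inj {q q' : P} {π ρ : Equiv.Perm (Fin 5)} (h : sig q π = sig q' ρ) :
    q = q' ∧ π = ρ := by
  have hqq : q = q' := by
    apply le_antisymm
    · exact (sig_min q π).2 q' (h ▸ (sig_min q' ρ).1)
    · exact (sig_min q' ρ).2 q (h ▸ (sig_min q π).1)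
  subst hqq
  refine ⟨rfl, ?_⟩
  have hpre : ∀ k < 6, pre π k = pre ρ k := by
    intro k hk
    rw [← vtx_mem_sig (q := q) hk, ← h]
    exact mem_sig.mpr ⟨k, hk, rfl⟩
  have hsymm : ∀ i, (π.symm i : ℕ) = ρ.symm i := by
    intro i
    have h1 : (ρ.symm i : ℕ) < (π.symm i : ℕ) + 1 := by
      rw [← mem_pre, ← hpre _ (by have := (π.symm i).isLt; omega), mem_pre]
      omega
    have h2 : (π.symm i : ℕ) < (ρ.symm i : ℕ) + 1 := by
      rw [← mem_pre, hpre _ (by have := (ρ.symm i).isLt; omega), mem_pre]
      omega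
    omega
  have : π.symm = ρ.symm := Equiv.ext fun i => Fin.ext (hsymm i)
  have h2 := congrArg Equiv.symm this
  simpa using h2

end Pool.Agent.MK
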