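import Pool.Agent.MK.Kuhn

/-! Module MK/Pm. Every facet of the Kuhn triangulation is in exactly two simplices of dimension 5.

Write F = sig q π (`exists_min`, `exists_sig`), v_k = vtx q π k, x = v_k, S = coordinate sum.
The other simplex F':
 k = 0: F' = {v_1, .., v_5, v_5 + e (π 0)} = sig (q + e (π 0)) (π ∘ rot), rot j = j + 1 mod 5;
 k = 5: F' = {v_0 - e (π 4), v_0, .., v_4} = sig (q - e (π 4)) (π ∘ rot⁻¹);
 1 ≤ k ≤ 4: F' = sig q (π ∘ swap (k-1) k), in which v_k is replaced by v_{k-1} + e (π k).
 (For `Top F'` one may also check Simp and the cardinality directly.)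
Uniqueness: Let F'' be a simplex, F∖x ⊆ F''. Then F'' = (F∖x) ∪ {y}, y ∉ F∖x (cardinalities). The sums S
 of the elements of F'' are six consecutive integers (F'' = sig q'' π''), so S y = S x, or
 (if k = 0) S y = S q + 6, or (if k = 5) S y = S q - 1. y is comparable within 1 to all elements.
 1 ≤ k ≤ 4: v_{k-1} ≤ y ≤ v_{k+1} = v_{k-1} + e (π (k-1)) + e (π k), S y = S v_{k-1} + 1: so
  y = v_{k-1} + e (π (k-1)) = x or y = v_{k-1} + e (π k).
 k = 0: if S y = S q: y ≤ v_1 and v_5 = q + 1 ≤ y + 1, so q ≤ y, S y = S q: y = q = x.
  If S y = S q + 6: v_5 ≤ y ≤ v_1 + 1 = v_5 + e (π 0), so y = v_5 + e (π 0).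
 k = 5: symmetric.
-/

namespace Pool.Agent.MK

open Pool.Agent.DT70

private def S (y : P) : ℤ := ∑ i, y i

private theorem S_vtx (q : P) (π : Equiv.Perm (Fin 5)) {k : ℕ} (hk : k ≤ 5) :
    S (vtx q π k) = S q + k := by
  unfold S vtx
  rw [Finset.sum_add_distrib, Finset.sum_boole]
  have := pre_card π hk
  unfold pre at this
  rw [this]

private theorem eq_of_le_S {a b : P} (h : a ≤ b) (hs : S b ≤ S a) : a = b := by
  have h1 : S a ≤ S b := Finset.sum_le_sum (fun i _ => h i)
  have h2 := (Finset.sum_eq_sum_iff_of_le (fun i (_ : i ∈ Finset.univ) => h i)).1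
    (le_antisymm h1 hs)
  funext i
  exact h2 i (Finset.mem_univ i)

private def C (y z : P) : Prop := (y ≤ z ∧ z ≤ y + 1) ∨ (z ≤ y ∧ y ≤ z + 1)

private theorem C_symm {y z : P} (h : C y z) : C z y := h.symm

private theorem C_lt {y z : P} (h : C y z) (hs : S y < S z) : y ≤ z ∧ z ≤ y + 1 := by
  rcases h with h | h
  · exact h
  · have : S z ≤ S y := Finset.sum_le_sum (fun i _ => h.1 i)
    omega

private theorem C_gt {y z : P} (h : C y z) (hs : S z < S y) : z ≤ y ∧ y ≤ z + 1 :=
  C_lt (C_symm h) hs

private theorem C_eq {y z : P} (h : C y z) (hs : S z = S y) : y = z := by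
  rcases h with h | h
  · exact eq_of_le_S h.1 hs.le
  · exact (eq_of_le_S h.1 hs.ge).symm

private theorem pm_aux {F : Finset P} (hF : Top F) {x : P} (hx : x ∈ F) (y : P) (hy : y ∉ F)
    (hc : ∀ z ∈ F, z ≠ x → C y z)
    (hu : ∀ w, (∀ z ∈ F, z ≠ x → w ≠ z) → (∀ z ∈ F, z ≠ x → C w z) → w = x ∨ w = y) :
    ∃ F', Top F' ∧ F' ≠ F ∧ F.erase x ⊆ F' ∧
      ∀ F'', Top F'' → F.erase x ⊆ F'' → F'' = F ∨ F'' = F' := by
  have hy' : y ∉ F.erase x := fun h => hy (Finset.mem_of_mem_erase h)
  have hcard : (F.erase x).card = 5 := by
    rw [Finset.card_erase_of_mem hx, hF.2]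
  refine ⟨insert y (F.erase x), ⟨?_, ?_⟩, ?_, Finset.subset_insert _ _, ?_⟩
  · intro a ha b hb
    rw [Finset.mem_insert, Finset.mem_erase] at ha hb
    rcases ha with rfl | ha
    · rcases hb with rfl | hb
      · left
        exact ⟨le_refl _, fun i => by simp⟩
      · exact hc b hb.2 hb.1
    · rcases hb with rfl | hb
      · exact C_symm (hc a ha.2 ha.1)
      · exact hF.1 a ha.2 b hb.2
  · rw [Finset.card_insert_of_notMem hy', hcard]
  · intro h
    apply hy
    rw [← h]
    exact Finset.mem_insert_self _ _
  · intro F'' hT hs
    have h1 : (F'' \ F.erase x).card = 1 := by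
      rw [Finset.card_sdiff_of_subset hs, hT.2, hcard]
    obtain ⟨w, hw⟩ := Finset.card_eq_one.1 h1
    have hF'' : F'' = insert w (F.erase x) := by
      rw [← Finset.sdiff_union_of_subset hs, hw]
      rfl
    have hwm : w ∈ F'' \ F.erase x := by rw [hw]; exact Finset.mem_singleton_self _
    rw [Finset.mem_sdiff] at hwm
    have hwu := hu w (fun z hz hzx hwz => hwm.2 (by
        rw [hwz]; exact Finset.mem_erase.2 ⟨hzx, hz⟩))
      (fun z hz hzx => hT.1 w hwm.1 z (hs (Finset.mem_erase.2 ⟨hzx, hz⟩)))
    rcases hwu with rfl | rfl
    · left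
      rw [hF'', Finset.insert_erase hx]
    · right
      exact hF''

private theorem vtx_apply (q : P) (π : Equiv.Perm (Fin 5)) (k : ℕ) (i : Fin 5) :
    vtx q π k i = q i + if (π.symm i : ℕ) < k then 1 else 0 := rfl

theorem pm {F : Finset P} (hF : Top F) {x : P} (hx : x ∈ F) :
    ∃ F', Top F' ∧ F' ≠ F ∧ F.erase x ⊆ F' ∧
      ∀ F'', Top F'' → F.erase x ⊆ F'' → F'' = F ∨ F'' = F' := by
  obtain ⟨q, hq, hm⟩ := exists_min hF
  obtain ⟨π, rfl⟩ := exists_sig hF hq hm
  obtain ⟨k, hk, rfl⟩ := mem_sig.1 hx
  have hlt : ∀ i, (π.symm i : ℕ) < 5 := fun i => (π.symm i).2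
  have hne : ∀ l, l < 6 → l ≠ k → vtx q π l ≠ vtx q π k := fun l hl hlk h =>
    hlk (vtx_inj hl hk h).1
  have hS : ∀ l, l < 6 → S (vtx q π l) = S q + l := fun l hl => S_vtx q π (by omega)
  -- the key reduction
  have key : ∀ y : P, (∀ l, l < 6 → y ≠ vtx q π l) → (∀ l, l < 6 → l ≠ k → C y (vtx q π l)) →
      (∀ w, (∀ l, l < 6 → l ≠ k → w ≠ vtx q π l) → (∀ l, l < 6 → l ≠ k → C w (vtx q π l)) →
        w = vtx q π k ∨ w = y) →
      ∃ F', Top F' ∧ F' ≠ sig q π ∧ (sig q π).erase (vtx q π k) ⊆ F' ∧
        ∀ F'', Top F'' → (sig q π).erase (vtx q π k) ⊆ F'' → F'' = sig q π ∨ F'' = F' := by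
    intro y hy1 hy2 hy3
    refine pm_aux hF hx y ?_ ?_ ?_
    · intro h
      obtain ⟨l, hl, h'⟩ := mem_sig.1 h
      exact hy1 l hl h'
    · intro z hz hzx
      obtain ⟨l, hl, rfl⟩ := mem_sig.1 hz
      exact hy2 l hl (fun h => hzx (by rw [h]))
    · intro w hw1 hw2
      refine hy3 w (fun l hl hlk => ?_) (fun l hl hlk => ?_)
      · exact hw1 _ (mem_sig.2 ⟨l, hl, rfl⟩) (hne l hl hlk)
      · exact hw2 _ (mem_sig.2 ⟨l, hl, rfl⟩) (hne l hl hlk)
  -- the sum of `w` is not one of the others
  have hsum : ∀ w, (∀ l, l < 6 → l ≠ k → w ≠ vtx q π l) →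
      (∀ l, l < 6 → l ≠ k → C w (vtx q π l)) → ∀ l, l < 6 → l ≠ k → S w ≠ S q + l := by
    intro w hw1 hw2 l hl hlk h
    exact hw1 l hl hlk (C_eq (hw2 l hl hlk) (by rw [hS l hl, h]))
  rcases Nat.lt_trichotomy k 0 with h0 | h0 | h0
  · omega
  · -- k = 0
    subst h0
    have hy : S (fun i => q i + 1 + if (π.symm i : ℕ) < 1 then 1 else 0) = S q + 6 := by
      have h1 := hS 1 (by norm_num)
      have h5 := hS 5 (by norm_num)
      have : S (fun i => q i + 1 + if (π.symm i : ℕ) < 1 then 1 else 0) =
          S (vtx q π 1) + S (vtx q π 5) - S q := by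
        unfold S
        rw [← Finset.sum_add_distrib, ← Finset.sum_sub_distrib]
        refine Finset.sum_congr rfl fun i _ => ?_
        simp only [vtx_apply]
        rw [if_pos (hlt i)]
        ring
      rw [this, h1, h5]
      push_cast
      ring
    refine key (fun i => q i + 1 + if (π.symm i : ℕ) < 1 then 1 else 0) ?_ ?_ ?_
    · intro l hl h
      have h1 := hS l hl
      rw [← h, hy] at h1
      omega
    · intro l hl hl0
      right
      constructor
      · intro i
        simp only [vtx_apply]
        split_ifs <;> omega
      · intro i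
        simp only [vtx_apply, Pi.add_apply, Pi.one_apply]
        split_ifs <;> omega
    · intro w hw1 hw2
      have hs := hsum w hw1 hw2
      have hs1 := hs 1 (by norm_num) (by norm_num)
      have hs2 := hs 2 (by norm_num) (by norm_num)
      have hs3 := hs 3 (by norm_num) (by norm_num)
      have hs4 := hs 4 (by norm_num) (by norm_num)
      have hs5 := hs 5 (by norm_num) (by norm_num)
      push_cast at hs1 hs2 hs3 hs4 hs5
      have hS1 := hS 1 (by norm_num)
      have hS5 := hS 5 (by norm_num)
      push_cast at hS1 hS5
      rcases lt_or_ge (S w) (S q + 1) with h | h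
      · left
        have h1 := C_lt (hw2 5 (by norm_num) (by norm_num)) (by omega)
        have h2 : q ≤ w := Pi.le_def.2 fun i => by
          have := Pi.le_def.1 h1.2 i
          simp only [vtx_apply, Pi.add_apply, Pi.one_apply] at this
          rw [if_pos (hlt i)] at this
          omega
        have h3 : q = w := eq_of_le_S h2 (by omega)
        rw [← h3]
        funext i
        simp [vtx_apply]
      · right
        have h1 := C_gt (hw2 1 (by norm_num) (by norm_num)) (by omega)
        refine eq_of_le_S ?_ ?_
        · intro i
          have := Pi.le_def.1 h1.2 i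
          simp only [vtx_apply, Pi.add_apply, Pi.one_apply] at this
          show w i ≤ q i + 1 + if (π.symm i : ℕ) < 1 then 1 else 0
          omega
        · rw [hy]
          omega
  · rcases Nat.lt_or_ge k 5 with h5 | h5
    · -- 1 ≤ k ≤ 4
      obtain ⟨y, hydef⟩ : ∃ y : P, ∀ i, y i = q i + (if (π.symm i : ℕ) < k - 1 then 1 else 0) +
        (if (π.symm i : ℕ) = k then 1 else 0) := ⟨_, fun i => rfl⟩
      have hy : S y = S q + k := by
        have h1 := hS (k - 1) (by omega)
        have h2 := hS k (by omega)
        have h3 := hS (k + 1) (by omega)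
        have : S y = S (vtx q π (k - 1)) + S (vtx q π (k + 1)) - S (vtx q π k) := by
          unfold S
          rw [← Finset.sum_add_distrib, ← Finset.sum_sub_distrib]
          refine Finset.sum_congr rfl fun i _ => ?_
          simp only [vtx_apply, hydef]
          split_ifs <;> omega
        rw [this, h1, h2, h3]
        push_cast [Nat.cast_sub (show 1 ≤ k from h0)]
        ring
      refine key y ?_ ?_ ?_
      · intro l hl h
        have h1 := hS l hl
        rw [← h, hy] at h1
        have hlk : l = k := by omega
        subst hlk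
        have h2 := congrFun h (π ⟨l, h5⟩)
        rw [hydef, vtx_apply] at h2
        simp at h2
        omega
      · intro l hl hlk
        rcases Nat.lt_or_gt_of_ne hlk with h | h
        · right
          constructor
          · rw [Pi.le_def]; intro i
            rw [vtx_apply, hydef]
            split_ifs <;> omega
          · rw [Pi.le_def]; intro i
            simp only [vtx_apply, Pi.add_apply, Pi.one_apply, hydef]
            split_ifs <;> omega
        · left
          constructor
          · rw [Pi.le_def]; intro i
            rw [vtx_apply, hydef]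
            split_ifs <;> omega
          · rw [Pi.le_def]; intro i
            simp only [vtx_apply, Pi.add_apply, Pi.one_apply, hydef]
            split_ifs <;> omega
      · intro w hw1 hw2
        have hs := hsum w hw1 hw2
        have hS0 := hS 0 (by norm_num)
        have hS5 := hS 5 (by norm_num)
        have hSl := hS (k - 1) (by omega)
        have hSr := hS (k + 1) (by omega)
        have hSk := hS k (by omega)
        push_cast at hS0 hS5 hSr
        rw [Nat.cast_sub (show 1 ≤ k from h0)] at hSl
        push_cast at hSl
        -- `S w = S q + k`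
        have hlow : S q ≤ S w := by
          by_contra hcon
          push Not at hcon
          have h1 := C_lt (hw2 0 (by norm_num) (by omega)) (by omega)
          have h2 := C_lt (hw2 5 (by norm_num) (by omega)) (by omega)
          have h3 : q ≤ w := Pi.le_def.2 fun i => by
            have := Pi.le_def.1 h2.2 i
            simp only [vtx_apply, Pi.add_apply, Pi.one_apply] at this
            rw [if_pos (hlt i)] at this
            omega
          have : S q ≤ S w := Finset.sum_le_sum (fun i _ => h3 i)
          omega
        have hhigh : S w ≤ S q + 5 := by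
          by_contra hcon
          push Not at hcon
          have h1 := C_gt (hw2 0 (by norm_num) (by omega)) (by omega)
          have h3 : w ≤ vtx q π 5 := Pi.le_def.2 fun i => by
            have := Pi.le_def.1 h1.2 i
            simp only [vtx_apply, Pi.add_apply, Pi.one_apply] at this ⊢
            rw [if_pos (hlt i)]
            simpa using this
          have : S w ≤ S (vtx q π 5) := Finset.sum_le_sum (fun i _ => h3 i)
          omega
        have hwk : S w = S q + k := by
          by_contra hcon
          have h1 := hs (S w - S q).toNat (by omega) (by omega)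
          omega
        have h1 := C_gt (hw2 (k - 1) (by omega) (by omega)) (by omega)
        have h2 := C_lt (hw2 (k + 1) (by omega) (by omega)) (by omega)
        by_cases hcase : ∀ i, (π.symm i : ℕ) = k - 1 → w i = q i + 1
        · left
          symm
          refine eq_of_le_S ?_ (by omega)
          rw [Pi.le_def]; intro i
          have ha := Pi.le_def.1 h1.1 i
          have hb := hcase i
          simp only [vtx_apply] at ha ⊢
          split_ifs at ha ⊢ <;> omega
        · right
          push Not at hcase
          obtain ⟨j, hj, hj'⟩ := hcase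
          refine eq_of_le_S ?_ (by omega)
          rw [Pi.le_def]; intro i
          have hb := Pi.le_def.1 h2.1 i
          have hbj := Pi.le_def.1 h2.1 j
          rw [vtx_apply] at hb hbj
          rw [hydef]
          rw [if_pos (by omega)] at hbj
          by_cases hij : (π.symm i : ℕ) = k - 1
          · have : i = j := by
              apply π.symm.injective
              exact Fin.ext (by omega)
            subst this
            split_ifs <;> omega
          · split_ifs at hb ⊢ <;> omega
    · -- k = 5
      have hk5 : k = 5 := by omega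
      subst hk5
      obtain ⟨y, hydef⟩ : ∃ y : P, ∀ i, y i = q i - (if (π.symm i : ℕ) < 4 then 0 else 1) :=
        ⟨_, fun i => rfl⟩
      have hy : S y = S q - 1 := by
        have h4 := hS 4 (by norm_num)
        have h5 := hS 5 (by norm_num)
        have : S y = S q + S (vtx q π 4) - S (vtx q π 5) := by
          unfold S
          rw [← Finset.sum_add_distrib, ← Finset.sum_sub_distrib]
          refine Finset.sum_congr rfl fun i _ => ?_
          simp only [vtx_apply, hydef]
          rw [if_pos (hlt i)]
          split_ifs <;> omega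
        rw [this, h4, h5]
        push_cast
        ring
      refine key y ?_ ?_ ?_
      · intro l hl h
        have h1 := hS l hl
        rw [← h, hy] at h1
        omega
      · intro l hl hl0
        left
        constructor
        · intro i
          simp only [vtx_apply, hydef]
          split_ifs <;> omega
        · intro i
          simp only [vtx_apply, Pi.add_apply, Pi.one_apply, hydef]
          have := hlt i
          split_ifs <;> omega
      · intro w hw1 hw2
        have hs := hsum w hw1 hw2
        have hs0 := hs 0 (by norm_num) (by norm_num)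
        have hs1 := hs 1 (by norm_num) (by norm_num)
        have hs2 := hs 2 (by norm_num) (by norm_num)
        have hs3 := hs 3 (by norm_num) (by norm_num)
        have hs4 := hs 4 (by norm_num) (by norm_num)
        push_cast at hs0 hs1 hs2 hs3 hs4
        have hS0 := hS 0 (by norm_num)
        have hS4 := hS 4 (by norm_num)
        have hS5 := hS 5 (by norm_num)
        push_cast at hS0 hS4 hS5
        rcases lt_or_ge (S w) (S q + 4) with h | h
        · right
          have h1 := C_lt (hw2 4 (by norm_num) (by norm_num)) (by omega)
          symm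
          refine eq_of_le_S ?_ ?_
          · rw [Pi.le_def]; intro i
            have := Pi.le_def.1 h1.2 i
            simp only [vtx_apply, Pi.add_apply, Pi.one_apply] at this
            rw [hydef]
            split_ifs at this ⊢ <;> omega
          · rw [hy]
            omega
        · left
          have h1 := C_gt (hw2 0 (by norm_num) (by norm_num)) (by omega)
          refine eq_of_le_S ?_ (by omega)
          rw [Pi.le_def]; intro i
          have := Pi.le_def.1 h1.2 i
          simp only [vtx_apply, Pi.add_apply, Pi.one_apply] at this ⊢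
          rw [if_pos (hlt i)]
          simpa using this

end Pool.Agent.MK
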